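import Mathlib

/-!
# Grouping indices by length and weight

`c i = (1/2) ((i + 1) / I + ∑ j ≤ i, W j) ∈ (0, 1]` is strictly increasing, `g i = ⌊w * c i⌋₊ ∈ {0, ..., w}`.
`σ i = (g i, true)` if `i = 0` or `g (i - 1) < g i`, and `(g i, false)` otherwise. If `i ≤ j < I` and
`σ i = σ j = (g, false)`, let `k < i` be the first index with `g k = g`; `c j - c k < 1 / w`, so
`(j - k) / I + ∑ k < i' ≤ j, W i' < 2 / w`, which gives both bounds.
-/

open Finset

namespace Pool.Agent.Lib.Pabc14

theorem slot_map (I w : ℕ) (hI : 0 < I) (hw : 0 < w) (W : ℕ → ℝ) (hW : ∀ i, 0 ≤ W i)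
    (hsum : ∑ i ∈ range I, W i ≤ 1) :
    ∃ σ : ℕ → Fin (w + 1) × Bool,
      (∀ i < I, ∀ j < I, σ i = σ j → (σ i).2 = true → i = j) ∧
      (∀ i < I, ∀ j < I, σ i = σ j → (σ i).2 = false → (w : ℝ) * ((j : ℝ) - i + 1) ≤ 2 * I) ∧
      ∀ s : Fin (w + 1) × Bool, s.2 = false →
        (w : ℝ) * ∑ i ∈ (range I).filter (fun i => σ i = s), W i ≤ 2 := by
  have hIr : (0 : ℝ) < I := by exact_mod_cast hI
  have hwr : (0 : ℝ) < w := by exact_mod_cast hw
  set c : ℕ → ℝ := fun i => (1 / 2) * (((i : ℝ) + 1) / I + ∑ j ∈ range (i + 1), W j) with hc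
  set g : ℕ → ℕ := fun i => ⌊(w : ℝ) * c i⌋₊ with hg
  have hc0 : ∀ i, 0 ≤ c i := by
    intro i
    have := sum_nonneg (fun j (_ : j ∈ range (i + 1)) => hW j)
    simp only [hc]
    positivity
  have hcm : Monotone c := by
    intro i j hij
    simp only [hc]
    have h1 : ∑ k ∈ range (i + 1), W k ≤ ∑ k ∈ range (j + 1), W k :=
      sum_le_sum_of_subset_of_nonneg (range_subset_range.mpr (by omega)) (fun k _ _ => hW k)
    have h2 : ((i : ℝ) + 1) / I ≤ ((j : ℝ) + 1) / I := by
      have : (i : ℝ) ≤ j := by exact_mod_cast hij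
      gcongr
    linarith
  have hgm : Monotone g := by
    intro i j hij
    exact Nat.floor_le_floor (mul_le_mul_of_nonneg_left (hcm hij) hwr.le)
  have hgle : ∀ i < I, g i ≤ w := by
    intro i hi
    have h1 : ∑ k ∈ range (i + 1), W k ≤ 1 :=
      (sum_le_sum_of_subset_of_nonneg (range_subset_range.mpr (by omega)) (fun k _ _ => hW k)).trans hsum
    have h2 : ((i : ℝ) + 1) / I ≤ 1 := by
      rw [div_le_one hIr]
      exact_mod_cast hi
    have h3 : c i ≤ 1 := by simp only [hc]; linarith
    have h4 : (w : ℝ) * c i ≤ w := by nlinarith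
    calc g i ≤ ⌊(w : ℝ)⌋₊ := Nat.floor_le_floor h4
      _ = w := Nat.floor_natCast w
  have key : ∀ i j, 0 < i → i ≤ j → g (i - 1) = g j →
      (w : ℝ) * (((j : ℝ) - i + 1) / I + ∑ k ∈ Ico i (j + 1), W k) ≤ 2 := by
    intro i j hi hij hgg
    have h1 : (w : ℝ) * c j < g j + 1 := Nat.lt_floor_add_one _
    have h2 : (g (i - 1) : ℝ) ≤ w * c (i - 1) := Nat.floor_le (mul_nonneg hwr.le (hc0 _))
    rw [hgg] at h2
    have h3 : (w : ℝ) * (c j - c (i - 1)) ≤ 1 := by rw [mul_sub]; linarith
    have hi1 : i - 1 + 1 = i := by omega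
    have hcast : ((i - 1 : ℕ) : ℝ) + 1 = i := by exact_mod_cast hi1
    have h4 : c j - c (i - 1) = (1 / 2) * (((j : ℝ) - i + 1) / I + ∑ k ∈ Ico i (j + 1), W k) := by
      simp only [hc]
      rw [hcast, hi1, sum_Ico_eq_sub _ (by omega : i ≤ j + 1)]
      ring
    rw [h4] at h3
    linarith
  refine ⟨fun i => (⟨min (g i) w, by omega⟩, decide (i = 0 ∨ g (i - 1) < g i)), ?_, ?_, ?_⟩
  · have main : ∀ i j, i < I → j < I → i ≤ j → g i = g j → (j = 0 ∨ g (j - 1) < g j) → i = j := by
      intro i j hi hj hij hgg hfl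
      by_contra hne
      have hlt : i < j := by omega
      rcases hfl with h | h
      · omega
      · have := hgm (show i ≤ j - 1 by omega)
        omega
    intro i hi j hj hs hfl
    simp only [Prod.mk.injEq, Fin.mk.injEq] at hs
    have hgg : g i = g j := by
      have h1 := hgle i hi
      have h2 := hgle j hj
      have h3 := hs.1
      omega
    have hfi : (i = 0 ∨ g (i - 1) < g i) := by simpa using hfl
    have hfj : (j = 0 ∨ g (j - 1) < g j) := by
      have h2 := hs.2
      have h3 : decide (j = 0 ∨ g (j - 1) < g j) = true := by rw [← h2]; exact hfl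
      simpa using h3
    rcases le_total i j with h | h
    · exact main i j hi hj h hgg hfj
    · exact (main j i hj hi h hgg.symm hfi).symm
  · intro i hi j hj hs hfl
    simp only [Prod.mk.injEq, Fin.mk.injEq] at hs
    have hgg : g i = g j := by
      have h1 := hgle i hi
      have h2 := hgle j hj
      have h3 := hs.1
      omega
    have hfi : ¬ (i = 0 ∨ g (i - 1) < g i) := by simpa using hfl
    rcases lt_or_ge j i with h | h
    · have h1 : (j : ℝ) + 1 ≤ i := by exact_mod_cast h
      have : (w : ℝ) * ((j : ℝ) - i + 1) ≤ 0 := by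
        apply mul_nonpos_of_nonneg_of_nonpos hwr.le
        linarith
      linarith
    · have hi0 : 0 < i := by omega
      have h1 := hgm (show i - 1 ≤ i by omega)
      have hk := key i j hi0 h (by omega)
      have h2 : 0 ≤ ∑ k ∈ Ico i (j + 1), W k := sum_nonneg (fun k _ => hW k)
      have h3 : (w : ℝ) * (((j : ℝ) - i + 1) / I) ≤ 2 := by nlinarith
      have h4 : (w : ℝ) * ((j : ℝ) - i + 1) = (w : ℝ) * (((j : ℝ) - i + 1) / I) * I := by
        field_simp
      rw [h4]
      exact mul_le_mul_of_nonneg_right h3 hIr.le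
  · intro s hs
    set F := (range I).filter (fun i => ((⟨min (g i) w, by omega⟩ : Fin (w + 1)),
      decide (i = 0 ∨ g (i - 1) < g i)) = s) with hF
    rcases F.eq_empty_or_nonempty with h | h
    · rw [h]; simp
    · have hmin := F.min'_mem h
      have hmax := F.max'_mem h
      set i0 := F.min' h
      set j0 := F.max' h
      have hle : i0 ≤ j0 := F.min'_le _ hmax
      have a1 := mem_filter.mp hmin
      have a2 := mem_filter.mp hmax
      have b1 := hgle i0 (mem_range.mp a1.1)
      have b2 := hgle j0 (mem_range.mp a2.1)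
      have e1 := a1.2
      have e2 := a2.2
      have e3 := e1.trans e2.symm
      simp only [Prod.mk.injEq, Fin.mk.injEq] at e3
      have hgg : g i0 = g j0 := by
        have := e3.1
        omega
      have hfi : ¬ (i0 = 0 ∨ g (i0 - 1) < g i0) := by
        have : (decide (i0 = 0 ∨ g (i0 - 1) < g i0)) = false := by
          rw [← hs, ← e1]
        simpa using this
      have hi0 : 0 < i0 := by omega
      have h1 := hgm (show i0 - 1 ≤ i0 by omega)
      have hk := key i0 j0 hi0 hle (by omega)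
      have hsub : F ⊆ Ico i0 (j0 + 1) := by
        intro k hk
        rw [mem_Ico]
        exact ⟨F.min'_le _ hk, Nat.lt_succ_of_le (F.le_max' _ hk)⟩
      have h2 : ∑ k ∈ F, W k ≤ ∑ k ∈ Ico i0 (j0 + 1), W k :=
        sum_le_sum_of_subset_of_nonneg hsub (fun k _ _ => hW k)
      have h3 : 0 ≤ ((j0 : ℝ) - i0 + 1) / I := by
        have : (i0 : ℝ) ≤ j0 := by exact_mod_cast hle
        apply div_nonneg _ hIr.le
        linarith
      nlinarith

end Pool.Agent.Lib.Pabc14
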