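import Mathlib

/-!
# A common type for every prime

Count the pairs `(t, ω)`, `ω` a function from the finite set `V = ⋃ t ∈ T, Hv t` to `κ` extending
`τ t` on `Hv t`: for each `t` there are `card κ ^ (V.card - (Hv t).card) ≥ card κ ^ V.card / card κ ^ N`. So some `ω` is
compatible with at least `T.card / card κ ^ N` elements. (Or induction on the finite set of primes: choose the
value at one prime after the other. A weighted induction: `∑ t, c ^ (number of remaining primes)`.)
-/

open Finset

namespace Pool.Agent.Lib.Pabc14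

private theorem typing_one {κ : Type*} [Fintype κ] [DecidableEq κ] [Nonempty κ] (V H : Finset ℕ)
    (N : ℕ) (hH : H ⊆ V) (hN : H.card ≤ N) (τ : ℕ → κ) :
    Fintype.card (V → κ) ≤ Fintype.card κ ^ N *
      (Finset.univ.filter (fun ω : V → κ => ∀ p : V, (p : ℕ) ∈ H → ω p = τ p)).card := by
  classical
  have h1 : Fintype.card (V → κ) ≤
      ((Finset.univ.filter (fun ω : V → κ => ∀ p : V, (p : ℕ) ∈ H → ω p = τ p)) ×ˢ
        (Finset.univ : Finset (H → κ))).card := by
    rw [← Finset.card_univ]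
    apply Finset.card_le_card_of_injOn
      (fun ω : V → κ => (⟨fun p => if (p : ℕ) ∈ H then τ p else ω p,
        fun p => ω ⟨p, hH p.2⟩⟩ : (V → κ) × (H → κ)))
    · intro ω _
      simp only [Finset.coe_product, Set.mem_prod, Finset.mem_coe, Finset.mem_filter,
        Finset.mem_univ, true_and, and_true]
      intro p hp
      rw [if_pos hp]
    · intro ω _ ω' _ hωω'
      simp only [Prod.mk.injEq] at hωω'
      obtain ⟨e1, e2⟩ := hωω'
      funext p
      by_cases hp : (p : ℕ) ∈ H
      · exact congrFun e2 ⟨p, hp⟩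
      · have := congrFun e1 p
        simp only [if_neg hp] at this
        exact this
  rw [Finset.card_product, Finset.card_univ, Fintype.card_fun, Fintype.card_coe] at h1
  rw [Fintype.card_fun, Fintype.card_coe, mul_comm]
  refine h1.trans (Nat.mul_le_mul_left _ ?_)
  rw [Fintype.card_fun, Fintype.card_coe]
  exact Nat.pow_le_pow_right (Fintype.card_pos (α := κ)) hN

theorem exists_typing {α κ : Type*} [Fintype κ] [DecidableEq κ] [Nonempty κ] (T : Finset α)
    (Hv : α → Finset ℕ) (τ : α → ℕ → κ) (N : ℕ) (hN : ∀ t ∈ T, (Hv t).card ≤ N) :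
    ∃ ω : ℕ → κ, T.card ≤ Fintype.card κ ^ N * (T.filter (fun t => ∀ p ∈ Hv t, ω p = τ t p)).card := by
  classical
  let V : Finset ℕ := T.biUnion Hv
  have hV : ∀ t ∈ T, Hv t ⊆ V := fun t ht => Finset.subset_biUnion_of_mem Hv ht
  have key : ∃ ω : V → κ, T.card ≤ Fintype.card κ ^ N *
      (T.filter (fun t => ∀ p : V, (p : ℕ) ∈ Hv t → ω p = τ t p)).card := by
    by_contra hcon
    push Not at hcon
    have h1 : ∑ ω : V → κ, Fintype.card κ ^ N *
        (T.filter (fun t => ∀ p : V, (p : ℕ) ∈ Hv t → ω p = τ t p)).card <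
        ∑ ω : V → κ, T.card :=
      Finset.sum_lt_sum_of_nonempty Finset.univ_nonempty fun ω _ => hcon ω
    rw [← Finset.mul_sum] at h1
    have h2 : ∑ ω : V → κ, (T.filter (fun t => ∀ p : V, (p : ℕ) ∈ Hv t → ω p = τ t p)).card =
        ∑ t ∈ T, (Finset.univ.filter
          (fun ω : V → κ => ∀ p : V, (p : ℕ) ∈ Hv t → ω p = τ t p)).card := by
      simp only [Finset.card_filter]
      exact Finset.sum_comm
    rw [h2, Finset.mul_sum] at h1
    have h3 : ∑ _t ∈ T, Fintype.card (V → κ) ≤ ∑ t ∈ T, Fintype.card κ ^ N *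
        (Finset.univ.filter
          (fun ω : V → κ => ∀ p : V, (p : ℕ) ∈ Hv t → ω p = τ t p)).card :=
      Finset.sum_le_sum fun t ht => typing_one V (Hv t) N (hV t ht) (hN t ht) (τ t)
    rw [Finset.sum_const, Finset.card_univ, smul_eq_mul] at h1
    rw [Finset.sum_const, smul_eq_mul, mul_comm] at h3
    exact absurd (lt_of_le_of_lt h3 h1) (lt_irrefl _)
  obtain ⟨ω, hω⟩ := key
  refine ⟨fun p => if h : p ∈ V then ω ⟨p, h⟩ else Classical.arbitrary κ, hω.trans ?_⟩
  refine Nat.mul_le_mul_left _ (Finset.card_le_card ?_)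
  intro t ht
  rw [Finset.mem_filter] at ht ⊢
  refine ⟨ht.1, fun p hp => ?_⟩
  have hpV : p ∈ V := hV t ht.1 hp
  simp only [dif_pos hpV]
  exact ht.2 ⟨p, hpV⟩ hp

end Pool.Agent.Lib.Pabc14
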