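import Pool.Agent.Lib.Pabc14.CountAttr
import Pool.Agent.Lib.Pabc14.SlotMap
import Pool.Agent.Lib.Pabc14.Typing

/-!
# The count for one scale: pigeonhole over the attributes
-/

open Finset

namespace Pool.Agent.Lib.Pabc14

open Pool.Agent.Lib.Pabc2 Pool.Agent.Lib.Pabc1 Pool.Agent.Lib.Pabc8

/-- Extension of a function on `Fin I`. -/
def exn {w I : ℕ} (c : Fin I → Fin (w + 1) × Bool) (i : ℕ) : Fin (w + 1) × Bool :=
  if h : i < I then c ⟨i, h⟩ else (0, true)

theorem slot_map' (I w : ℕ) (hI : 0 < I) (hw : 0 < w) (W : ℕ → ℝ) (hW : ∀ i, 0 ≤ W i)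
    (hsum : ∑ i ∈ range I, W i ≤ 1) :
    ∃ c : Fin I → Fin (w + 1) × Bool,
      (∀ i < I, ∀ j < I, exn c i = exn c j → (exn c i).2 = true → i = j) ∧
      (∀ i < I, ∀ j < I, exn c i = exn c j → (exn c i).2 = false →
        (w : ℝ) * ((j : ℝ) - i + 1) ≤ 2 * I) ∧
      ∀ s : Fin (w + 1) × Bool, s.2 = false →
        (w : ℝ) * ∑ i ∈ (range I).filter (fun i => exn c i = s), W i ≤ 2 := by
  obtain ⟨σ, h1, h2, h3⟩ := slot_map I w hI hw W hW hsum
  have e : ∀ i < I, exn (fun i : Fin I => σ i) i = σ i := by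
    intro i hi
    unfold exn
    rw [dif_pos hi]
  refine ⟨fun i => σ i, ?_, ?_, ?_⟩
  · intro i hi j hj
    rw [e i hi, e j hj]
    exact h1 i hi j hj
  · intro i hi j hj
    rw [e i hi, e j hj]
    exact h2 i hi j hj
  · intro s hs
    have h4 : (range I).filter (fun i => exn (fun i : Fin I => σ i) i = s) =
        (range I).filter (fun i => σ i = s) := by
      apply Finset.filter_congr
      intro i hi
      rw [e i (Finset.mem_range.mp hi)]
    rw [h4]
    exact h3 s hs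

/-- The primes of the band. -/
noncomputable def band (P : Par) (h : ℝ) (t : ℕ × ℕ) (l : Fin 3) : Finset ℕ :=
  (oprimes t l).filter (fun p => h * Real.exp (-(P.a1 : ℝ)) ≤ ex t p ∧
    (ex t p : ℝ) < h * Real.exp (-(P.a2 : ℝ)))

/-- The hypothesis on a triple at a scale. -/
structure Base (P : Par) (x H v η : ℝ) (q : ℕ) (l : Fin 3) (t : ℕ × ℕ) : Prop where
  isT : IsT t
  tw_le : tw t ≤ x
  ht_ge : H ≤ ht t
  ht_le : ht t ≤ 2 * H
  dvd : q ∣ comp t l
  wt_le : tw t - wt t l ≤ 2 * v * x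
  mid : ∑ p ∈ band P (H / x) t l, Real.log (p : ℝ) ≤ η * x

/-- The exponents are not too large. -/
theorem ty_lt {P : Par} {Kp F : ℕ} {x H v η : ℝ} {q : ℕ} {l : Fin 3} {t : ℕ × ℕ} (hx : 0 < x)
    (hH : 0 < H) (hB : Base P x H v η q l t)
    (hF : (P.m0 * Kp : ℕ) * (Real.log (6 * x) + P.a1) < (F : ℝ)) {p : ℕ}
    (hp : p ∈ tpr P (H / x) t l) : ty (P.m0 * Kp) P.a1 (H / x) (ex t p) < F := by
  have hh : 0 < H / x := by positivity
  have hp1 := (Finset.mem_filter.mp hp).1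
  have hp2 := (Finset.mem_filter.mp hp).2
  have hpp : p.Prime := Nat.prime_of_mem_primeFactors (Finset.mem_filter.mp hp1).1
  have h1 : (ex t p : ℝ) * Real.log p ≤ 4 * H := by
    have g1 := Finset.single_le_sum (f := fun p : ℕ => (ex t p : ℝ) * Real.log p)
      (fun p _ => mul_nonneg (Nat.cast_nonneg _) (Real.log_natCast_nonneg p)) hp1
    have g2 := oprimes_mass hB.isT l
    have g3 := hB.ht_le
    linarith
  have h2 : (ex t p : ℝ) ≤ 6 * H := by
    have g1 : (0.6931471803 : ℝ) < Real.log 2 := Real.log_two_gt_d9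
    have g2 : Real.log 2 ≤ Real.log p := Real.log_le_log (by norm_num) (by exact_mod_cast hpp.two_le)
    have g3 : (ex t p : ℝ) * (2 / 3) ≤ ex t p * Real.log p :=
      mul_le_mul_of_nonneg_left (by linarith) (Nat.cast_nonneg _)
    linarith
  have h3 : (0 : ℝ) < ex t p := lt_of_lt_of_le (by positivity) hp2
  have h4 : Real.log ((ex t p : ℝ) / (H / x)) ≤ Real.log (6 * x) := by
    apply Real.log_le_log (by positivity)
    rw [div_le_iff₀ hh]
    calc (ex t p : ℝ) ≤ 6 * H := h2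
      _ = 6 * x * (H / x) := by field_simp
  have h5 := ty_le (K := P.m0 * Kp) hh hp2
  have h6 : ((P.m0 * Kp : ℕ) : ℝ) * (Real.log ((ex t p : ℝ) / (H / x)) + P.a1) ≤
      (P.m0 * Kp : ℕ) * (Real.log (6 * x) + P.a1) :=
    mul_le_mul_of_nonneg_left (by linarith) (Nat.cast_nonneg _)
  exact_mod_cast (h5.trans h6).trans_lt hF

/-- The weight of the coarse cells. -/
noncomputable def Wc (P : Par) (Kp : ℕ) (h : ℝ) (ω : ℕ → Bool × ℕ) (l : Fin 3) (t : ℕ × ℕ)
    (i : ℕ) : ℝ :=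
  ∑ p ∈ (tpr P h t l).filter (fun p => (P.m0 * Kp * (P.a1 - P.a2) ≤ (ω p).2 ∧
    (ω p).2 < P.m0 * Kp * (P.a1 + P.a3)) ∧
      ((ω p).2 - P.m0 * Kp * (P.a1 - P.a2)) / Kp = i), Real.log (p : ℝ)

theorem Wc_nonneg (P : Par) (Kp : ℕ) (h : ℝ) (ω : ℕ → Bool × ℕ) (l : Fin 3) (t : ℕ × ℕ)
    (i : ℕ) : 0 ≤ Wc P Kp h ω l t i :=
  Finset.sum_nonneg (fun p _ => Real.log_natCast_nonneg p)

theorem sum_Wc_le (P : Par) (Kp : ℕ) (h : ℝ) (ω : ℕ → Bool × ℕ) (l : Fin 3) (t : ℕ × ℕ)
    (A : Finset ℕ) : ∑ i ∈ A, Wc P Kp h ω l t i ≤ ∑ p ∈ tpr P h t l, Real.log (p : ℝ) := by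
  classical
  unfold Wc
  rw [← Finset.sum_biUnion]
  · apply Finset.sum_le_sum_of_subset_of_nonneg
    · intro p hp
      rw [Finset.mem_biUnion] at hp
      obtain ⟨i, _, hi⟩ := hp
      exact (Finset.mem_filter.mp hi).1
    · intro p _ _
      exact Real.log_natCast_nonneg p
  · intro i _ j _ hij
    rw [Function.onFun, Finset.disjoint_left]
    intro p hp hp'
    rw [Finset.mem_filter] at hp hp'
    exact hij (hp.2.2.symm.trans hp'.2.2)

/-- The weight of a slot in terms of the weights of the cells. -/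
theorem Ws_le {P : Par} {δ η : ℝ} (hP : P.Good δ η) {Kp : ℕ} (hKp : 0 < Kp) {h : ℝ}
    {ω : ℕ → Bool × ℕ} {l : Fin 3} {t : ℕ × ℕ} (σ : ℕ → Fin (P.w + 1) × Bool) (s : Slot P.w)
    (u : Fin (P.w + 1) × Bool) (hs : s.2 = some u) :
    Ws P Kp h σ ω l t s ≤ ∑ i ∈ (range (P.m0 * (P.a2 + P.a3))).filter (fun i => σ i = u),
      Wc P Kp h ω l t i := by
  classical
  unfold Wc Ws
  rw [← Finset.sum_biUnion]
  · apply Finset.sum_le_sum_of_subset_of_nonneg
    · intro p hp
      rw [Finset.mem_filter] at hp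
      obtain ⟨hp1, hp2⟩ := hp
      have hp3 : (slt P Kp σ ω p).2 = some u := by rw [hp2, hs]
      unfold slt at hp3
      simp only at hp3
      split_ifs at hp3 with hc
      rw [Option.some_inj] at hp3
      rw [Finset.mem_biUnion]
      refine ⟨((ω p).2 - P.m0 * Kp * (P.a1 - P.a2)) / Kp, ?_, ?_⟩
      · rw [Finset.mem_filter, Finset.mem_range]
        refine ⟨?_, hp3⟩
        apply Nat.div_lt_of_lt_mul
        have e1 : P.m0 * Kp * (P.a1 - P.a2) + Kp * (P.m0 * (P.a2 + P.a3)) =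
            P.m0 * Kp * (P.a1 + P.a3) := by
          have e2 : P.a1 = (P.a1 - P.a2) + P.a2 := by
            have := hP.ha
            omega
          conv_rhs => rw [e2]
          ring
        have := hc.2
        omega
      · rw [Finset.mem_filter]
        exact ⟨hp1, hc, rfl⟩
    · intro p _ _
      exact Real.log_natCast_nonneg p
  · intro i _ j _ hij
    rw [Function.onFun, Finset.disjoint_left]
    intro p hp hp'
    rw [Finset.mem_filter] at hp hp'
    exact hij (hp.2.2.symm.trans hp'.2.2)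

/-- The size of the set of attributes. -/
def nattr (P : Par) : ℕ :=
  Fintype.card ((Fin (P.m0 * (P.a2 + P.a3)) → Fin (P.w + 1) × Bool) ×
    (Slot P.w → Fin (P.Θ + 1)))

theorem count_det (P : Par) {δ η : ℝ} (hδ : 0 < δ) (hη : 0 < η) (hη1 : η ≤ 1)
    (hP : P.Good δ η) (Kp N F : ℕ) (x H ρ v Δ : ℝ) (hx : 0 < x)
    (hKp : 4 ≤ Real.exp (-(P.a1 : ℝ)) * (P.m0 * Kp)) (hxΘ : (P.Θ : ℝ) * P.m0 ≤ x)
    (hH1 : 7680 * P.w * x ≤ δ * H) (hH2 : P.m0 * Real.exp P.a2 * x ≤ H) (hH3 : 1000 ≤ δ * H)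
    (hρ : 0 ≤ ρ) (hΔ1 : 1 ≤ Δ)
    (hΔ : ∀ k : ℕ, 0 < k → Real.log k ≤ 8 * P.w * x → (k.divisors.card : ℝ) ≤ Δ)
    (hΔ2 : 4 * P.w * Real.log Δ ≤ η * x)
    (hF : (P.m0 * Kp : ℕ) * (Real.log (6 * x) + P.a1) < (F : ℝ)) (q : ℕ) (hq : 0 < q)
    (hq1 : δ * H ≤ Real.log q)
    (hq2 : Real.log ((∏ p ∈ q.primeFactors, p : ℕ) : ℝ) ≤ ρ * x) (l : Fin 3)
    (T : Finset (ℕ × ℕ))
    (hT : ∀ t ∈ T, Base P x H v η q l t ∧ (tpr P (H / x) t l).card ≤ N) :
    (T.card : ℝ) ≤ (2 * F : ℝ) ^ N * nattr P * Real.exp ((v + ρ + 12 * η) * x) := by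
  classical
  have hm : (1 : ℝ) ≤ P.m0 := by exact_mod_cast hP.hm
  have hw2 : (2 : ℝ) ≤ P.w := by exact_mod_cast hP.hw
  have hKp0 : 0 < Kp := by
    by_contra hcon
    have : Kp = 0 := by omega
    rw [this] at hKp
    simp only [Nat.cast_zero, mul_zero] at hKp
    linarith
  have hH0 : 0 < H := by
    have : 0 < δ * H := by linarith
    by_contra hcon
    push Not at hcon
    nlinarith
  have hh0 : 0 < H / x := by positivity
  have hK0 : 0 < P.m0 * Kp := Nat.mul_pos hP.hm hKp0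
  rcases T.eq_empty_or_nonempty with hTe | ⟨t0, ht0⟩
  · rw [hTe, Finset.card_empty, Nat.cast_zero]
    positivity
  have hl6 : 0 ≤ Real.log (6 * x) + P.a1 := by
    -- there is nothing to prove when there are typed primes; in general `6 x ≥ 1`
    have g1 : (1 : ℝ) ≤ 6 * x := by
      have g2 : (P.w : ℝ) ≤ P.Θ := by exact_mod_cast hP.hΘ
      have g3 : (2 : ℝ) * 1 ≤ P.Θ * P.m0 := mul_le_mul (by linarith) hm (by norm_num) (by linarith)
      linarith
    have := Real.log_nonneg g1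
    positivity
  have hF0 : 0 < F := by
    have : (0 : ℝ) < F := lt_of_le_of_lt (by positivity) hF
    exact_mod_cast this
  have : NeZero F := ⟨hF0.ne'⟩
  -- a common typing
  obtain ⟨ω', hω'⟩ := exists_typing (κ := Bool × Fin F) T (fun t => tpr P (H / x) t l)
    (fun t p => (decide (lab t p = lM l), Fin.ofNat F (ty (P.m0 * Kp) P.a1 (H / x) (ex t p)))) N
    (fun t ht' => (hT t ht').2)
  set T1 := T.filter (fun t => ∀ p ∈ tpr P (H / x) t l, ω' p =
    (decide (lab t p = lM l), Fin.ofNat F (ty (P.m0 * Kp) P.a1 (H / x) (ex t p)))) with hT1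
  set ω : ℕ → Bool × ℕ := fun p => ((ω' p).1, ((ω' p).2 : ℕ)) with hω
  have hcardκ : Fintype.card (Bool × Fin F) = 2 * F := by simp
  have hT1a : ∀ t ∈ T1, Base P x H v η q l t := fun t ht' =>
    (hT t (Finset.mem_filter.mp ht').1).1
  have hT1b : ∀ t ∈ T1, ∀ p ∈ tpr P (H / x) t l,
      ω p = (decide (lab t p = lM l), ty (P.m0 * Kp) P.a1 (H / x) (ex t p)) := by
    intro t ht' p hp
    have h1 := (Finset.mem_filter.mp ht').2 p hp
    simp only [hω, h1, Fin.val_ofNat]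
    rw [Nat.mod_eq_of_lt (ty_lt hx hH0 (hT1a t ht') hF hp)]
  -- the weight of the typed primes
  have hwt : ∀ t ∈ T1, ∑ p ∈ tpr P (H / x) t l, Real.log (p : ℝ) ≤ x := by
    intro t ht'
    have hB := hT1a t ht'
    have g1 : ∑ p ∈ tpr P (H / x) t l, Real.log (p : ℝ) ≤ ∑ p ∈ oprimes t l, Real.log (p : ℝ) :=
      Finset.sum_le_sum_of_subset_of_nonneg (tpr_subset _ _ _ _)
        (fun p _ _ => Real.log_natCast_nonneg p)
    rw [oprimes_weight] at g1
    have g2 := wt_nonneg t l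
    have g3 := hB.tw_le
    linarith
  -- the slot maps
  have hI : 0 < P.m0 * (P.a2 + P.a3) := Nat.mul_pos hP.hm (by
    have := hP.ha3
    omega)
  have hcex : ∀ t, ∃ c : Fin (P.m0 * (P.a2 + P.a3)) → Fin (P.w + 1) × Bool, t ∈ T1 →
      (∀ i < P.m0 * (P.a2 + P.a3), ∀ j < P.m0 * (P.a2 + P.a3), exn c i = exn c j →
        (exn c i).2 = true → i = j) ∧
      (∀ i < P.m0 * (P.a2 + P.a3), ∀ j < P.m0 * (P.a2 + P.a3), exn c i = exn c j →
        (exn c i).2 = false → (P.w : ℝ) * ((j : ℝ) - i + 1) ≤ 2 * (P.m0 * (P.a2 + P.a3))) ∧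
      ∀ s : Fin (P.w + 1) × Bool, s.2 = false →
        (P.w : ℝ) * ∑ i ∈ (range (P.m0 * (P.a2 + P.a3))).filter (fun i => exn c i = s),
          Wc P Kp (H / x) ω l t i ≤ 2 * x := by
    intro t
    by_cases ht' : t ∈ T1
    · obtain ⟨c, h1, h2, h3⟩ := slot_map' (P.m0 * (P.a2 + P.a3)) P.w hI (by
        have := hP.hw
        omega) (fun i => Wc P Kp (H / x) ω l t i / x)
        (fun i => div_nonneg (Wc_nonneg _ _ _ _ _ _ _) hx.le) (by
          rw [← Finset.sum_div, div_le_one hx]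
          exact (sum_Wc_le _ _ _ _ _ _ _).trans (hwt t ht'))
      refine ⟨c, fun _ => ⟨h1, ?_, ?_⟩⟩
      · intro i hi j hj h4 h5
        have := h2 i hi j hj h4 h5
        push_cast at this
        exact this
      · intro s hs
        have h4 := h3 s hs
        rw [← Finset.sum_div, mul_div_assoc', div_le_iff₀ hx] at h4
        exact h4
    · exact ⟨fun _ => (0, true), fun h => absurd h ht'⟩
  choose cc hcc using hcex
  set A : ℕ × ℕ → (Fin (P.m0 * (P.a2 + P.a3)) → Fin (P.w + 1) × Bool) ×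
    (Slot P.w → Fin (P.Θ + 1)) := fun t => (cc t, fun s =>
      ⟨min ⌊P.Θ * Ws P Kp (H / x) (exn (cc t)) ω l t s / x⌋₊ P.Θ,
        Nat.lt_succ_of_le (min_le_right _ _)⟩) with hA
  have hfib : ∀ a, ((T1.filter (fun t => A t = a)).card : ℝ) ≤
      Real.exp ((v + ρ + 12 * η) * x) := by
    intro a
    rcases (T1.filter (fun t => A t = a)).eq_empty_or_nonempty with hE | ⟨t1, ht1⟩
    · rw [hE, Finset.card_empty, Nat.cast_zero]
      exact (Real.exp_pos _).le
    rw [Finset.mem_filter] at ht1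
    have hc1 := hcc t1 ht1.1
    have ha1 : cc t1 = a.1 := by rw [← ht1.2]
    rw [ha1] at hc1
    apply count_attr P hδ hη hη1 hP Kp x H ρ v Δ hx hKp hxΘ hH1 hH2 hH3 hρ hΔ1 hΔ hΔ2 q hq hq1
      hq2 l (exn a.1) ω (fun s => (a.2 s : ℕ)) hc1.1 hc1.2.1
    intro t ht'
    rw [Finset.mem_filter] at ht'
    have hB := hT1a t ht'.1
    have hct := hcc t ht'.1
    have hat : cc t = a.1 := by rw [← ht'.2]
    rw [hat] at hct
    refine ⟨hB.isT, hB.tw_le, hB.ht_ge, hB.ht_le, hB.dvd, hB.wt_le, hT1b t ht'.1, ?_, ?_, ?_⟩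
    · refine le_trans ?_ hB.mid
      apply Finset.sum_le_sum_of_subset_of_nonneg
      · intro p hp
        rw [Finset.mem_filter] at hp
        obtain ⟨hp1, hp2⟩ := hp
        rw [hT1b t ht'.1 p hp1] at hp2
        simp only at hp2
        have hp3 := (Finset.mem_filter.mp hp1)
        unfold band
        rw [Finset.mem_filter]
        refine ⟨hp3.1, hp3.2, ?_⟩
        by_contra hcon
        push Not at hcon
        have h1 := (mul_le_ty_iff (K := P.m0 * Kp) (a := P.a1) (b := P.a1 - P.a2) hK0 hh0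
          hp3.2).mpr (by
          rw [Nat.cast_sub hP.ha]
          have e1 : (P.a1 : ℝ) - P.a2 - P.a1 = -(P.a2 : ℝ) := by ring
          rw [e1]
          exact hcon)
        omega
      · intro p _ _
        exact Real.log_natCast_nonneg p
    · intro s
      have h1 : a.2 s = ⟨min ⌊P.Θ * Ws P Kp (H / x) (exn (cc t)) ω l t s / x⌋₊ P.Θ,
        Nat.lt_succ_of_le (min_le_right _ _)⟩ := by rw [← ht'.2]
      rw [h1]
      simp only
      rw [hat]
      apply min_eq_left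
      apply Nat.floor_le_of_le
      rw [div_le_iff₀ hx]
      apply mul_le_mul_of_nonneg_left _ (Nat.cast_nonneg _)
      have h2 := Finset.single_le_sum (f := Ws P Kp (H / x) (exn a.1) ω l t)
        (fun s _ => Ws_nonneg _ _ _ _ _ _ _ s) (Finset.mem_univ s)
      rw [sum_Ws] at h2
      exact h2.trans (hwt t ht'.1)
    · intro s g hs
      have h1 := Ws_le hP hKp0 (h := H / x) (ω := ω) (l := l) (t := t) (exn a.1) s (g, false) hs
      have h2 := hct.2.2 (g, false) rfl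
      refine le_trans ?_ h2
      exact mul_le_mul_of_nonneg_left h1 (Nat.cast_nonneg _)
  have hT1card : (T1.card : ℝ) ≤ nattr P * Real.exp ((v + ρ + 12 * η) * x) := by
    have h1 := Finset.card_eq_sum_card_fiberwise (f := A) (s := T1) (t := Finset.univ)
      (fun t _ => Finset.mem_coe.mpr (Finset.mem_univ _))
    rw [h1]
    push_cast
    calc ∑ a, ((T1.filter (fun t => A t = a)).card : ℝ)
        ≤ ∑ _a : (Fin (P.m0 * (P.a2 + P.a3)) → Fin (P.w + 1) × Bool) ×
            (Slot P.w → Fin (P.Θ + 1)), Real.exp ((v + ρ + 12 * η) * x) :=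
          Finset.sum_le_sum (fun a _ => hfib a)
      _ = nattr P * Real.exp ((v + ρ + 12 * η) * x) := by
          rw [Finset.sum_const, nsmul_eq_mul, Finset.card_univ]
          rfl
  have h1 : (T.card : ℝ) ≤ (2 * F : ℝ) ^ N * T1.card := by
    rw [hcardκ] at hω'
    exact_mod_cast hω'
  calc (T.card : ℝ) ≤ (2 * F : ℝ) ^ N * T1.card := h1
    _ ≤ (2 * F : ℝ) ^ N * (nattr P * Real.exp ((v + ρ + 12 * η) * x)) :=
        mul_le_mul_of_nonneg_left hT1card (by positivity)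
    _ = _ := by ring

end Pool.Agent.Lib.Pabc14
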