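import Pool.Agent.Lib.Pabc14.CountPar

/-!
# The count for a fixed modulus: all scales
-/

open Finset Filter Topology

namespace Pool.Agent.Lib.Pabc14

open Pool.Agent.Lib.Pabc2 Pool.Agent.Lib.Pabc1 Pool.Agent.Lib.Pabc8

theorem tw_le_log {t : ℕ × ℕ} {n : ℕ} (hrd : rd t ≤ n) : tw t ≤ Real.log n := by
  have hp : ∀ p ∈ (N t).primeFactors, p.Prime := fun p hp => Nat.prime_of_mem_primeFactors hp
  have e1 : Real.log ((∏ p ∈ (N t).primeFactors, p : ℕ) : ℝ) = tw t := by
    push_cast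
    exact Real.log_prod (fun p hq => by exact_mod_cast (hp p hq).ne_zero)
  rw [← e1]
  apply Real.log_le_log
  · exact_mod_cast Finset.prod_pos (fun p hq => (hp p hq).pos)
  · exact_mod_cast hrd

/-- Bands of different scales are disjoint, hence one of them is light. -/
theorem exists_light (P : ℕ → Par) (hP : ∀ i, (P (i + 1)).a2 = (P i).a1)
    (hle : ∀ i, (P i).a2 ≤ (P i).a1) {η x h : ℝ} (hη : 0 < η) (hx : 0 < x) (hh : 0 < h) {N0 : ℕ}
    (hN0 : 1 / η ≤ N0) {t : ℕ × ℕ} {l : Fin 3} (htw : tw t ≤ x) :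
    ∃ i < N0, ∑ p ∈ band (P i) h t l, Real.log (p : ℝ) ≤ η * x := by
  classical
  by_contra hcon
  push Not at hcon
  have hmono : ∀ i j, i < j → (P i).a1 ≤ (P j).a2 := by
    intro i j hij
    induction j with
    | zero => omega
    | succ j ih =>
      rcases Nat.lt_succ_iff_lt_or_eq.mp hij with h1 | h1
      · have h2 := ih h1
        rw [hP j]
        exact h2.trans (hle j)
      · rw [h1, hP j]
  have hdis : ∀ i j, i < j → ∀ p, p ∈ band (P i) h t l → p ∈ band (P j) h t l → False := by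
    intro i j hij p hp hp'
    have h1 := (Finset.mem_filter.mp hp).2.1
    have h2 := (Finset.mem_filter.mp hp').2.2
    have h3 : h * Real.exp (-((P j).a2 : ℝ)) ≤ h * Real.exp (-((P i).a1 : ℝ)) := by
      apply mul_le_mul_of_nonneg_left _ hh.le
      rw [Real.exp_le_exp]
      have : ((P i).a1 : ℝ) ≤ (P j).a2 := by exact_mod_cast hmono i j hij
      linarith
    linarith
  have h1 : ∑ i ∈ range N0, ∑ p ∈ band (P i) h t l, Real.log (p : ℝ) ≤ x := by
    rw [← Finset.sum_biUnion]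
    · have g1 : ∑ p ∈ (range N0).biUnion (fun i => band (P i) h t l), Real.log (p : ℝ) ≤
          ∑ p ∈ oprimes t l, Real.log (p : ℝ) := by
        apply Finset.sum_le_sum_of_subset_of_nonneg
        · intro p hp
          rw [Finset.mem_biUnion] at hp
          obtain ⟨i, _, hi⟩ := hp
          exact (Finset.mem_filter.mp hi).1
        · intro p _ _
          exact Real.log_natCast_nonneg p
      rw [oprimes_weight] at g1
      have g2 := wt_nonneg t l
      linarith
    · intro i _ j _ hij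
      rw [Function.onFun, Finset.disjoint_left]
      intro p hp hp'
      rcases lt_or_gt_of_ne hij with h2 | h2
      · exact hdis i j h2 p hp hp'
      · exact hdis j i h2 p hp' hp
  have hN0' : 0 < N0 := by
    have : (0 : ℝ) < N0 := lt_of_lt_of_le (by positivity) hN0
    exact_mod_cast this
  have h2 : ∑ _i ∈ range N0, η * x < ∑ i ∈ range N0, ∑ p ∈ band (P i) h t l, Real.log (p : ℝ) := by
    apply Finset.sum_lt_sum_of_nonempty
    · exact ⟨0, Finset.mem_range.mpr hN0'⟩
    · intro i hi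
      exact hcon i (Finset.mem_range.mp hi)
  rw [Finset.sum_const, Finset.card_range, nsmul_eq_mul] at h2
  have h3 : 1 ≤ N0 * η := by
    rwa [div_le_iff₀ hη] at hN0
  have h4 := mul_le_mul_of_nonneg_right h3 hx.le
  linarith

theorem count_q (δ η : ℝ) (hδ : 0 < δ) (hη : 0 < η) (hη1 : η ≤ 1) :
    ∃ K : ℝ, 1 ≤ K ∧ ∀ᶠ n : ℕ in atTop, ∀ (H ρ v : ℝ) (q : ℕ) (l : Fin 3) (T : Finset (ℕ × ℕ)),
      K * Real.log n ≤ H → 0 ≤ ρ → 0 < q → δ * H ≤ Real.log q →
      Real.log ((∏ p ∈ q.primeFactors, p : ℕ) : ℝ) ≤ ρ * Real.log n →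
      (∀ t ∈ T, IsT t ∧ rd t ≤ n ∧ H ≤ ht t ∧ ht t ≤ 2 * H ∧ q ∣ comp t l ∧
        tw t - wt t l ≤ 2 * v * Real.log n) →
      (T.card : ℝ) ≤ Real.exp ((v + ρ + 15 * η) * Real.log n) := by
  classical
  choose f hf1 hf2 using exists_par δ η hδ hη
  set a : ℕ → ℕ := fun i => Nat.rec 0 (fun _ b => (f b).a1) i with ha
  set P : ℕ → Par := fun i => f (a i) with hP
  have hPa : ∀ i, (P (i + 1)).a2 = (P i).a1 := fun i => by
    simp only [hP]
    rw [hf1]
  have hPg : ∀ i, (P i).Good δ η := fun i => hf2 _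
  obtain ⟨N0, hN0⟩ := exists_nat_ge (1 / η)
  have hK0 : ∀ i, 1 ≤ K0 (P i) δ := by
    intro i
    unfold K0
    have : 0 ≤ 7680 * ((P i).w : ℝ) / δ + (P i).m0 * Real.exp (P i).a2 := by positivity
    linarith
  set K : ℝ := 1 + ∑ i ∈ range N0, K0 (P i) δ with hK
  have hsum0 : 0 ≤ ∑ i ∈ range N0, K0 (P i) δ :=
    Finset.sum_nonneg (fun i _ => by linarith [hK0 i])
  refine ⟨K, by linarith, ?_⟩
  have hall : ∀ᶠ n : ℕ in atTop, ∀ i ∈ range N0, ∀ (H ρ v : ℝ) (q : ℕ) (l : Fin 3)
      (T : Finset (ℕ × ℕ)), K0 (P i) δ * Real.log n ≤ H → 0 ≤ ρ → 0 < q → δ * H ≤ Real.log q →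
      Real.log ((∏ p ∈ q.primeFactors, p : ℕ) : ℝ) ≤ ρ * Real.log n →
      (∀ t ∈ T, rd t ≤ n ∧ Base (P i) (Real.log n) H v η q l t) →
      (T.card : ℝ) ≤ Real.exp ((v + ρ + 14 * η) * Real.log n) :=
    (Filter.eventually_all_finset _).mpr (fun i _ => count_par (P i) hδ hη hη1 (hPg i))
  have hlog : Tendsto (fun n : ℕ => Real.log (n : ℝ)) atTop atTop :=
    Real.tendsto_log_atTop.comp tendsto_natCast_atTop_atTop
  have hexp : Tendsto (fun n : ℕ => Real.exp (η * Real.log (n : ℝ))) atTop atTop :=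
    Real.tendsto_exp_atTop.comp (hlog.const_mul_atTop hη)
  filter_upwards [hall, hlog.eventually_gt_atTop 0, hexp.eventually_ge_atTop (N0 : ℝ)] with n h1 hx0
    h3 H ρ v q l T hH hρ hq hq1 hq2 hT
  set x := Real.log (n : ℝ) with hx
  have hH0 : 0 < H := by
    have : 0 < K * x := mul_pos (by linarith) hx0
    linarith
  have hcov : T ⊆ (range N0).biUnion (fun i => T.filter (fun t =>
      ∑ p ∈ band (P i) (H / x) t l, Real.log (p : ℝ) ≤ η * x)) := by
    intro t ht'
    obtain ⟨g1, g2, g3, g4, g5, g6⟩ := hT t ht'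
    obtain ⟨i, hi, hi2⟩ := exists_light P hPa (fun i => (hPg i).ha) hη hx0
      (show 0 < H / x by positivity) hN0 (l := l) (tw_le_log g2)
    rw [Finset.mem_biUnion]
    exact ⟨i, Finset.mem_range.mpr hi, Finset.mem_filter.mpr ⟨ht', hi2⟩⟩
  have hE := Real.exp_pos ((v + ρ + 14 * η) * x)
  calc (T.card : ℝ) ≤ ∑ i ∈ range N0, ((T.filter (fun t =>
        ∑ p ∈ band (P i) (H / x) t l, Real.log (p : ℝ) ≤ η * x)).card : ℝ) := by
        exact_mod_cast (Finset.card_le_card hcov).trans Finset.card_biUnion_le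
    _ ≤ ∑ _i ∈ range N0, Real.exp ((v + ρ + 14 * η) * x) := by
        apply Finset.sum_le_sum
        intro i hi
        apply h1 i hi H ρ v q l _ _ hρ hq hq1 hq2
        · intro t ht'
          rw [Finset.mem_filter] at ht'
          obtain ⟨g1, g2, g3, g4, g5, g6⟩ := hT t ht'.1
          exact ⟨g2, g1, tw_le_log g2, g3, g4, g5, g6, ht'.2⟩
        · refine le_trans ?_ hH
          apply mul_le_mul_of_nonneg_right _ hx0.le
          have g1 := Finset.single_le_sum (f := fun i => K0 (P i) δ)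
            (fun i _ => by linarith [hK0 i]) hi
          linarith
    _ = N0 * Real.exp ((v + ρ + 14 * η) * x) := by
        rw [Finset.sum_const, Finset.card_range, nsmul_eq_mul]
    _ ≤ Real.exp (η * x) * Real.exp ((v + ρ + 14 * η) * x) :=
        mul_le_mul_of_nonneg_right h3 hE.le
    _ = Real.exp ((v + ρ + 15 * η) * x) := by
        rw [← Real.exp_add]
        congr 1
        ring

end Pool.Agent.Lib.Pabc14
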