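import Pool.Agent.Lib.Pabc14.CountQ

/-!
# The count with a cheap modulus in one member, all heights
-/

open Finset Filter Topology

namespace Pool.Agent.Lib.Pabc14

open Pool.Agent.Lib.Pabc2 Pool.Agent.Lib.Pabc1 Pool.Agent.Lib.Pabc8

/-- One member has a part of radical at most `n ^ ρ` and of logarithm at least `d` times the
height; the two other members together have radical at most `n ^ (2 v)`. -/
def HasQ (n : ℕ) (d ρ v : ℝ) (t : ℕ × ℕ) : Prop :=
  ∃ l : Fin 3, ∃ Q ⊆ (N t).primeFactors, (∀ p ∈ Q, lab t p = l) ∧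
    ((∏ p ∈ Q, p : ℕ) : ℝ) ≤ (n : ℝ) ^ ρ ∧ d ≤ ∑ p ∈ Q, u t p ∧
    tw t - wt t l ≤ 2 * v * Real.log n

/-- The part of `abc` composed of the primes of `Q`. -/
def part (t : ℕ × ℕ) (Q : Finset ℕ) : ℕ := ∏ p ∈ Q, p ^ ex t p

theorem primeFactors_prod_pow {Q : Finset ℕ} (hQ : ∀ p ∈ Q, p.Prime) {f : ℕ → ℕ}
    (hf : ∀ p ∈ Q, f p ≠ 0) : (∏ p ∈ Q, p ^ f p).primeFactors = Q := by
  ext q
  rw [Nat.mem_primeFactors]
  constructor
  · rintro ⟨hq, hd, _⟩
    obtain ⟨p, hp, hpd⟩ := (Prime.dvd_finsetProd_iff hq.prime _).1 hd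
    have h1 := hq.dvd_of_dvd_pow hpd
    rw [(Nat.prime_dvd_prime_iff_eq hq (hQ p hp)).1 h1]
    exact hp
  · intro hq
    refine ⟨hQ q hq, ?_, ?_⟩
    · exact (dvd_pow_self q (hf q hq)).trans (Finset.dvd_prod_of_mem (fun p => p ^ f p) hq)
    · exact Finset.prod_ne_zero_iff.mpr (fun p hp => pow_ne_zero _ (hQ p hp).ne_zero)

theorem part_facts {t : ℕ × ℕ} (hI : IsT t) {l : Fin 3} {Q : Finset ℕ}
    (hQ : Q ⊆ (N t).primeFactors) (hQl : ∀ p ∈ Q, lab t p = l) :
    part t Q ≠ 0 ∧ (part t Q).primeFactors = Q ∧ part t Q ∣ comp t l ∧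
      Real.log (part t Q) = (∑ p ∈ Q, u t p) * ht t := by
  classical
  have hpr : ∀ p ∈ Q, p.Prime := fun p hp => Nat.prime_of_mem_primeFactors (hQ hp)
  have h0 : part t Q ≠ 0 := by
    unfold part
    exact Finset.prod_ne_zero_iff.mpr (fun p hp => pow_ne_zero _ (hpr p hp).ne_zero)
  have hexpos : ∀ p ∈ Q, ex t p ≠ 0 := by
    intro p hp
    unfold ex
    rw [← Finsupp.mem_support_iff, Nat.support_factorization]
    exact hQ hp
  refine ⟨h0, ?_, ?_, ?_⟩
  · unfold part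
    exact primeFactors_prod_pow hpr hexpos
  · unfold part
    rw [comp_eq hI l]
    apply Finset.prod_dvd_prod_of_subset
    intro p hp
    exact Finset.mem_filter.mpr ⟨hQ hp, hQl p hp⟩
  · unfold part u
    have hH := ht_pos hI
    rw [← Finset.sum_div, div_mul_cancel₀ _ hH.ne']
    push_cast
    rw [Real.log_prod (fun p hp => by
      have : (0 : ℝ) < p := by exact_mod_cast (hpr p hp).pos
      positivity)]
    apply Finset.sum_congr rfl
    intro p _
    rw [Real.log_pow]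

/-- The condition of one class. -/
def Cls (K δ ρ v : ℝ) (n : ℕ) (H : ℝ) (l : Fin 3) (M : ℕ) (t : ℕ × ℕ) : Prop :=
  (K * Real.log n ≤ H ∧ 0 < M ∧ δ * H ≤ Real.log M ∧
    Real.log ((∏ p ∈ M.primeFactors, p : ℕ) : ℝ) ≤ ρ * Real.log n) ∧
  H ≤ ht t ∧ ht t ≤ 2 * H ∧ M ∣ comp t l ∧ tw t - wt t l ≤ 2 * v * Real.log n

theorem count_T3H (d ρ v η : ℝ) (hd : 0 < d) (hρ : 0 ≤ ρ) (hη : 0 < η) (hη1 : η ≤ 1) :
    ∃ K : ℝ, 1 ≤ K ∧ ∀ᶠ n : ℕ in atTop, ∀ T : Finset (ℕ × ℕ),
      (∀ t ∈ T, IsT t ∧ rd t ≤ n ∧ K * Real.log n ≤ ht t ∧ HasQ n d ρ v t) →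
      (T.card : ℝ) ≤ (n : ℝ) ^ (2 * ρ + v + η) := by
  classical
  set e : ℝ := η / 20 with he
  have he0 : 0 < e := by positivity
  have he1 : e ≤ 1 := by rw [he]; linarith
  obtain ⟨K1, hK1, hq⟩ := count_q (d / 2) e (by positivity) he0 he1
  obtain ⟨Km, hKm⟩ := exists_nat_ge (max 1 (2 / d))
  have hKm1 : 1 ≤ Km := by
    have : (1 : ℝ) ≤ Km := (le_max_left _ _).trans hKm
    exact_mod_cast this
  have hKm0 : (0 : ℝ) < Km := by exact_mod_cast hKm1
  have hKm2 : 1 / (Km : ℝ) ≤ d / 2 := by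
    have h1 : 2 / d ≤ Km := (le_max_right _ _).trans hKm
    rw [div_le_iff₀ hd] at h1
    rw [div_le_iff₀ hKm0]
    linarith
  obtain ⟨C, hC1, hC⟩ := Pabc11.cb_pow_card_le (BconD Km) (e / (ρ + 1)) (Pabc11.BconD_ge_one Km)
    (by positivity)
  refine ⟨2 * K1, by linarith, ?_⟩
  have hlog : Tendsto (fun n : ℕ => Real.log (n : ℝ)) atTop atTop :=
    Real.tendsto_log_atTop.comp tendsto_natCast_atTop_atTop
  have hlin : ∀ᶠ x : ℝ in atTop, 3 * C * (5 * x + 1) ≤ Real.exp (e * x) := by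
    have t1 : Tendsto (fun x : ℝ => e * x) atTop atTop := tendsto_id.const_mul_atTop he0
    have h1 : ∀ᶠ y : ℝ in atTop, (3 * C * (5 / e) + 3 * C) * y ≤ Real.exp y := by
      have h2 := (Real.tendsto_exp_div_pow_atTop 1).eventually_ge_atTop (3 * C * (5 / e) + 3 * C)
      filter_upwards [h2, eventually_gt_atTop 0] with y hy hy0
      rw [pow_one, le_div_iff₀ hy0] at hy
      exact hy
    filter_upwards [t1.eventually h1, eventually_ge_atTop 1, t1.eventually_ge_atTop 1] with x hx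
      hx1 hx2
    refine le_trans ?_ hx
    have e1 : (3 * C * (5 / e) + 3 * C) * (e * x) = 3 * C * (5 * x) + 3 * C * (e * x) := by
      field_simp
    rw [e1]
    have e2 : 3 * C * 1 ≤ 3 * C * (e * x) := mul_le_mul_of_nonneg_left hx2 (by linarith)
    linarith
  filter_upwards [hq, Pabc11.height_three, hlog.eventually hlin, hlog.eventually_ge_atTop 1,
    eventually_ge_atTop 1] with n g1 g2 g3 hx1 hn1 T hT
  set x := Real.log (n : ℝ) with hx
  have hx0 : 0 < x := by linarith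
  have hn0 : (0 : ℝ) < n := by exact_mod_cast hn1
  have hn1' : (1 : ℝ) ≤ n := by exact_mod_cast hn1
  -- the data of a triple
  have hdat : ∀ t, ∃ (l : Fin 3) (Q : Finset ℕ), t ∈ T → (Q ⊆ (N t).primeFactors ∧
      (∀ p ∈ Q, lab t p = l) ∧ ((∏ p ∈ Q, p : ℕ) : ℝ) ≤ (n : ℝ) ^ ρ ∧ d ≤ ∑ p ∈ Q, u t p ∧
      tw t - wt t l ≤ 2 * v * x) := by
    intro t
    by_cases ht' : t ∈ T
    · obtain ⟨l, Q, h1, h2, h3, h4, h5⟩ := (hT t ht').2.2.2
      exact ⟨l, Q, fun _ => ⟨h1, h2, h3, h4, h5⟩⟩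
    · exact ⟨0, ∅, fun h => absurd h ht'⟩
  choose L Q hLQ using hdat
  set SS := T.image Q with hSS
  set J := ⌊5 * x⌋₊ + 1 with hJ
  -- the moduli
  have hMM : ∀ (j : ℕ) (S : Finset ℕ), ∃ MM : Finset ℕ, S ∈ SS →
      ((MM.card : ℝ) ≤ BconD Km ^ S.card ∧ (∀ M ∈ MM, 0 < M ∧ M.primeFactors ⊆ S) ∧
      ∀ D : ℕ, D ≠ 0 → D.primeFactors = S → Real.log D ≤ 3 * (2 : ℝ) ^ j →
        ∃ M ∈ MM, M ∣ D ∧ Real.log D - (2 : ℝ) ^ j / Km ≤ Real.log M) := by
    intro j S
    by_cases hS : S ∈ SS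
    · obtain ⟨t, ht', rfl⟩ := Finset.mem_image.mp hS
      obtain ⟨MM, h1, h2, h3⟩ := Pabc11.exists_moduli Km hKm1 ((2 : ℝ) ^ j) (by positivity) (Q t)
        (fun p hp => Nat.prime_of_mem_primeFactors ((hLQ t ht').1 hp))
      exact ⟨MM, fun _ => ⟨h1, h2, h3⟩⟩
    · exact ⟨∅, fun h => absurd h hS⟩
  choose MM hMMs using hMM
  have hSSp : ∀ S ∈ SS, (∀ p ∈ S, p.Prime) ∧ (∏ p ∈ S, (p : ℝ)) ≤ (n : ℝ) ^ ρ := by
    intro S hS
    obtain ⟨t, ht', rfl⟩ := Finset.mem_image.mp hS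
    obtain ⟨h1, h2, h3, h4, h5⟩ := hLQ t ht'
    refine ⟨fun p hp => Nat.prime_of_mem_primeFactors (h1 hp), ?_⟩
    rw [← Nat.cast_prod]
    exact h3
  have hSScard : (SS.card : ℝ) ≤ (n : ℝ) ^ ρ := Pabc11.cb_card_sets (by positivity) SS hSSp
  -- the classes
  have hcls : ∀ (j : ℕ) (l : Fin 3) (M : ℕ),
      ((T.filter (fun t => Cls K1 (d / 2) ρ v n ((2 : ℝ) ^ j) l M t)).card : ℝ) ≤
        Real.exp ((v + ρ + 15 * e) * x) := by
    intro j l M
    by_cases hM : K1 * Real.log n ≤ (2 : ℝ) ^ j ∧ 0 < M ∧ d / 2 * (2 : ℝ) ^ j ≤ Real.log M ∧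
        Real.log ((∏ p ∈ M.primeFactors, p : ℕ) : ℝ) ≤ ρ * Real.log n
    · apply g1 ((2 : ℝ) ^ j) ρ v M l _ hM.1 hρ hM.2.1 hM.2.2.1 hM.2.2.2
      intro t ht'
      rw [Finset.mem_filter] at ht'
      obtain ⟨h1, h2, h3, h4⟩ := hT t ht'.1
      obtain ⟨-, h5, h6, h7, h8⟩ := ht'.2
      exact ⟨h1, h2, h5, h6, h7, h8⟩
    · have : T.filter (fun t => Cls K1 (d / 2) ρ v n ((2 : ℝ) ^ j) l M t) = ∅ := by
        rw [Finset.filter_eq_empty_iff]
        intro t _ h
        exact hM h.1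
      rw [this, Finset.card_empty, Nat.cast_zero]
      exact (Real.exp_pos _).le
  have hcov : T ⊆ (range J ×ˢ (Finset.univ : Finset (Fin 3)) ×ˢ SS).biUnion (fun z =>
      (MM z.1 z.2.2).biUnion (fun M =>
        T.filter (fun t => Cls K1 (d / 2) ρ v n ((2 : ℝ) ^ z.1) z.2.1 M t))) := by
    intro t ht'
    obtain ⟨hI, hrd, hht, -⟩ := hT t ht'
    obtain ⟨h1, h2, h3, h4, h5⟩ := hLQ t ht'
    have hHt : 1 ≤ ht t := by nlinarith
    -- the dyadic height
    set m := ⌊ht t⌋₊ with hm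
    have hm1 : 1 ≤ m := Nat.le_floor (by exact_mod_cast hHt)
    set j := Nat.log 2 m with hj
    have hj1 : (2 : ℝ) ^ j ≤ ht t := by
      have e1 : 2 ^ j ≤ m := Nat.pow_log_le_self 2 (by omega)
      have e2 : ((2 ^ j : ℕ) : ℝ) ≤ m := by exact_mod_cast e1
      push_cast at e2
      exact e2.trans (Nat.floor_le (by linarith))
    have hj2 : ht t ≤ 2 * (2 : ℝ) ^ j := by
      have e1 : m < 2 ^ (j + 1) := Nat.lt_pow_succ_log_self (by norm_num) m
      have e2 : ((m + 1 : ℕ) : ℝ) ≤ ((2 ^ (j + 1) : ℕ) : ℝ) := by exact_mod_cast e1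
      push_cast at e2
      have e3 : ht t < m + 1 := Nat.lt_floor_add_one _
      rw [pow_succ] at e2
      linarith
    have hjJ : j < J := by
      rw [hJ, Nat.lt_succ_iff]
      apply Nat.le_floor
      have e1 := g2 t hI hrd
      have e2 : (j : ℝ) * Real.log 2 ≤ 3 * x := by
        have e3 : Real.log ((2 : ℝ) ^ j) ≤ Real.log ((n : ℝ) ^ 3) :=
          Real.log_le_log (by positivity) (hj1.trans e1)
        rw [Real.log_pow, Real.log_pow] at e3
        exact_mod_cast e3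
      have e4 : (0.6931471803 : ℝ) < Real.log 2 := Real.log_two_gt_d9
      have e5 : (j : ℝ) * (3 / 5) ≤ j * Real.log 2 :=
        mul_le_mul_of_nonneg_left (by linarith) (Nat.cast_nonneg _)
      linarith
    have hS : Q t ∈ SS := Finset.mem_image_of_mem _ ht'
    obtain ⟨p1, p2, p3, p4⟩ := part_facts hI h1 h2
    obtain ⟨c1, c2, c3⟩ := hMMs j (Q t) hS
    have hpl : Real.log (part t (Q t)) ≤ 3 * (2 : ℝ) ^ j := by
      have e1 : Real.log (part t (Q t)) ≤ Real.log (comp t (L t)) := by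
        apply Real.log_le_log
        · exact_mod_cast Nat.pos_of_ne_zero p1
        · exact_mod_cast Nat.le_of_dvd (comp_pos hI _) p3
      have e2 := log_comp_le hI (L t)
      have e3 : (0 : ℝ) < 2 ^ j := by positivity
      linarith
    obtain ⟨M, hM, hMd, hMl⟩ := c3 _ p1 p2 hpl
    rw [Finset.mem_biUnion]
    refine ⟨(j, L t, Q t), ?_, ?_⟩
    · rw [Finset.mem_product, Finset.mem_product]
      exact ⟨Finset.mem_range.mpr hjJ, Finset.mem_univ _, hS⟩
    · rw [Finset.mem_biUnion]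
      refine ⟨M, hM, Finset.mem_filter.mpr ⟨ht', ⟨?_, (c2 M hM).1, ?_, ?_⟩, hj1, hj2,
        hMd.trans p3, h5⟩⟩
      · simp only
        have : 2 * K1 * x ≤ ht t := hht
        linarith
      · simp only
        have e1 : d * (2 : ℝ) ^ j ≤ Real.log (part t (Q t)) := by
          rw [p4]
          exact mul_le_mul h4 hj1 (by positivity) (by linarith)
        have e2 : (2 : ℝ) ^ j / Km ≤ d / 2 * (2 : ℝ) ^ j := by
          calc (2 : ℝ) ^ j / Km = 1 / Km * 2 ^ j := by ring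
            _ ≤ d / 2 * (2 : ℝ) ^ j := mul_le_mul_of_nonneg_right hKm2 (by positivity)
        linarith
      · have e1 : (∏ p ∈ M.primeFactors, p) ≤ ∏ p ∈ Q t, p := by
          apply Finset.prod_le_prod_of_subset_of_one_le' (c2 M hM).2
          intro p hp _
          exact (Nat.prime_of_mem_primeFactors (h1 hp)).one_lt.le
        have e2 : ((∏ p ∈ M.primeFactors, p : ℕ) : ℝ) ≤ (n : ℝ) ^ ρ :=
          le_trans (by exact_mod_cast e1) h3
        have e3 : (0 : ℝ) < ((∏ p ∈ M.primeFactors, p : ℕ) : ℝ) := by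
          exact_mod_cast Finset.prod_pos (fun p hp => (Nat.prime_of_mem_primeFactors hp).pos)
        rw [← Real.log_rpow hn0]
        exact Real.log_le_log e3 e2
  have hMMcard : ∀ j, ∀ S ∈ SS, ((MM j S).card : ℝ) ≤ C * Real.exp (e * x) := by
    intro j S hS
    refine (hMMs j S hS).1.trans ?_
    refine (hC S (fun p hp => ((hSSp S hS).1 p hp).two_le)).trans ?_
    apply mul_le_mul_of_nonneg_left _ (by linarith)
    have h1 : (0 : ℝ) ≤ ∏ p ∈ S, (p : ℝ) := Finset.prod_nonneg (fun p _ => Nat.cast_nonneg p)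
    calc (∏ p ∈ S, (p : ℝ)) ^ (e / (ρ + 1)) ≤ ((n : ℝ) ^ ρ) ^ (e / (ρ + 1)) :=
          Real.rpow_le_rpow h1 (hSSp S hS).2 (by positivity)
      _ = Real.exp (x * (ρ * (e / (ρ + 1)))) := by
          rw [← Real.rpow_mul hn0.le, Real.rpow_def_of_pos hn0]
      _ ≤ Real.exp (e * x) := by
          rw [Real.exp_le_exp]
          have h2 : ρ * (e / (ρ + 1)) ≤ e := by
            rw [mul_div_assoc', div_le_iff₀ (by linarith)]
            nlinarith
          have := mul_le_mul_of_nonneg_left h2 hx0.le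
          linarith
  have hB := Real.exp_pos ((v + ρ + 15 * e) * x)
  have hJ1 : (J : ℝ) ≤ 5 * x + 1 := by
    rw [hJ]
    push_cast
    have := Nat.floor_le (show 0 ≤ 5 * x by positivity)
    linarith
  calc (T.card : ℝ) ≤ ∑ z ∈ range J ×ˢ (Finset.univ : Finset (Fin 3)) ×ˢ SS,
        ∑ M ∈ MM z.1 z.2.2,
          ((T.filter (fun t => Cls K1 (d / 2) ρ v n ((2 : ℝ) ^ z.1) z.2.1 M t)).card : ℝ) := by
        have h1 := (Finset.card_le_card hcov).trans Finset.card_biUnion_le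
        have h2 := h1.trans (Finset.sum_le_sum (fun z _ => Finset.card_biUnion_le))
        exact_mod_cast h2
    _ ≤ ∑ z ∈ range J ×ˢ (Finset.univ : Finset (Fin 3)) ×ˢ SS,
          C * Real.exp (e * x) * Real.exp ((v + ρ + 15 * e) * x) := by
        apply Finset.sum_le_sum
        intro z hz
        rw [Finset.mem_product, Finset.mem_product] at hz
        calc ∑ M ∈ MM z.1 z.2.2,
              ((T.filter (fun t => Cls K1 (d / 2) ρ v n ((2 : ℝ) ^ z.1) z.2.1 M t)).card : ℝ)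
            ≤ ∑ _M ∈ MM z.1 z.2.2, Real.exp ((v + ρ + 15 * e) * x) :=
              Finset.sum_le_sum (fun M _ => hcls _ _ _)
          _ = ((MM z.1 z.2.2).card : ℝ) * Real.exp ((v + ρ + 15 * e) * x) := by
              rw [Finset.sum_const, nsmul_eq_mul]
          _ ≤ _ := mul_le_mul_of_nonneg_right (hMMcard _ _ hz.2.2) hB.le
    _ = (J * (3 * SS.card)) * (C * Real.exp (e * x) * Real.exp ((v + ρ + 15 * e) * x)) := by
        rw [Finset.sum_const, nsmul_eq_mul, Finset.card_product, Finset.card_product,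
          Finset.card_range, Finset.card_univ, Fintype.card_fin]
        push_cast
        ring
    _ ≤ ((5 * x + 1) * (3 * (n : ℝ) ^ ρ)) *
          (C * Real.exp (e * x) * Real.exp ((v + ρ + 15 * e) * x)) := by
        apply mul_le_mul_of_nonneg_right _ (by positivity)
        apply mul_le_mul hJ1 _ (by positivity) (by positivity)
        linarith
    _ = (3 * C * (5 * x + 1)) * ((n : ℝ) ^ ρ * (Real.exp (e * x) *
          Real.exp ((v + ρ + 15 * e) * x))) := by ring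
    _ ≤ Real.exp (e * x) * ((n : ℝ) ^ ρ * (Real.exp (e * x) *
          Real.exp ((v + ρ + 15 * e) * x))) := mul_le_mul_of_nonneg_right g3 (by positivity)
    _ = Real.exp (x * (2 * ρ + v + 17 * e)) := by
        rw [Real.rpow_def_of_pos hn0, ← hx, ← Real.exp_add, ← Real.exp_add, ← Real.exp_add]
        congr 1
        ring
    _ ≤ (n : ℝ) ^ (2 * ρ + v + η) := by
        rw [Real.rpow_def_of_pos hn0, Real.exp_le_exp]
        apply mul_le_mul_of_nonneg_left _ hx0.le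
        rw [he]
        linarith

end Pool.Agent.Lib.Pabc14
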