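import Pool.Agent.Lib.Pabc14.TallCount
import Pool.Agent.Lib.AbcL.Ready

/-!
# The number of violators of any size
-/

open Finset Filter Topology

namespace Pool.Agent.Lib.Pabc14

open Pool.Agent.Lib.Pabc2 Pool.Agent.Lib.Pabc1 Pool.Agent.Lib.AbcL

/-- The triples of radical at most `n` and height at least `M0 log n`. -/
theorem tall_all (ε : ℝ) (hε : 0 < ε) :
    ∃ M0 : ℝ, 1 ≤ M0 ∧ ∀ᶠ n : ℕ in atTop, ∀ T : Finset (ℕ × ℕ),
      (∀ t ∈ T, IsT t ∧ rd t ≤ n ∧ M0 * Real.log n ≤ ht t) →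
      (T.card : ℝ) ≤ (n : ℝ) ^ (1 / 3 + ε) :=
  tall_count (rootK 3 (by norm_num)) (rootInf 3 (by norm_num)) ε hε

/-- The range `(99/100) log n ≤ log c ≤ K log n`. -/
theorem low_count (K : ℝ) (hK : 1 ≤ K) : ∀ᶠ n : ℕ in atTop, ∀ T : Finset (ℕ × ℕ),
    (∀ t ∈ T, IsT t ∧ rd t ≤ n ∧ 99 / 100 * Real.log n ≤ ht t ∧ ht t ≤ K * Real.log n) →
    (T.card : ℝ) ≤ (n : ℝ) ^ (3 / 5 : ℝ) := by
  classical
  obtain ⟨Y0, hY0⟩ := Pabcv.triples_card_le K hK
  have hlim2 : Tendsto (fun n : ℕ => (n : ℝ)) atTop atTop := tendsto_natCast_atTop_atTop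
  filter_upwards [hlim2.eventually (eventually_ge_atTop Y0), eventually_ge_atTop 1]
    with n h1 hn1 T hT
  have hn0 : (0 : ℝ) < n := by exact_mod_cast hn1
  have hle := hY0 n h1
  refine le_trans ?_ hle
  have hinj : Function.Injective (fun t : ℕ × ℕ => (t.1, t.2, t.1 + t.2)) := by
    rintro ⟨a, b⟩ ⟨a', b'⟩ h
    simp only [Prod.mk.injEq] at h
    rw [h.1, h.2.1]
  have hfin : {t : ℕ × ℕ × ℕ | Pabcv.AbcTriple t.1 t.2.1 t.2.2 ∧
      (Pabcv.rad (t.1 * t.2.1 * t.2.2) : ℝ) ≤ n ∧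
      (n : ℝ) ^ (99 / 100 : ℝ) ≤ t.2.2 ∧ (t.2.2 : ℝ) ≤ (n : ℝ) ^ K}.Finite :=
    (Pabcv.finite_abc_le ((n : ℝ) ^ K)).subset (fun t ht' => ⟨ht'.1, ht'.2.2.2⟩)
  have hsub : ((T.image (fun t : ℕ × ℕ => (t.1, t.2, t.1 + t.2)) : Finset (ℕ × ℕ × ℕ)) :
      Set (ℕ × ℕ × ℕ)) ⊆ {t : ℕ × ℕ × ℕ | Pabcv.AbcTriple t.1 t.2.1 t.2.2 ∧
      (Pabcv.rad (t.1 * t.2.1 * t.2.2) : ℝ) ≤ n ∧
      (n : ℝ) ^ (99 / 100 : ℝ) ≤ t.2.2 ∧ (t.2.2 : ℝ) ≤ (n : ℝ) ^ K} := by
    intro v hv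
    rw [Finset.mem_coe, Finset.mem_image] at hv
    obtain ⟨t, ht', rfl⟩ := hv
    obtain ⟨hI, hrd, hh1, hh2⟩ := hT t ht'
    refine ⟨abc_of hI, ?_, ?_, ?_⟩
    · have : Pabcv.rad (t.1 * t.2 * (t.1 + t.2)) = rd t := rfl
      simp only
      rw [this]
      exact_mod_cast hrd
    · simp only
      rw [← exp_ht hI, Real.rpow_def_of_pos hn0, Real.exp_le_exp]
      linarith
    · simp only
      rw [← exp_ht hI, Real.rpow_def_of_pos hn0, Real.exp_le_exp]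
      linarith
  have h2 := Set.ncard_le_ncard hsub hfin
  rw [Set.ncard_coe_finset, Finset.card_image_of_injective _ hinj] at h2
  exact_mod_cast h2

/-- All triples with `c ≥ n ^ (99/100)`: no upper bound for the height. -/
theorem mid_all (ε : ℝ) (hε : 0 < ε) : ∀ᶠ n : ℕ in atTop, ∀ T : Finset (ℕ × ℕ),
    (∀ t ∈ T, IsT t ∧ rd t ≤ n ∧ 99 / 100 * Real.log n ≤ ht t) →
    (T.card : ℝ) ≤ (n : ℝ) ^ (3 / 5 + ε) := by
  classical
  obtain ⟨K, hK, h1⟩ := tall_all (1 / 10) (by norm_num)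
  have hlim2 : Tendsto (fun n : ℕ => (n : ℝ)) atTop atTop := tendsto_natCast_atTop_atTop
  filter_upwards [h1, low_count K hK, ((tendsto_rpow_atTop hε).comp hlim2).eventually_ge_atTop 2,
    eventually_ge_atTop 1] with n g1 g2 g4 hn1 T hT
  simp only [Function.comp] at g4
  have hn0 : (0 : ℝ) < n := by exact_mod_cast hn1
  have hn1' : (1 : ℝ) ≤ n := by exact_mod_cast hn1
  have c1 := g1 (T.filter (fun t => K * Real.log n ≤ ht t)) (by
    intro t ht'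
    rw [Finset.mem_filter] at ht'
    obtain ⟨hI, hrd, hh⟩ := hT t ht'.1
    exact ⟨hI, hrd, ht'.2⟩)
  have c2 := g2 (T.filter (fun t => ¬ K * Real.log n ≤ ht t)) (by
    intro t ht'
    rw [Finset.mem_filter, not_le] at ht'
    obtain ⟨hI, hrd, hh⟩ := hT t ht'.1
    exact ⟨hI, hrd, hh, ht'.2.le⟩)
  have c3 : (T.card : ℝ) = (T.filter (fun t => K * Real.log n ≤ ht t)).card +
      (T.filter (fun t => ¬ K * Real.log n ≤ ht t)).card := by
    exact_mod_cast (Finset.card_filter_add_card_filter_not (s := T) _).symm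
  have e1 : (n : ℝ) ^ (1 / 3 + 1 / 10 : ℝ) ≤ (n : ℝ) ^ (3 / 5 : ℝ) :=
    Real.rpow_le_rpow_of_exponent_le hn1' (by norm_num)
  have e3 : (n : ℝ) ^ (3 / 5 + ε) = (n : ℝ) ^ ε * (n : ℝ) ^ (3 / 5 : ℝ) := by
    rw [← Real.rpow_add hn0]
    congr 1
    ring
  have e4 : 0 < (n : ℝ) ^ (3 / 5 : ℝ) := by positivity
  rw [e3]
  nlinarith

/-- A bound for the triples with `c ≥ n ^ m` gives a bound for the triples with
`c ≥ rad ^ M`, `M > m`. -/
theorem by_radical {α m M : ℝ} (hα : 0 < α) (hm : 0 < m) (hM : m < M)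
    (h : ∀ᶠ n : ℕ in atTop, ∀ T : Finset (ℕ × ℕ),
      (∀ t ∈ T, IsT t ∧ rd t ≤ n ∧ m * Real.log n ≤ ht t) → (T.card : ℝ) ≤ (n : ℝ) ^ α)
    (ε : ℝ) (hε : 0 < ε) : ∀ᶠ n : ℕ in atTop, ∀ T : Finset (ℕ × ℕ),
      (∀ t ∈ T, IsT t ∧ rd t ≤ n ∧ M * Real.log (rd t) ≤ ht t) →
      (T.card : ℝ) ≤ (n : ℝ) ^ (α + ε) := by
  refine dyadic hα (β := 1) one_pos all_le (fun _ t => M * Real.log (rd t) ≤ ht t)
    (fun k t => m * Real.log k ≤ ht t) h (by
      have hlim : Tendsto (fun n : ℕ => Real.log (n : ℝ)) atTop atTop :=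
        Real.tendsto_log_atTop.comp tendsto_natCast_atTop_atTop
      filter_upwards [hlim.eventually (eventually_ge_atTop (M * Real.log 2 / (M - m))),
        eventually_ge_atTop 1] with k hk hk1 n _ _ t hI _ hk2 hP
      have hk0 : (0 : ℝ) < k := by exact_mod_cast hk1
      have hr0 : (0 : ℝ) < rd t := by exact_mod_cast rd_pos t
      have h2 : Real.log k ≤ Real.log 2 + Real.log (rd t) := by
        rw [← Real.log_mul (by norm_num) hr0.ne']
        apply Real.log_le_log hk0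
        exact_mod_cast hk2
      rw [div_le_iff₀ (by linarith)] at hk
      have h3 : M * (Real.log k - Real.log 2) ≤ M * Real.log (rd t) :=
        mul_le_mul_of_nonneg_left (by linarith) (by linarith)
      linarith) ε hε

/-- Violators, moderate exponents. -/
theorem viol_mid (M : ℝ) (hM : 99 / 100 < M) (ε : ℝ) (hε : 0 < ε) :
    ∀ᶠ n : ℕ in atTop, ∀ T : Finset (ℕ × ℕ),
      (∀ t ∈ T, IsT t ∧ rd t ≤ n ∧ M * Real.log (rd t) ≤ ht t) →
      (T.card : ℝ) ≤ (n : ℝ) ^ (3 / 5 + ε) := by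
  have h := by_radical (α := 3 / 5 + ε / 2) (by positivity) (by norm_num) hM
    (mid_all (ε / 2) (by positivity)) (ε / 2) (by positivity)
  have e1 : 3 / 5 + ε / 2 + ε / 2 = 3 / 5 + ε := by ring
  rwa [e1] at h

/-- Violators, large exponents. -/
theorem viol_large (ε : ℝ) (hε : 0 < ε) : ∃ M0 : ℝ, 1 ≤ M0 ∧
    ∀ᶠ n : ℕ in atTop, ∀ T : Finset (ℕ × ℕ),
      (∀ t ∈ T, IsT t ∧ rd t ≤ n ∧ M0 * Real.log (rd t) ≤ ht t) →
      (T.card : ℝ) ≤ (n : ℝ) ^ (1 / 3 + ε) := by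
  obtain ⟨M, hM, h1⟩ := tall_all (ε / 2) (by positivity)
  refine ⟨M + 1, by linarith, ?_⟩
  have h := by_radical (α := 1 / 3 + ε / 2) (m := M) (M := M + 1) (by positivity) (by linarith)
    (by linarith) h1 (ε / 2) (by positivity)
  have e1 : 1 / 3 + ε / 2 + ε / 2 = 1 / 3 + ε := by ring
  rwa [e1] at h

/-- The exponent function. -/
theorem exists_exponent : ∃ f : ℝ → ℝ, (∀ M, 1 / 3 ≤ f M ∧ f M ≤ 3 / 5) ∧
    Tendsto f atTop (𝓝 (1 / 3)) ∧ ∀ M : ℝ, 99 / 100 < M → ∀ ε : ℝ, 0 < ε →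
      ∀ᶠ n : ℕ in atTop, ∀ T : Finset (ℕ × ℕ),
        (∀ t ∈ T, IsT t ∧ rd t ≤ n ∧ M * Real.log (rd t) ≤ ht t) →
        (T.card : ℝ) ≤ (n : ℝ) ^ (f M + ε) := by
  classical
  choose Mk hMk1 hMk using fun k : ℕ => viol_large (1 / ((k : ℝ) + 1)) (by positivity)
  set kk : ℝ → ℕ := fun M => Nat.findGreatest (fun k => Mk k ≤ M) ⌊M⌋₊ with hkk
  set f : ℝ → ℝ := fun M => min (3 / 5) (1 / 3 + 1 / ((kk M : ℝ) + 1)) with hf
  have hf3 : ∀ M, 1 / 3 ≤ f M := by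
    intro M
    simp only [hf]
    apply le_min (by norm_num)
    have : 0 < 1 / ((kk M : ℝ) + 1) := by positivity
    linarith
  refine ⟨f, fun M => ⟨hf3 M, min_le_left _ _⟩, ?_, ?_⟩
  · rw [Metric.tendsto_atTop]
    intro e he
    obtain ⟨k0, hk0⟩ := exists_nat_gt (1 / e)
    refine ⟨max (Mk k0) k0, fun M hM => ?_⟩
    have h1 : k0 ≤ kk M := by
      apply Nat.le_findGreatest
      · apply Nat.le_floor
        exact (le_max_right _ _).trans hM
      · exact (le_max_left _ _).trans hM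
    have h2 : f M ≤ 1 / 3 + 1 / ((k0 : ℝ) + 1) := by
      simp only [hf]
      refine (min_le_right _ _).trans ?_
      have h3 : (k0 : ℝ) ≤ kk M := by exact_mod_cast h1
      have h4 : 1 / ((kk M : ℝ) + 1) ≤ 1 / ((k0 : ℝ) + 1) :=
        one_div_le_one_div_of_le (by positivity) (by linarith)
      linarith
    have h3 : 1 / ((k0 : ℝ) + 1) < e := by
      rw [div_lt_iff₀ (by positivity)]
      rw [div_lt_iff₀ he] at hk0
      nlinarith
    rw [Real.dist_eq, abs_lt]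
    have := hf3 M
    constructor <;> linarith
  · intro M hM ε hε
    by_cases hk : kk M = 0
    · have e1 : f M = 3 / 5 := by
        simp only [hf, hk]
        norm_num
      rw [e1]
      exact viol_mid M hM ε hε
    · have h1 : Mk (kk M) ≤ M := Nat.findGreatest_of_ne_zero (P := fun k => Mk k ≤ M) rfl hk
      filter_upwards [viol_mid M hM ε hε, hMk (kk M), eventually_ge_atTop 1] with n g1 g2 hn1 T hT
      have hn1' : (1 : ℝ) ≤ n := by exact_mod_cast hn1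
      have g3 := g1 T hT
      have g4 := g2 T (fun t ht' => by
        obtain ⟨a1, a2, a3⟩ := hT t ht'
        refine ⟨a1, a2, le_trans ?_ a3⟩
        apply mul_le_mul_of_nonneg_right h1
        exact Real.log_natCast_nonneg _)
      have hfM : f M = min (3 / 5) (1 / 3 + 1 / ((kk M : ℝ) + 1)) := rfl
      rcases le_total (3 / 5 : ℝ) (1 / 3 + 1 / ((kk M : ℝ) + 1)) with h | h
      · rw [hfM, min_eq_left h]
        exact g3
      · rw [hfM, min_eq_right h]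
        refine g4.trans ?_
        exact Real.rpow_le_rpow_of_exponent_le hn1' (by linarith)

end Pool.Agent.Lib.Pabc14
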