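import Pool.Agent.Lib.Pabc14.Par

/-!
# Lemmas for the count with fixed attributes
-/

open Finset

namespace Pool.Agent.Lib.Pabc14

open Pool.Agent.Lib.Pabc2 Pool.Agent.Lib.Pabc1 Pool.Agent.Lib.Pabc8

theorem mass_ok (P : Par) {Kp : ℕ} {x H : ℝ} (hx : 0 < x) (hH : 0 < H)
    (hKp : 4 ≤ Real.exp (-(P.a1 : ℝ)) * (P.m0 * Kp)) {t : ℕ × ℕ} (hI : IsT t) {l : Fin 3}
    (htw : tw t ≤ x) (hht : ht t ≤ 2 * H) {e : ℕ → ℕ}
    (he : ∀ p ∈ tpr P (H / x) t l, (ex t p : ℝ) - e p ≤ ex t p / ((P.m0 * Kp : ℕ) : ℝ)) :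
    ∑ p ∈ oprimes t l \ tpr P (H / x) t l, (ex t p : ℝ) * Real.log p +
      ∑ p ∈ tpr P (H / x) t l, ((ex t p : ℝ) - e p) * Real.log p ≤
      2 * Real.exp (-(P.a1 : ℝ)) * H := by
  classical
  have hE := Real.exp_pos (-(P.a1 : ℝ))
  have h1 : ∑ p ∈ oprimes t l \ tpr P (H / x) t l, (ex t p : ℝ) * Real.log p ≤
      Real.exp (-(P.a1 : ℝ)) * H := by
    calc ∑ p ∈ oprimes t l \ tpr P (H / x) t l, (ex t p : ℝ) * Real.log p
        ≤ ∑ p ∈ oprimes t l \ tpr P (H / x) t l,
            (H / x * Real.exp (-(P.a1 : ℝ))) * Real.log p := by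
          apply Finset.sum_le_sum
          intro p hp
          rw [Finset.mem_sdiff] at hp
          apply mul_le_mul_of_nonneg_right _ (Real.log_natCast_nonneg p)
          by_contra hcon
          push Not at hcon
          exact hp.2 (Finset.mem_filter.mpr ⟨hp.1, hcon.le⟩)
      _ = (H / x * Real.exp (-(P.a1 : ℝ))) *
            ∑ p ∈ oprimes t l \ tpr P (H / x) t l, Real.log (p : ℝ) := by
          rw [Finset.mul_sum]
      _ ≤ (H / x * Real.exp (-(P.a1 : ℝ))) * x := by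
          apply mul_le_mul_of_nonneg_left _ (by positivity)
          have g1 : ∑ p ∈ oprimes t l \ tpr P (H / x) t l, Real.log (p : ℝ) ≤
              ∑ p ∈ oprimes t l, Real.log (p : ℝ) :=
            Finset.sum_le_sum_of_subset_of_nonneg Finset.sdiff_subset
              (fun p _ _ => Real.log_natCast_nonneg p)
          have g2 := oprimes_weight t l
          have g3 := wt_nonneg t l
          linarith
      _ = Real.exp (-(P.a1 : ℝ)) * H := by field_simp
  have hK0 : (0 : ℝ) < ((P.m0 * Kp : ℕ) : ℝ) := by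
    push_cast
    by_contra hcon
    push Not at hcon
    nlinarith
  have h2 : ∑ p ∈ tpr P (H / x) t l, ((ex t p : ℝ) - e p) * Real.log p ≤
      Real.exp (-(P.a1 : ℝ)) * H := by
    calc ∑ p ∈ tpr P (H / x) t l, ((ex t p : ℝ) - e p) * Real.log p
        ≤ ∑ p ∈ tpr P (H / x) t l, ((ex t p : ℝ) / ((P.m0 * Kp : ℕ) : ℝ)) * Real.log p :=
          Finset.sum_le_sum (fun p hp =>
            mul_le_mul_of_nonneg_right (he p hp) (Real.log_natCast_nonneg p))
      _ = (∑ p ∈ tpr P (H / x) t l, (ex t p : ℝ) * Real.log p) / ((P.m0 * Kp : ℕ) : ℝ) := by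
          rw [Finset.sum_div]
          apply Finset.sum_congr rfl
          intro p _
          ring
      _ ≤ (4 * H) / ((P.m0 * Kp : ℕ) : ℝ) := by
          apply div_le_div_of_nonneg_right _ hK0.le
          have g1 : ∑ p ∈ tpr P (H / x) t l, (ex t p : ℝ) * Real.log p ≤
              ∑ p ∈ oprimes t l, (ex t p : ℝ) * Real.log p :=
            Finset.sum_le_sum_of_subset_of_nonneg (tpr_subset _ _ _ _)
              (fun p _ _ => mul_nonneg (Nat.cast_nonneg _) (Real.log_natCast_nonneg p))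
          have g2 := oprimes_mass hI l
          linarith
      _ ≤ Real.exp (-(P.a1 : ℝ)) * H := by
          rw [div_le_iff₀ hK0]
          push_cast
          have := mul_le_mul_of_nonneg_right hKp hH.le
          linarith
  linarith

/-- The relative width of the exponents in a group. -/
noncomputable def kap (P : Par) (u : Fin (P.w + 1) × Bool) : ℝ :=
  if u.2 = true then 3 / P.m0 else 4 * (P.a2 + P.a3) / P.w + 1 / P.m0

/-- The smallest exponent of a group. -/
noncomputable def rr (P : Par) (Kp : ℕ) (h : ℝ) (im : Fin (P.w + 1) × Bool → ℕ)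
    (u : Fin (P.w + 1) × Bool) : ℕ :=
  e0 (P.m0 * Kp) P.a1 h (P.m0 * Kp * (P.a1 - P.a2) + Kp * im u)

theorem rr_low {P : Par} {δ η : ℝ} (hP : P.Good δ η) {Kp : ℕ} (hKp : 0 < Kp) {h : ℝ} (hh : 0 ≤ h)
    (im : Fin (P.w + 1) × Bool → ℕ) (u : Fin (P.w + 1) × Bool) :
    h * Real.exp (-(P.a2 : ℝ)) ≤ rr P Kp h im u := by
  refine le_trans ?_ (le_e0 _)
  apply mul_le_mul_of_nonneg_left _ hh
  rw [Real.exp_le_exp]
  have hm : (0 : ℝ) < P.m0 := by exact_mod_cast hP.hm
  have hk : (0 : ℝ) < Kp := by exact_mod_cast hKp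
  have h1 : ((P.a1 : ℝ) - P.a2) ≤
      ((P.m0 * Kp * (P.a1 - P.a2) + Kp * im u : ℕ) : ℝ) / ((P.m0 * Kp : ℕ) : ℝ) := by
    rw [le_div_iff₀ (by push_cast; positivity)]
    push_cast [Nat.cast_sub hP.ha]
    have : (0 : ℝ) ≤ Kp * im u := by positivity
    nlinarith
  linarith

theorem rr_upper {P : Par} {δ η : ℝ} (hP : P.Good δ η) {Kp : ℕ} (hKp : 0 < Kp) {h : ℝ}
    (hh : 1 ≤ h) (im : Fin (P.w + 1) × Bool → ℕ) (u : Fin (P.w + 1) × Bool)
    (him : im u ≤ P.m0 * (P.a2 + P.a3)) :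
    (rr P Kp h im u : ℝ) ≤ 2 * h * Real.exp P.a3 := by
  refine (e0_upper (by linarith) _).trans ?_
  have hm : (0 : ℝ) < P.m0 := by exact_mod_cast hP.hm
  have hk : (0 : ℝ) < Kp := by exact_mod_cast hKp
  have him' : (im u : ℝ) ≤ P.m0 * (P.a2 + P.a3) := by exact_mod_cast him
  have h1 : ((P.m0 * Kp * (P.a1 - P.a2) + Kp * im u : ℕ) : ℝ) / ((P.m0 * Kp : ℕ) : ℝ) ≤
      (P.a1 : ℝ) + P.a3 := by
    rw [div_le_iff₀ (by push_cast; positivity)]
    push_cast [Nat.cast_sub hP.ha]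
    have := mul_le_mul_of_nonneg_left him' hk.le
    nlinarith
  have h2 : Real.exp (((P.m0 * Kp * (P.a1 - P.a2) + Kp * im u : ℕ) : ℝ) /
      ((P.m0 * Kp : ℕ) : ℝ) - P.a1) ≤ Real.exp P.a3 := by
    rw [Real.exp_le_exp]
    linarith
  have h3 : (1 : ℝ) ≤ Real.exp P.a3 := Real.one_le_exp (Nat.cast_nonneg _)
  have h4 : h * Real.exp (((P.m0 * Kp * (P.a1 - P.a2) + Kp * im u : ℕ) : ℝ) /
      ((P.m0 * Kp : ℕ) : ℝ) - P.a1) ≤ h * Real.exp P.a3 :=
    mul_le_mul_of_nonneg_left h2 (by linarith)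
  nlinarith

theorem exps_ok {P : Par} {δ η : ℝ} (hP : P.Good δ η) (hη1 : η ≤ 1) {Kp : ℕ} (hKp : 0 < Kp)
    {h : ℝ} (hh : P.m0 * Real.exp P.a2 ≤ h) (σ : ℕ → Fin (P.w + 1) × Bool) (ω : ℕ → Bool × ℕ)
    (hσ1 : ∀ i < P.m0 * (P.a2 + P.a3), ∀ j < P.m0 * (P.a2 + P.a3), σ i = σ j →
      (σ i).2 = true → i = j)
    (hσ2 : ∀ i < P.m0 * (P.a2 + P.a3), ∀ j < P.m0 * (P.a2 + P.a3), σ i = σ j →
      (σ i).2 = false → (P.w : ℝ) * ((j : ℝ) - i + 1) ≤ 2 * (P.m0 * (P.a2 + P.a3)))
    (im : Fin (P.w + 1) × Bool → ℕ)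
    (him : ∀ u, im u ≤ P.m0 * (P.a2 + P.a3) ∧ ∀ i < P.m0 * (P.a2 + P.a3), σ i = u →
      im u ≤ i ∧ im u < P.m0 * (P.a2 + P.a3) ∧ σ (im u) = u)
    (b : Bool) (u : Fin (P.w + 1) × Bool) (p : ℕ) (hp : slt P Kp σ ω p = (b, some u)) :
    rr P Kp h im u ≤ e0 (P.m0 * Kp) P.a1 h (ω p).2 ∧
      (e0 (P.m0 * Kp) P.a1 h (ω p).2 : ℝ) ≤ (1 + kap P u) * rr P Kp h im u := by
  have hm : (1 : ℝ) ≤ P.m0 := by exact_mod_cast hP.hm
  have hm0 : (0 : ℝ) < P.m0 := by linarith
  have hk : (0 : ℝ) < Kp := by exact_mod_cast hKp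
  have hw0 : (0 : ℝ) < P.w := by
    have := hP.hw
    exact_mod_cast (by omega : 0 < P.w)
  have hh0 : 0 < h := lt_of_lt_of_le (by positivity) hh
  set K := P.m0 * Kp with hK
  have hK0 : 0 < K := Nat.mul_pos hP.hm hKp
  set f := (ω p).2 with hf
  unfold slt at hp
  rw [← hK, ← hf] at hp
  have hp2 := congrArg Prod.snd hp
  simp only at hp2
  split_ifs at hp2 with hc
  · rw [Option.some_inj] at hp2
    set i := (f - K * (P.a1 - P.a2)) / Kp with hi
    have hiI : i < P.m0 * (P.a2 + P.a3) := by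
      rw [hi]
      apply Nat.div_lt_of_lt_mul
      have e1 : K * (P.a1 - P.a2) + Kp * (P.m0 * (P.a2 + P.a3)) = K * (P.a1 + P.a3) := by
        have e2 : P.a1 = (P.a1 - P.a2) + P.a2 := by
          have := hP.ha
          omega
        rw [hK]
        conv_rhs => rw [e2]
        ring
      have := hc.2
      omega
    obtain ⟨h1, h2, h3⟩ := (him u).2 i hiI hp2
    have hlow : K * (P.a1 - P.a2) + Kp * i ≤ f := by
      have := Nat.mul_div_le (f - K * (P.a1 - P.a2)) Kp
      rw [← hi] at this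
      have := hc.1
      omega
    have hup : f < K * (P.a1 - P.a2) + Kp * (i + 1) := by
      have := Nat.lt_mul_div_succ (f - K * (P.a1 - P.a2)) hKp
      rw [← hi] at this
      have := hc.1
      omega
    refine ⟨?_, ?_⟩
    · unfold rr
      rw [← hK]
      apply e0_mono hh0.le
      have := Nat.mul_le_mul_left Kp h1
      omega
    · set g := K * (P.a1 - P.a2) + Kp * im u with hg
      have hrr : rr P Kp h im u = e0 K P.a1 h g := rfl
      have hb := e0_le (K := K) (a := P.a1) (h := h) hK0 hh0 (f := f) (g := g)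
      have hr1 : (P.m0 : ℝ) ≤ rr P Kp h im u := by
        refine le_trans ?_ (rr_low hP hKp hh0.le im u)
        have h4 := mul_le_mul_of_nonneg_right hh (Real.exp_pos (-(P.a2 : ℝ))).le
        rw [mul_assoc, ← Real.exp_add, add_neg_cancel, Real.exp_zero, mul_one] at h4
        exact h4
      have hr0 : (0 : ℝ) < rr P Kp h im u := by linarith
      have hone : 1 ≤ 1 / (P.m0 : ℝ) * rr P Kp h im u := by
        rw [one_div, inv_mul_eq_div, le_div_iff₀ hm0]
        linarith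
      have hfg : ((f : ℝ) - g) / (K : ℝ) ≤ ((i : ℝ) - im u + 1) / P.m0 := by
        rw [div_le_div_iff₀ (by exact_mod_cast hK0) hm0]
        have e1 : (f : ℝ) ≤ (K * (P.a1 - P.a2) + Kp * (i + 1) : ℕ) := by
          exact_mod_cast hup.le
        have e2 : (g : ℝ) = ((K * (P.a1 - P.a2) : ℕ) : ℝ) + Kp * im u := by
          rw [hg]
          push_cast
          ring
        have e3 : ((K * (P.a1 - P.a2) + Kp * (i + 1) : ℕ) : ℝ) =
            ((K * (P.a1 - P.a2) : ℕ) : ℝ) + Kp * (i + 1) := by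
          push_cast
          ring
        have e4 : (f : ℝ) - g ≤ Kp * ((i : ℝ) - im u + 1) := by
          rw [e2]
          rw [e3] at e1
          linarith
        have e5 : (K : ℝ) = P.m0 * Kp := by rw [hK]; push_cast; ring
        rw [e5]
        have := mul_le_mul_of_nonneg_right e4 hm0.le
        linarith
      rw [hrr] at hone hr0 ⊢
      have fin : ∀ z κ' : ℝ, ((i : ℝ) - im u + 1) / P.m0 ≤ z → 0 ≤ z → z ≤ 1 →
          2 * z + 1 / P.m0 ≤ κ' → (e0 K P.a1 h f : ℝ) ≤ (1 + κ') * e0 K P.a1 h g := by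
        intro z κ' g1 g2 g3 g4
        have g5 : Real.exp (((f : ℝ) - g) / (K : ℝ)) ≤ 1 + 2 * z :=
          (Real.exp_le_exp.mpr (hfg.trans g1)).trans (exp_le_two g2 g3)
        have g6 := mul_le_mul_of_nonneg_right g5 hr0.le
        have g7 := mul_le_mul_of_nonneg_right g4 hr0.le
        linarith
      rcases Bool.eq_false_or_eq_true u.2 with hu | hu
      · -- a single index
        have hii : im u = i := hσ1 _ h2 _ hiI (h3.trans hp2.symm) (by rw [h3]; exact hu)
        have hk1 : kap P u = 3 / P.m0 := by unfold kap; rw [if_pos hu]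
        rw [hk1]
        apply fin (1 / P.m0) _ _ (by positivity)
        · rw [div_le_one hm0]; exact hm
        · apply le_of_eq
          ring
        · rw [hii]
          apply le_of_eq
          ring
      · have hii := hσ2 _ h2 _ hiI (h3.trans hp2.symm) (by rw [h3]; exact hu)
        have hk1 : kap P u = 4 * (P.a2 + P.a3) / P.w + 1 / P.m0 := by
          unfold kap
          rw [if_neg (by rw [hu]; decide)]
        rw [hk1]
        apply fin (2 * (P.a2 + P.a3) / P.w) _ _ (by positivity)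
        · have h4 := hP.c4
          have h5 : 0 < 3 / (P.m0 : ℝ) := by positivity
          have h6 : 4 * ((P.a2 : ℝ) + P.a3) / P.w = 2 * (2 * (P.a2 + P.a3) / P.w) := by ring
          have h7 : 0 ≤ 2 * ((P.a2 : ℝ) + P.a3) / P.w := by positivity
          linarith
        · apply le_of_eq
          ring
        · rw [div_le_div_iff₀ hm0 hw0]
          linarith

end Pool.Agent.Lib.Pabc14
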