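import Mathlib

/-!
# The completely multiplicative function `p ↦ p ^ e p`

`Ex_split`: at a prime `p` of `z`: `e p * v = r * v + (e p - r) * v`. `log_Ex_le`:
`log (Ex e z) = ∑ p, e p * v_p(z) * log p ≤ B * ∑ p, v_p(z) * log p = B * log z`.
-/

open Finset

namespace Pool.Agent.Lib.Pabc14

/-- The completely multiplicative function with value `p ^ e p` at `p`. -/
def Ex (e : ℕ → ℕ) (z : ℕ) : ℕ := ∏ p ∈ z.primeFactors, p ^ (e p * z.factorization p)

theorem Ex_pos (e : ℕ → ℕ) (z : ℕ) : 0 < Ex e z :=
  Finset.prod_pos fun _ hp => pow_pos (Nat.prime_of_mem_primeFactors hp).pos _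

theorem Ex_one (e : ℕ → ℕ) : Ex e 1 = 1 := by
  simp [Ex]

private theorem Ex_eq_of_subset (e : ℕ → ℕ) {z : ℕ} {S : Finset ℕ} (h : z.primeFactors ⊆ S) :
    Ex e z = ∏ p ∈ S, p ^ (e p * z.factorization p) := by
  apply Finset.prod_subset h
  intro p _ hp
  have h0 : z.factorization p = 0 := by
    rw [← Finsupp.notMem_support_iff, Nat.support_factorization]
    exact hp
  rw [h0, mul_zero, pow_zero]

theorem Ex_mul (e : ℕ → ℕ) {z w : ℕ} (hz : z ≠ 0) (hw : w ≠ 0) :
    Ex e (z * w) = Ex e z * Ex e w := by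
  have h0 : (z * w).primeFactors = z.primeFactors ∪ w.primeFactors := Nat.primeFactors_mul hz hw
  have h1 : z.primeFactors ⊆ (z * w).primeFactors := by
    rw [h0]; exact Finset.subset_union_left
  have h2 : w.primeFactors ⊆ (z * w).primeFactors := by
    rw [h0]; exact Finset.subset_union_right
  rw [Ex_eq_of_subset e h1, Ex_eq_of_subset e h2, ← Finset.prod_mul_distrib]
  unfold Ex
  refine Finset.prod_congr rfl fun p _ => ?_
  rw [Nat.factorization_mul hz hw, Finsupp.add_apply, mul_add, pow_add]

theorem Ex_prod (e : ℕ → ℕ) {ι : Type*} (s : Finset ι) (f : ι → ℕ) (hf : ∀ i ∈ s, f i ≠ 0) :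
    Ex e (∏ i ∈ s, f i) = ∏ i ∈ s, Ex e (f i) := by
  classical
  induction s using Finset.induction_on with
  | empty => simp [Ex]
  | insert a s ha ih =>
    rw [Finset.prod_insert ha, Finset.prod_insert ha,
      Ex_mul e (hf a (Finset.mem_insert_self a s))
        (Finset.prod_ne_zero_iff.2 fun i hi => hf i (Finset.mem_insert_of_mem hi)),
      ih fun i hi => hf i (Finset.mem_insert_of_mem hi)]

theorem Ex_coprime (e : ℕ → ℕ) {z q : ℕ} (h : z.Coprime q) : (Ex e z).Coprime q := by
  apply Nat.Coprime.prod_left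
  intro p hp
  exact Nat.Coprime.pow_left _ (Nat.Coprime.coprime_dvd_left (Nat.dvd_of_mem_primeFactors hp) h)

private theorem pow_eq_prod {z : ℕ} (hz : z ≠ 0) (r : ℕ) :
    z ^ r = ∏ p ∈ z.primeFactors, p ^ (r * z.factorization p) := by
  conv_lhs => rw [← Nat.prod_factorization_pow_eq_self hz]
  unfold Finsupp.prod
  rw [Nat.support_factorization, ← Finset.prod_pow]
  refine Finset.prod_congr rfl fun p _ => ?_
  rw [← pow_mul, mul_comm]

theorem Ex_split (e : ℕ → ℕ) (r z : ℕ) (hz : z ≠ 0) (h : ∀ p ∈ z.primeFactors, r ≤ e p) :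
    Ex e z = z ^ r * Ex (fun p => e p - r) z := by
  rw [pow_eq_prod hz r]
  unfold Ex
  rw [← Finset.prod_mul_distrib]
  refine Finset.prod_congr rfl fun p hp => ?_
  rw [← pow_add, ← add_mul, Nat.add_sub_cancel' (h p hp)]

theorem log_Ex_le (e : ℕ → ℕ) (z : ℕ) (B : ℝ) (h : ∀ p ∈ z.primeFactors, (e p : ℝ) ≤ B) :
    Real.log (Ex e z) ≤ B * Real.log z := by
  by_cases hz : z = 0
  · subst hz
    simp [Ex]
  · have h1 : Real.log (Ex e z) =
        ∑ p ∈ z.primeFactors, ((e p : ℝ) * z.factorization p) * Real.log p := by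
      unfold Ex
      push_cast
      rw [Real.log_prod]
      · refine Finset.sum_congr rfl fun p _ => ?_
        rw [Real.log_pow]
        push_cast
        rfl
      · intro p hp
        have := (Nat.prime_of_mem_primeFactors hp).pos
        positivity
    have h2 : Real.log z = ∑ p ∈ z.primeFactors, (z.factorization p : ℝ) * Real.log p := by
      have h3 := pow_eq_prod hz 1
      rw [pow_one] at h3
      conv_lhs => rw [h3]
      push_cast
      rw [Real.log_prod]
      · refine Finset.sum_congr rfl fun p _ => ?_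
        rw [Real.log_pow]
        push_cast
        rw [one_mul]
      · intro p hp
        have := (Nat.prime_of_mem_primeFactors hp).pos
        positivity
    rw [h1, h2, Finset.mul_sum]
    refine Finset.sum_le_sum fun p hp => ?_
    have h4 : 0 ≤ Real.log p := Real.log_natCast_nonneg p
    calc ((e p : ℝ) * z.factorization p) * Real.log p =
        (e p : ℝ) * (z.factorization p * Real.log p) := by ring
      _ ≤ B * (z.factorization p * Real.log p) :=
        mul_le_mul_of_nonneg_right (h p hp) (by positivity)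

theorem Ex_primes (e : ℕ → ℕ) (S : Finset ℕ) (hS : ∀ p ∈ S, p.Prime) :
    Ex e (∏ p ∈ S, p) = ∏ p ∈ S, p ^ e p := by
  rw [Ex_prod e S (fun p => p) (fun p hp => (hS p hp).ne_zero)]
  refine Finset.prod_congr rfl fun p hp => ?_
  have hp' := hS p hp
  unfold Ex
  rw [hp'.primeFactors, Finset.prod_singleton, hp'.factorization_self, mul_one]

end Pool.Agent.Lib.Pabc14
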