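import Pool.Agent.Lib.Pabc14.Light
import Pool.Agent.Lib.Pabc14.Ex
import Pool.Agent.Lib.Pabc11.CoreNum
import Pool.Agent.Lib.AbcE.TheoremE

/-!
# The number of quotients in a leaf

For a pair `(z, z')` of `Z` there are `u, v` (`of_ratio`), `log u, log v ≤ Λ`, with
`q ∣ Ex e z * v - Ex e z' * u`, and `Ex e z = z ^ r * D z`, `log (D z) ≤ κ r B` (`Ex_split`, `log_Ex_le`).

Case I: `log q < 96 B r`. `a = 2 (κ r B + Λ)`, `b = 2 B`, `N = parN (log q) a b` (positive by `parN_lower`),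
`M0` from `AbcE.exists_M0 q N`: `log M0 ≤ log q / N + log (rad q) ≤ 36864 a b / log q + log (rad q)`. The map
`z / z' ↦ z * z'⁻¹` (units modulo `M0`) is injective on the quotients: if `z1 z2' ≡ z1' z2` modulo `M0` and
`z1 z2' ≠ z1' z2`, then `core_num` with `B1 = z1 z2'`, `B2 = z1' z2`, `A1 = D z1 * v1 * D z2' * u2`,
`A2 = D z1' * u1 * D z2 * v2` gives a contradiction. So there are at most `M0` quotients.

Case II: `96 B r ≤ log q`. Then `Ex e z * v` and `Ex e z' * u` are smaller than `q`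
(`(1 + κ) r B + Λ ≤ log q / 48 + log q / 192`), so they are equal. With `z = y g`, `z' = y' g`, `y, y'` coprime:
`Ex e y ∣ u`, so `r log y ≤ Λ`, the same for `y'`; the number of the pairs `(y, y')` is at most
`exp (2 Λ / r)`.
-/

open Finset

namespace Pool.Agent.Lib.Pabc14

/-- a function which factors through another one has a smaller image -/
theorem card_image_le_of_factor {α β γ : Type*} [DecidableEq α] [DecidableEq β] [DecidableEq γ]
    (Z : Finset α) (f : α → β) (h : α → γ)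
    (hfh : ∀ z ∈ Z, ∀ w ∈ Z, h z = h w → f z = f w) : (Z.image f).card ≤ (Z.image h).card := by
  obtain ⟨T, hT, hinj, himg⟩ := Finset.exists_subset_injOn_image_eq_of_surjOn (f := f)
    (Z : Set α) (Z.image f) (by
      intro x hx
      rw [Finset.mem_coe, Finset.mem_image] at hx
      obtain ⟨z, hz, rfl⟩ := hx
      exact ⟨z, by exact_mod_cast hz, rfl⟩)
  rw [← himg, Finset.card_image_of_injOn hinj]
  have hT' : T ⊆ Z := by exact_mod_cast hT
  calc T.card = (T.image h).card := by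
        rw [Finset.card_image_of_injOn]
        intro z hz w hw hzw
        exact hinj hz hw (hfh z (hT' hz) w (hT' hw) hzw)
    _ ≤ (Z.image h).card := Finset.card_le_card (Finset.image_subset_image hT')

theorem Ex_log (e : ℕ → ℕ) (r z : ℕ) (κ B : ℝ) (hκ : 0 ≤ κ)
    (h : ∀ p ∈ z.primeFactors, r ≤ e p ∧ (e p : ℝ) ≤ (1 + κ) * r) (hB : Real.log z ≤ B) :
    Real.log (Ex (fun p => e p - r) z) ≤ κ * r * B := by
  refine (log_Ex_le (fun p => e p - r) z (κ * r) ?_).trans ?_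
  · intro p hp
    show ((e p - r : ℕ) : ℝ) ≤ κ * r
    rw [Nat.cast_sub (h p hp).1]
    linarith [(h p hp).2]
  · exact mul_le_mul_of_nonneg_left hB (by positivity)

theorem leaf_caseI (q r : ℕ) (e : ℕ → ℕ) (κ B Λ : ℝ) (hq : 0 < q) (hκ : 0 ≤ κ)
    (hr : 1 ≤ r) (hB : 1 ≤ B) (h1 : 960 * B ≤ Real.log q)
    (h2 : 192 * (κ * r * B + Λ) ≤ Real.log q) (h3 : (r : ℝ) ≤ 2 * (κ * r * B + Λ))
    (h5 : 1000 ≤ Real.log q) (Z : Finset (ℕ × ℕ))
    (hZ : ∀ z ∈ Z, 0 < z.1 ∧ 0 < z.2 ∧ z.1.Coprime q ∧ z.2.Coprime q ∧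
      (∀ p ∈ z.1.primeFactors, r ≤ e p ∧ (e p : ℝ) ≤ (1 + κ) * r) ∧
      (∀ p ∈ z.2.primeFactors, r ≤ e p ∧ (e p : ℝ) ≤ (1 + κ) * r) ∧
      Real.log z.1 ≤ B ∧ Real.log z.2 ≤ B ∧
      cu q (Ex e z.1) * (cu q (Ex e z.2))⁻¹ ∈ Lt q Λ)
    (h4 : Real.log q < 96 * B * r) :
    ((Z.image (fun z => (z.1 : ℚ) / z.2)).card : ℝ) ≤
      Real.exp (147456 * (κ * r * B + Λ) * B / Real.log q +
        Real.log ((∏ p ∈ q.primeFactors, p : ℕ) : ℝ)) := by
  set a : ℝ := 2 * (κ * r * B + Λ) with ha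
  set b : ℝ := 2 * B with hb
  have hr0 : (1 : ℝ) ≤ r := by exact_mod_cast hr
  have ha0 : 0 < a := by linarith
  have hb0 : 0 < b := by linarith
  have g1 : 480 * b ≤ Real.log q := by rw [hb]; linarith
  have g2 : 96 * a ≤ Real.log q := by rw [ha]; linarith
  have g4 : Real.log q < 48 * b * r := by rw [hb]; linarith
  have g6 : 2 ≤ b := by rw [hb]; linarith
  have hm : 0 < Real.log q := by linarith
  set N := Pabc11.parN (Real.log q) a b with hN
  have hNlow := Pabc11.parN_lower (Real.log q) a b ha0 hb0 g1 g2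
  rw [← hN] at hNlow
  have hNpos : (0 : ℝ) < N := lt_of_lt_of_le (by positivity) hNlow
  have hNpos' : 0 < N := by exact_mod_cast hNpos
  obtain ⟨M0, hM0pos, hMM0, hM0le, hM0cop⟩ := AbcE.exists_M0 q N hq hNpos'
  set R : ℕ := ∏ p ∈ q.primeFactors, p with hR
  have hRpos : 0 < R := Finset.prod_pos fun p hp => (Nat.prime_of_mem_primeFactors hp).pos
  have hM0r : (0 : ℝ) < M0 := by exact_mod_cast hM0pos
  have hlogM0 : Real.log M0 ≤ Real.log R + 36864 * a * b / Real.log q := by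
    have h7 : ((M0 : ℝ)) ^ N ≤ q * (R : ℝ) ^ N := by exact_mod_cast hM0le
    have hRr : (0 : ℝ) < R := by exact_mod_cast hRpos
    have hMr : (0 : ℝ) < q := by exact_mod_cast hq
    have h8 := Real.log_le_log (by positivity) h7
    rw [Real.log_pow, Real.log_mul hMr.ne' (by positivity), Real.log_pow] at h8
    have h9 : Real.log q ≤ N * (36864 * a * b / Real.log q) := by
      have h10 : Real.log q ^ 2 / (36864 * a * b) * (36864 * a * b / Real.log q) =
          Real.log q := by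
        field_simp
      calc Real.log q = Real.log q ^ 2 / (36864 * a * b) * (36864 * a * b / Real.log q) :=
            h10.symm
        _ ≤ N * (36864 * a * b / Real.log q) := by gcongr
    have h11 : (N : ℝ) * Real.log M0 ≤ N * (Real.log R + 36864 * a * b / Real.log q) := by
      rw [mul_add]; linarith
    exact le_of_mul_le_mul_left h11 hNpos
  have hcard : (Z.image (fun z => (z.1 : ℚ) / z.2)).card ≤ M0 := by
    classical
    have : NeZero M0 := ⟨hM0pos.ne'⟩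
    refine (card_image_le_of_factor Z (fun z => (z.1 : ℚ) / z.2)
      (fun z => cu M0 z.1 * (cu M0 z.2)⁻¹) ?_).trans ?_
    · intro z hz w hw hzw
      obtain ⟨z1, z2, z3, z4, z5, z6, z7, z8, z9⟩ := hZ z hz
      obtain ⟨w1, w2, w3, w4, w5, w6, w7, w8, w9⟩ := hZ w hw
      have hz2q : (z.2 : ℚ) ≠ 0 := by exact_mod_cast z2.ne'
      have hw2q : (w.2 : ℚ) ≠ 0 := by exact_mod_cast w2.ne'
      show (z.1 : ℚ) / z.2 = (w.1 : ℚ) / w.2
      rw [div_eq_div_iff hz2q hw2q]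
      by_contra hne
      have hne' : z.1 * w.2 ≠ z.2 * w.1 := by
        intro h
        apply hne
        have : ((z.1 * w.2 : ℕ) : ℚ) = ((z.2 * w.1 : ℕ) : ℚ) := by rw [h]
        push_cast at this
        rw [this]
        ring
      have c1 := hM0cop _ z3
      have c2 := hM0cop _ z4
      have c3 := hM0cop _ w3
      have c4 := hM0cop _ w4
      have hzw' : cu M0 z.1 * (cu M0 z.2)⁻¹ = cu M0 w.1 * (cu M0 w.2)⁻¹ := hzw
      have hB : (M0 : ℤ) ∣ ((z.1 * w.2 : ℕ) : ℤ) - ((z.2 * w.1 : ℕ) : ℤ) := by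
        rw [← cu_eq_iff (Nat.Coprime.mul_left c1 c4) (Nat.Coprime.mul_left c2 c3),
          cu_mul c1 c4, cu_mul c2 c3]
        calc cu M0 z.1 * cu M0 w.2 = (cu M0 z.1 * (cu M0 z.2)⁻¹) * (cu M0 z.2 * cu M0 w.2) := by
              rw [mul_assoc, inv_mul_cancel_left]
          _ = (cu M0 w.1 * (cu M0 w.2)⁻¹) * (cu M0 z.2 * cu M0 w.2) := by rw [hzw']
          _ = cu M0 z.2 * cu M0 w.1 := by
              rw [mul_comm (cu M0 z.2) (cu M0 w.2), mul_assoc, inv_mul_cancel_left, mul_comm]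
      obtain ⟨u, v, u0, v0, uq, vq, ul, vl, hd⟩ :=
        of_ratio (Ex_coprime e z3) (Ex_coprime e z4) z9
      obtain ⟨u', v', u0', v0', uq', vq', ul', vl', hd'⟩ :=
        of_ratio (Ex_coprime e w3) (Ex_coprime e w4) w9
      have s1 := Ex_split e r z.1 z1.ne' (fun p hp => (z5 p hp).1)
      have s2 := Ex_split e r z.2 z2.ne' (fun p hp => (z6 p hp).1)
      have s3 := Ex_split e r w.1 w1.ne' (fun p hp => (w5 p hp).1)
      have s4 := Ex_split e r w.2 w2.ne' (fun p hp => (w6 p hp).1)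
      have l1 := Ex_log e r z.1 κ B hκ z5 z7
      have l2 := Ex_log e r z.2 κ B hκ z6 z8
      have l3 := Ex_log e r w.1 κ B hκ w5 w7
      have l4 := Ex_log e r w.2 κ B hκ w6 w8
      have p1 := Ex_pos (fun p => e p - r) z.1
      have p2 := Ex_pos (fun p => e p - r) z.2
      have p3 := Ex_pos (fun p => e p - r) w.1
      have p4 := Ex_pos (fun p => e p - r) w.2
      have k2 := Ex_coprime (fun p => e p - r) z4
      have k3 := Ex_coprime (fun p => e p - r) w3
      set D1 := Ex (fun p => e p - r) z.1 with hD1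
      set D2 := Ex (fun p => e p - r) z.2 with hD2
      set D3 := Ex (fun p => e p - r) w.1 with hD3
      set D4 := Ex (fun p => e p - r) w.2 with hD4
      have nz : ∀ n : ℕ, 0 < n → (n : ℝ) ≠ 0 := fun n hn => by exact_mod_cast hn.ne'
      refine Pabc11.core_num r q M0 (z.1 * w.2) (z.2 * w.1) (D1 * v * (D4 * u')) (D2 * u * (D3 * v'))
        a b (Nat.mul_pos z1 w2) (Nat.mul_pos z2 w1)
        (Nat.mul_pos (Nat.mul_pos p1 v0) (Nat.mul_pos p4 u0'))
        (Nat.mul_pos (Nat.mul_pos p2 u0) (Nat.mul_pos p3 v0')) g1 g2 h3 g4 h5 g6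
        ?_ ?_ ?_ ?_ (by rw [← hN]; exact hMM0) hB hne' ?_ ?_ ?_
      · push_cast
        rw [Real.log_mul (nz _ z1) (nz _ w2)]
        linarith
      · push_cast
        rw [Real.log_mul (nz _ z2) (nz _ w1)]
        linarith
      · push_cast
        rw [Real.log_mul (mul_ne_zero (nz _ p1) (nz _ v0)) (mul_ne_zero (nz _ p4) (nz _ u0')),
          Real.log_mul (nz _ p1) (nz _ v0), Real.log_mul (nz _ p4) (nz _ u0')]
        linarith
      · push_cast
        rw [Real.log_mul (mul_ne_zero (nz _ p2) (nz _ u0)) (mul_ne_zero (nz _ p3) (nz _ v0')),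
          Real.log_mul (nz _ p2) (nz _ u0), Real.log_mul (nz _ p3) (nz _ v0')]
        linarith
      · obtain ⟨t, ht⟩ := hd
        obtain ⟨t', ht'⟩ := hd'
        rw [s1, s2] at ht
        rw [s3, s4] at ht'
        push_cast at ht ht' ⊢
        refine ⟨t * ((w.2 : ℤ) ^ r * D4 * u') - (z.2 : ℤ) ^ r * D2 * u * t', ?_⟩
        calc (D1 : ℤ) * v * (D4 * u') * ((z.1 : ℤ) * w.2) ^ r -
              D2 * u * (D3 * v') * ((z.2 : ℤ) * w.1) ^ r =
            ((z.1 : ℤ) ^ r * D1 * v - (z.2 : ℤ) ^ r * D2 * u) * ((w.2 : ℤ) ^ r * D4 * u') -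
              (z.2 : ℤ) ^ r * D2 * u * ((w.1 : ℤ) ^ r * D3 * v' - (w.2 : ℤ) ^ r * D4 * u') := by
              rw [mul_pow, mul_pow]
              ring
          _ = _ := by
              rw [ht, ht']
              ring
      · exact Nat.Coprime.mul_right z3.symm w4.symm
      · exact Nat.Coprime.mul_right (Nat.Coprime.mul_right k2.symm uq.symm)
          (Nat.Coprime.mul_right k3.symm vq'.symm)
    · refine (Finset.card_le_univ _).trans ?_
      rw [ZMod.card_units_eq_totient]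
      exact Nat.totient_le M0
  calc ((Z.image (fun z => (z.1 : ℚ) / z.2)).card : ℝ) ≤ M0 := by exact_mod_cast hcard
    _ = Real.exp (Real.log M0) := (Real.exp_log hM0r).symm
    _ ≤ _ := by
        apply Real.exp_le_exp.2
        have e1 : 36864 * a * b / Real.log q = 147456 * (κ * r * B + Λ) * B / Real.log q := by
          rw [ha, hb]; ring
        rw [e1] at hlogM0
        linarith

theorem leaf_caseII (q r : ℕ) (e : ℕ → ℕ) (κ B Λ : ℝ) (hq : 0 < q) (hκ : 0 ≤ κ)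
    (hr : 1 ≤ r) (hB : 1 ≤ B)
    (h2 : 192 * (κ * r * B + Λ) ≤ Real.log q)
    (h5 : 1000 ≤ Real.log q) (Z : Finset (ℕ × ℕ))
    (hZ : ∀ z ∈ Z, 0 < z.1 ∧ 0 < z.2 ∧ z.1.Coprime q ∧ z.2.Coprime q ∧
      (∀ p ∈ z.1.primeFactors, r ≤ e p ∧ (e p : ℝ) ≤ (1 + κ) * r) ∧
      (∀ p ∈ z.2.primeFactors, r ≤ e p ∧ (e p : ℝ) ≤ (1 + κ) * r) ∧
      Real.log z.1 ≤ B ∧ Real.log z.2 ≤ B ∧
      cu q (Ex e z.1) * (cu q (Ex e z.2))⁻¹ ∈ Lt q Λ)
    (h4 : 96 * B * r ≤ Real.log q) :
    ((Z.image (fun z => (z.1 : ℚ) / z.2)).card : ℝ) ≤ Real.exp (2 * (Λ / r)) := by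
  have hr0 : (1 : ℝ) ≤ r := by exact_mod_cast hr
  have hrp : (0 : ℝ) < r := by linarith
  have hqr : (0 : ℝ) < q := by exact_mod_cast hq
  have hkrB : 0 ≤ κ * r * B := by positivity
  set Y : ℕ := ⌊Real.exp (Λ / r)⌋₊ with hY
  have hmain : ∀ z ∈ Z, ∃ y y' : ℕ, 0 < y ∧ 0 < y' ∧ y ≤ Y ∧ y' ≤ Y ∧
      (z.1 : ℚ) / z.2 = (y : ℚ) / y' := by
    intro z hz
    obtain ⟨z1, z2, z3, z4, z5, z6, z7, z8, z9⟩ := hZ z hz
    obtain ⟨u, v, u0, v0, uq, vq, ul, vl, hd⟩ :=
      of_ratio (Ex_coprime e z3) (Ex_coprime e z4) z9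
    have nz : ∀ n : ℕ, 0 < n → (n : ℝ) ≠ 0 := fun n hn => by exact_mod_cast hn.ne'
    have small : ∀ x t : ℕ, 0 < x → 0 < t →
        (∀ p ∈ x.primeFactors, r ≤ e p ∧ (e p : ℝ) ≤ (1 + κ) * r) → Real.log x ≤ B →
        Real.log t ≤ Λ → Ex e x * t < q := by
      intro x t hx ht hxp hxB htΛ
      have hE := Ex_pos e x
      have hl : Real.log ((Ex e x * t : ℕ) : ℝ) < Real.log q := by
        push_cast
        rw [Real.log_mul (nz _ hE) (nz _ ht)]
        have e1 : Real.log (Ex e x) ≤ (1 + κ) * r * B :=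
          (log_Ex_le e x ((1 + κ) * r) (fun p hp => (hxp p hp).2)).trans
            (mul_le_mul_of_nonneg_left hxB (by positivity))
        have e2 : (1 + κ) * r * B = r * B + κ * r * B := by ring
        have e3 : 96 * B * (r : ℝ) = 96 * (r * B) := by ring
        rw [e3] at h4
        have e4 : 0 ≤ (r : ℝ) * B := by positivity
        linarith
      have hp : (0 : ℝ) < ((Ex e x * t : ℕ) : ℝ) := by exact_mod_cast Nat.mul_pos hE ht
      have := (Real.log_lt_log_iff hp hqr).1 hl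
      exact_mod_cast this
    have s1 := small z.1 v z1 v0 z5 z7 vl
    have s2 := small z.2 u z2 u0 z6 z8 ul
    have heq : Ex e z.1 * v = Ex e z.2 * u := by
      by_contra hne
      have h := AbcE.natAbs_sub_lt_max (Ex e z.1 * v) (Ex e z.2 * u)
        (Nat.mul_pos (Ex_pos e _) v0) (Nat.mul_pos (Ex_pos e _) u0) hne q
        (by push_cast; exact hd)
      have := max_lt s1 s2
      omega
    obtain ⟨y, y', hcop, hy, hy'⟩ := Nat.exists_coprime z.1 z.2
    set g := Nat.gcd z.1 z.2 with hg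
    have hg0 : 0 < g := Nat.gcd_pos_of_pos_left _ z1
    have y0 : 0 < y := by
      rcases Nat.eq_zero_or_pos y with h | h
      · rw [h, zero_mul] at hy; omega
      · exact h
    have y0' : 0 < y' := by
      rcases Nat.eq_zero_or_pos y' with h | h
      · rw [h, zero_mul] at hy'; omega
      · exact h
    have heq2 : Ex e y * v = Ex e y' * u := by
      rw [hy, hy', Ex_mul e y0.ne' hg0.ne', Ex_mul e y0'.ne' hg0.ne'] at heq
      have hEg := Ex_pos e g
      have : Ex e g * (Ex e y * v) = Ex e g * (Ex e y' * u) := by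
        linarith
      exact Nat.eq_of_mul_eq_mul_left hEg this
    have hcopE : (Ex e y).Coprime (Ex e y') :=
      (Ex_coprime e (Ex_coprime e hcop).symm).symm
    have d1 : Ex e y ∣ u := by
      have : Ex e y ∣ Ex e y' * u := ⟨v, heq2.symm⟩
      exact hcopE.dvd_of_dvd_mul_left this
    have d2 : Ex e y' ∣ v := by
      have : Ex e y' ∣ Ex e y * v := ⟨u, heq2⟩
      exact hcopE.symm.dvd_of_dvd_mul_left this
    have bound : ∀ x t : ℕ, 0 < x → 0 < t → (∀ p ∈ x.primeFactors, r ≤ e p) → Ex e x ∣ t →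
        Real.log t ≤ Λ → x ≤ Y := by
      intro x t hx ht hxp hdvd htΛ
      have e1 := Ex_split e r x hx.ne' hxp
      have e2 : x ^ r ≤ t := by
        refine (Nat.le_of_dvd ht ?_)
        exact (Dvd.intro _ e1.symm).trans hdvd
      have hxr : (0 : ℝ) < x := by exact_mod_cast hx
      have e3 : (r : ℝ) * Real.log x ≤ Λ := by
        rw [← Real.log_pow]
        refine (Real.log_le_log (by positivity) ?_).trans htΛ
        exact_mod_cast e2
      have e4 : Real.log x ≤ Λ / r := by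
        rw [le_div_iff₀ hrp]
        linarith
      apply Nat.le_floor
      rw [← Real.exp_log hxr]
      exact Real.exp_le_exp.2 e4
    refine ⟨y, y', y0, y0', bound y u y0 u0 (fun p hp => ?_) d1 ul,
      bound y' v y0' v0 (fun p hp => ?_) d2 vl, ?_⟩
    · refine (z5 p ?_).1
      exact Nat.primeFactors_mono ⟨g, hy⟩ z1.ne' hp
    · refine (z6 p ?_).1
      exact Nat.primeFactors_mono ⟨g, hy'⟩ z2.ne' hp
    · rw [hy, hy']
      push_cast
      have hgq : (g : ℚ) ≠ 0 := by exact_mod_cast hg0.ne'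
      rw [mul_div_mul_right _ _ hgq]
  have hsub : Z.image (fun z => (z.1 : ℚ) / z.2) ⊆
      ((Finset.Icc 1 Y) ×ˢ (Finset.Icc 1 Y)).image (fun y : ℕ × ℕ => (y.1 : ℚ) / y.2) := by
    intro x hx
    rw [Finset.mem_image] at hx
    obtain ⟨z, hz, rfl⟩ := hx
    obtain ⟨y, y', y0, y0', hy, hy', h⟩ := hmain z hz
    rw [Finset.mem_image]
    refine ⟨(y, y'), ?_, h.symm⟩
    rw [Finset.mem_product, Finset.mem_Icc, Finset.mem_Icc]
    exact ⟨⟨y0, hy⟩, ⟨y0', hy'⟩⟩
  have hcard : (Z.image (fun z => (z.1 : ℚ) / z.2)).card ≤ Y * Y := by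
    refine (Finset.card_le_card hsub).trans (Finset.card_image_le.trans ?_)
    rw [Finset.card_product, Nat.card_Icc, Nat.add_sub_cancel]
  have hYle : (Y : ℝ) ≤ Real.exp (Λ / r) := Nat.floor_le (Real.exp_pos _).le
  calc ((Z.image (fun z => (z.1 : ℚ) / z.2)).card : ℝ) ≤ ((Y * Y : ℕ) : ℝ) := by
        exact_mod_cast hcard
    _ = (Y : ℝ) * Y := by push_cast; ring
    _ ≤ Real.exp (Λ / r) * Real.exp (Λ / r) := by gcongr
    _ = Real.exp (2 * (Λ / r)) := by rw [← Real.exp_add]; congr 1; ring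

theorem leaf_ratio (q r : ℕ) (e : ℕ → ℕ) (κ B Λ : ℝ) (hq : 0 < q) (hκ : 0 ≤ κ) (hκ1 : κ ≤ 1)
    (hr : 1 ≤ r) (hB : 1 ≤ B) (hΛ : 0 ≤ Λ) (h1 : 960 * B ≤ Real.log q)
    (h2 : 192 * (κ * r * B + Λ) ≤ Real.log q) (h3 : (r : ℝ) ≤ 2 * (κ * r * B + Λ))
    (h5 : 1000 ≤ Real.log q) (Z : Finset (ℕ × ℕ))
    (hZ : ∀ z ∈ Z, 0 < z.1 ∧ 0 < z.2 ∧ z.1.Coprime q ∧ z.2.Coprime q ∧
      (∀ p ∈ z.1.primeFactors, r ≤ e p ∧ (e p : ℝ) ≤ (1 + κ) * r) ∧
      (∀ p ∈ z.2.primeFactors, r ≤ e p ∧ (e p : ℝ) ≤ (1 + κ) * r) ∧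
      Real.log z.1 ≤ B ∧ Real.log z.2 ≤ B ∧
      cu q (Ex e z.1) * (cu q (Ex e z.2))⁻¹ ∈ Lt q Λ) :
    ((Z.image (fun z => (z.1 : ℚ) / z.2)).card : ℝ) ≤
      Real.exp (147456 * (κ * r * B + Λ) * B / Real.log q +
        Real.log ((∏ p ∈ q.primeFactors, p : ℕ) : ℝ) + 2 * (κ * B + Λ / r)) := by
  have hr0 : (1 : ℝ) ≤ r := by exact_mod_cast hr
  have hm : 0 < Real.log q := by linarith
  have t1 : 0 ≤ 147456 * (κ * r * B + Λ) * B / Real.log q := by positivity
  have t2 : 0 ≤ Real.log ((∏ p ∈ q.primeFactors, p : ℕ) : ℝ) := Real.log_natCast_nonneg _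
  have t3 : 0 ≤ κ * B := by positivity
  have t4 : 0 ≤ Λ / r := by positivity
  rcases lt_or_ge (Real.log q) (96 * B * r) with h4 | h4
  · refine (leaf_caseI q r e κ B Λ hq hκ hr hB h1 h2 h3 h5 Z hZ h4).trans ?_
    apply Real.exp_le_exp.2
    linarith
  · refine (leaf_caseII q r e κ B Λ hq hκ hr hB h2 h5 Z hZ h4).trans ?_
    apply Real.exp_le_exp.2
    linarith

end Pool.Agent.Lib.Pabc14
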