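import Pool.Agent.Lib.Pabc14.Holder
import Pool.Agent.Lib.Pabc14.Leaf

/-!
# The energy of a slot

The pairs of tuples counted by `energy`; `Z` = the finset of the pairs of products. `leaf_ratio` with
`B = W * y` (`cu_prod`, `Ex_prod`, `Ex_coprime`; the primes of a product are primes of a factor): few quotients.
For a given quotient `β` and a given first tuple the product of the second tuple is a known positive integer
`k`, `log k ≤ W y`, each of its `W` entries is a divisor of `k`: at most `Δ ^ W` second tuples. There are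
`U.card ^ W` first tuples (`Fintype.card_piFinset_const`).

`energy_trivial`: all pairs of tuples.
-/

open Finset

namespace Pool.Agent.Lib.Pabc14

theorem energy_trivial {G : Type*} [CommGroup G] (A : Set G) (g : ℕ → G) (U : Finset ℕ) (W : ℕ) :
    energy A g U W ≤ U.card ^ (2 * W) := by
  classical
  unfold energy
  refine (Finset.card_filter_le _ _).trans ?_
  rw [Finset.card_product, Fintype.card_piFinset_const, ← pow_add, two_mul]

namespace LeafCountAux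

theorem prod_pos' {U : Finset ℕ} (hU : ∀ z ∈ U, 0 < z) {W : ℕ} {a : Fin W → ℕ}
    (ha : ∀ i, a i ∈ U) : 0 < ∏ i, a i :=
  Finset.prod_pos (fun i _ => hU _ (ha i))

theorem prod_primes {U : Finset ℕ} {P : ℕ → Prop} (hU : ∀ z ∈ U, ∀ p ∈ z.primeFactors, P p)
    (hU0 : ∀ z ∈ U, 0 < z) {W : ℕ} {a : Fin W → ℕ} (ha : ∀ i, a i ∈ U) :
    ∀ p ∈ (∏ i, a i).primeFactors, P p := by
  intro p hp
  rw [Nat.mem_primeFactors] at hp
  obtain ⟨hp1, hp2, _⟩ := hp
  obtain ⟨i, _, hi⟩ := (Prime.dvd_finsetProd_iff hp1.prime _).1 hp2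
  exact hU _ (ha i) p (Nat.mem_primeFactors.2 ⟨hp1, hi, (hU0 _ (ha i)).ne'⟩)

theorem prod_log {U : Finset ℕ} {y : ℝ} (hU : ∀ z ∈ U, Real.log z ≤ y)
    (hU0 : ∀ z ∈ U, 0 < z) {W : ℕ} {a : Fin W → ℕ} (ha : ∀ i, a i ∈ U) :
    Real.log ((∏ i, a i : ℕ) : ℝ) ≤ W * y := by
  rw [Nat.cast_prod, Real.log_prod (fun i _ => by
    have := hU0 _ (ha i)
    exact_mod_cast this.ne')]
  refine (Finset.sum_le_sum (fun i _ => hU _ (ha i))).trans ?_
  rw [Finset.sum_const, Finset.card_univ, Fintype.card_fin, nsmul_eq_mul]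

theorem prod_cu {q : ℕ} (e : ℕ → ℕ) {U : Finset ℕ} (hU : ∀ z ∈ U, z.Coprime q)
    (hU0 : ∀ z ∈ U, 0 < z) {W : ℕ} {a : Fin W → ℕ} (ha : ∀ i, a i ∈ U) :
    cu q (Ex e (∏ i, a i)) = ∏ i, cu q (Ex e (a i)) := by
  rw [Ex_prod e Finset.univ a (fun i _ => (hU0 _ (ha i)).ne'),
    cu_prod Finset.univ _ (fun i _ => Ex_coprime e (hU _ (ha i)))]

end LeafCountAux

theorem energy_le (q r : ℕ) (e : ℕ → ℕ) (κ y Λ Δ : ℝ) (W : ℕ) (hq : 0 < q) (hκ : 0 ≤ κ)
    (hκ1 : κ ≤ 1) (hr : 1 ≤ r) (hB : 1 ≤ W * y) (hΛ : 0 ≤ Λ) (h1 : 960 * (W * y) ≤ Real.log q)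
    (h2 : 192 * (κ * r * (W * y) + Λ) ≤ Real.log q)
    (h3 : (r : ℝ) ≤ 2 * (κ * r * (W * y) + Λ)) (h5 : 1000 ≤ Real.log q) (U : Finset ℕ)
    (hU : ∀ z ∈ U, 0 < z ∧ z.Coprime q ∧
      (∀ p ∈ z.primeFactors, r ≤ e p ∧ (e p : ℝ) ≤ (1 + κ) * r) ∧ Real.log z ≤ y)
    (hΔ : ∀ k : ℕ, 0 < k → Real.log k ≤ W * y → (k.divisors.card : ℝ) ≤ Δ) :
    (energy (Lt q Λ) (fun z => cu q (Ex e z)) U W : ℝ) ≤
      Real.exp (147456 * (κ * r * (W * y) + Λ) * (W * y) / Real.log q +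
        Real.log ((∏ p ∈ q.primeFactors, p : ℕ) : ℝ) + 2 * (κ * (W * y) + Λ / r)) *
        (U.card : ℝ) ^ W * Δ ^ W := by
  classical
  have hU0 : ∀ z ∈ U, 0 < z := fun z hz => (hU z hz).1
  have hUc : ∀ z ∈ U, z.Coprime q := fun z hz => (hU z hz).2.1
  have hUp : ∀ z ∈ U, ∀ p ∈ z.primeFactors, r ≤ e p ∧ (e p : ℝ) ≤ (1 + κ) * r :=
    fun z hz => (hU z hz).2.2.1
  have hUl : ∀ z ∈ U, Real.log z ≤ y := fun z hz => (hU z hz).2.2.2
  have hΔ1 : 1 ≤ Δ := by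
    have h := hΔ 1 one_pos (by rw [Nat.cast_one, Real.log_one]; linarith)
    simpa using h
  obtain ⟨S, hS⟩ : ∃ S : Finset ((Fin W → ℕ) × (Fin W → ℕ)),
      S = (((Fintype.piFinset (fun _ : Fin W => U)) ×ˢ
        (Fintype.piFinset (fun _ : Fin W => U))).filter
        (fun z => (∏ i, cu q (Ex e (z.1 i))) * (∏ i, cu q (Ex e (z.2 i)))⁻¹ ∈ Lt q Λ)) :=
    ⟨_, rfl⟩
  have hen : energy (Lt q Λ) (fun z => cu q (Ex e z)) U W = S.card := by
    rw [hS]; unfold energy; congr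
  have hmem : ∀ z ∈ S, (∀ i, z.1 i ∈ U) ∧ (∀ i, z.2 i ∈ U) ∧
      (∏ i, cu q (Ex e (z.1 i))) * (∏ i, cu q (Ex e (z.2 i)))⁻¹ ∈ Lt q Λ := by
    intro z hz
    rw [hS, Finset.mem_filter, Finset.mem_product, Fintype.mem_piFinset,
      Fintype.mem_piFinset] at hz
    exact ⟨hz.1.1, hz.1.2, hz.2⟩
  rw [hen]
  obtain ⟨Z, hZd⟩ : ∃ Z : Finset (ℕ × ℕ), Z = S.image (fun z => (∏ i, z.1 i, ∏ i, z.2 i)) :=
    ⟨_, rfl⟩
  have hratio := leaf_ratio q r e κ (W * y) Λ hq hκ hκ1 hr hB hΛ h1 h2 h3 h5 Z (by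
    intro z hz
    rw [hZd, Finset.mem_image] at hz
    obtain ⟨w, hw, rfl⟩ := hz
    obtain ⟨ha, hb, hc⟩ := hmem w hw
    have hca : (∏ i, w.1 i).Coprime q := Nat.Coprime.prod_left (fun i _ => hUc _ (ha i))
    have hcb : (∏ i, w.2 i).Coprime q := Nat.Coprime.prod_left (fun i _ => hUc _ (hb i))
    refine ⟨LeafCountAux.prod_pos' hU0 ha, LeafCountAux.prod_pos' hU0 hb, hca, hcb,
      LeafCountAux.prod_primes hUp hU0 ha, LeafCountAux.prod_primes hUp hU0 hb,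
      LeafCountAux.prod_log hUl hU0 ha, LeafCountAux.prod_log hUl hU0 hb, ?_⟩
    rw [LeafCountAux.prod_cu e hUc hU0 ha, LeafCountAux.prod_cu e hUc hU0 hb]
    exact hc)
  obtain ⟨Q, hQ⟩ : ∃ Q : Finset ℚ, Q = Z.image (fun z => (z.1 : ℚ) / z.2) := ⟨_, rfl⟩
  rw [← hQ] at hratio
  obtain ⟨F, hF⟩ : ∃ F : (Fin W → ℕ) × (Fin W → ℕ) → ℚ × (Fin W → ℕ),
      F = fun z => (((∏ i, z.1 i : ℕ) : ℚ) / ((∏ i, z.2 i : ℕ) : ℚ), z.1) := ⟨_, rfl⟩
  have hFS : ∀ z ∈ S, F z ∈ Q ×ˢ Fintype.piFinset (fun _ : Fin W => U) := by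
    intro z hz
    rw [Finset.mem_product, hF, hQ]
    constructor
    · rw [Finset.mem_image]
      refine ⟨(∏ i, z.1 i, ∏ i, z.2 i), ?_, rfl⟩
      rw [hZd, Finset.mem_image]
      exact ⟨z, hz, rfl⟩
    · rw [Fintype.mem_piFinset]; exact (hmem z hz).1
  have hfib : ∀ t ∈ Q ×ˢ Fintype.piFinset (fun _ : Fin W => U),
      ((S.filter (fun z => F z = t)).card : ℝ) ≤ Δ ^ W := by
    intro t _
    rcases (S.filter (fun z => F z = t)).eq_empty_or_nonempty with h0 | ⟨z0, hz0⟩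
    · rw [h0, Finset.card_empty, Nat.cast_zero]; positivity
    · rw [Finset.mem_filter] at hz0
      obtain ⟨hz0S, hz0F⟩ := hz0
      obtain ⟨ha0, hb0, _⟩ := hmem z0 hz0S
      obtain ⟨k, hk⟩ : ∃ k : ℕ, k = ∏ i, z0.2 i := ⟨_, rfl⟩
      have hk0 : 0 < k := by rw [hk]; exact LeafCountAux.prod_pos' hU0 hb0
      have hkl : Real.log k ≤ W * y := by rw [hk]; exact LeafCountAux.prod_log hUl hU0 hb0
      have hsub : (S.filter (fun z => F z = t)).card ≤
          (Fintype.piFinset (fun _ : Fin W => k.divisors)).card := by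
        apply Finset.card_le_card_of_injOn (fun z => z.2)
        · intro z hz
          have hz' := Finset.mem_filter.1 (Finset.mem_coe.1 hz)
          obtain ⟨ha, hb, _⟩ := hmem z hz'.1
          have hFF : F z = F z0 := by rw [hz'.2, hz0F]
          rw [hF] at hFF
          have e1 : z.1 = z0.1 := congrArg Prod.snd hFF
          have e2 : ((∏ i, z.1 i : ℕ) : ℚ) / ((∏ i, z.2 i : ℕ) : ℚ) =
              ((∏ i, z0.1 i : ℕ) : ℚ) / ((∏ i, z0.2 i : ℕ) : ℚ) := congrArg Prod.fst hFF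
          have p0 : (0:ℚ) < ((∏ i, z0.1 i : ℕ) : ℚ) := by
            exact_mod_cast LeafCountAux.prod_pos' hU0 ha0
          have p1 : (0:ℚ) < ((∏ i, z.2 i : ℕ) : ℚ) := by
            exact_mod_cast LeafCountAux.prod_pos' hU0 hb
          have p2 : (0:ℚ) < ((∏ i, z0.2 i : ℕ) : ℚ) := by
            exact_mod_cast LeafCountAux.prod_pos' hU0 hb0
          rw [e1, div_eq_div_iff p1.ne' p2.ne'] at e2
          have e3 := mul_left_cancel₀ p0.ne' e2
          have e4 : ∏ i, z.2 i = k := by rw [hk]; exact_mod_cast e3.symm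
          rw [Finset.mem_coe, Fintype.mem_piFinset]
          intro i
          rw [Nat.mem_divisors]
          refine ⟨?_, hk0.ne'⟩
          rw [← e4]
          exact Finset.dvd_prod_of_mem _ (Finset.mem_univ i)
        · intro z hz z' hz' hzz
          have hz1 := Finset.mem_filter.1 (Finset.mem_coe.1 hz)
          have hz2 := Finset.mem_filter.1 (Finset.mem_coe.1 hz')
          have hFF : F z = F z' := by rw [hz1.2, hz2.2]
          rw [hF] at hFF
          exact Prod.ext (congrArg Prod.snd hFF) hzz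
      rw [Fintype.card_piFinset_const] at hsub
      have hD := hΔ k hk0 hkl
      calc ((S.filter (fun z => F z = t)).card : ℝ) ≤ ((k.divisors.card ^ W : ℕ) : ℝ) := by
            exact_mod_cast hsub
        _ = (k.divisors.card : ℝ) ^ W := by rw [Nat.cast_pow]
        _ ≤ Δ ^ W := pow_le_pow_left₀ (Nat.cast_nonneg _) hD W
  have hcard : (S.card : ℝ) ≤ ((Q ×ˢ Fintype.piFinset (fun _ : Fin W => U)).card : ℝ) * Δ ^ W := by
    rw [Finset.card_eq_sum_card_fiberwise hFS, Nat.cast_sum]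
    refine (Finset.sum_le_sum hfib).trans ?_
    rw [Finset.sum_const, nsmul_eq_mul]
  refine hcard.trans ?_
  rw [Finset.card_product, Fintype.card_piFinset_const, Nat.cast_mul, Nat.cast_pow]
  apply mul_le_mul_of_nonneg_right _ (by positivity)
  exact mul_le_mul_of_nonneg_right hratio (by positivity)

end Pool.Agent.Lib.Pabc14
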