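import Pool.Agent.Lib.Pabc14.CountSlots
import Pool.Agent.Lib.Pabc14.LeafCount

/-!
# The count in terms of the slots
-/

open Finset

namespace Pool.Agent.Lib.Pabc14

open Pool.Agent.Lib.Pabc2 Pool.Agent.Lib.Pabc1

/-- The exponent in the bound for the energy of a slot. -/
noncomputable def XX (q r : ℕ) (κ B Λ : ℝ) : ℝ :=
  147456 * (κ * r * B + Λ) * B / Real.log q +
    Real.log ((∏ p ∈ q.primeFactors, p : ℕ) : ℝ) + 2 * (κ * B + Λ / r)

theorem slotSet_card_le {ι : Type*} (q : ℕ) (slot : ℕ → ι) (y : ℝ) (s : ι) :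
    ((slotSet q slot y s).card : ℝ) ≤ Real.exp y := by
  classical
  unfold slotSet
  calc (((Finset.Icc 1 ⌊Real.exp y⌋₊).filter
        (fun z => z.Coprime q ∧ ∀ p ∈ z.primeFactors, slot p = s)).card : ℝ)
      ≤ ((Finset.Icc 1 ⌊Real.exp y⌋₊).card : ℝ) := by
        exact_mod_cast Finset.card_le_card (Finset.filter_subset _ _)
    _ = (⌊Real.exp y⌋₊ : ℝ) := by rw [Nat.card_Icc]; simp
    _ ≤ Real.exp y := Nat.floor_le (Real.exp_pos y).le

theorem mem_slotSet_facts {ι : Type*} {q : ℕ} {slot : ℕ → ι} {y : ℝ} {s : ι} {z : ℕ}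
    (hz : z ∈ slotSet q slot y s) :
    0 < z ∧ z.Coprime q ∧ (∀ p ∈ z.primeFactors, slot p = s) ∧ Real.log z ≤ y := by
  classical
  unfold slotSet at hz
  rw [Finset.mem_filter, Finset.mem_Icc] at hz
  obtain ⟨⟨h1, h2⟩, h3, h4⟩ := hz
  refine ⟨h1, h3, h4, ?_⟩
  have h5 : (z : ℝ) ≤ Real.exp y := le_trans (by exact_mod_cast h2) (Nat.floor_le (Real.exp_pos y).le)
  have h6 : (0 : ℝ) < z := by exact_mod_cast h1
  rw [← Real.log_exp y]
  exact Real.log_le_log h6 h5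

theorem count_bound {ι : Type*} [Fintype ι] [DecidableEq ι] (D : ℕ)
    (hι : Fintype.card ι ≤ 2 ^ (D + 1)) (q : ℕ) (hq : 0 < q) (l : Fin 3) (slot : ℕ → ι)
    (side : ι → Bool) (e : ℕ → ℕ) (y : ι → ℝ) (lam : ℝ) (hlam0 : 0 ≤ lam)
    (hlam : 2 * lam < Real.log q) (T : Finset (ℕ × ℕ)) (Hv : ℕ × ℕ → Finset ℕ)
    (hT : ∀ t ∈ T, IsT t ∧ q ∣ comp t l ∧ Hv t ⊆ oprimes t l ∧ (∀ p ∈ Hv t, e p ≤ ex t p) ∧
      (∀ p ∈ Hv t, (side (slot p) = true ↔ lab t p = lM l)) ∧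
      ∑ p ∈ oprimes t l \ Hv t, (ex t p : ℝ) * Real.log p +
        ∑ p ∈ Hv t, ((ex t p : ℝ) - e p) * Real.log p ≤ lam ∧
      ∀ s, ∑ p ∈ (Hv t).filter (fun p => slot p = s), Real.log (p : ℝ) ≤ y s)
    (fr : Finset ι) (r : ι → ℕ) (κ : ι → ℝ) (Δ : ℝ) (hΔ1 : 1 ≤ Δ) (h5 : 1000 ≤ Real.log q)
    (hc : ∀ s ∉ fr, 0 ≤ κ s ∧ κ s ≤ 1 ∧ 1 ≤ r s ∧ 1 ≤ 2 ^ D * y s ∧
      960 * (2 ^ D * y s) ≤ Real.log q ∧
      192 * (κ s * r s * (2 ^ D * y s) + 2 ^ (D + 1) * lam) ≤ Real.log q ∧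
      (r s : ℝ) ≤ 2 * (κ s * r s * (2 ^ D * y s) + 2 ^ (D + 1) * lam) ∧
      (∀ p, slot p = s → r s ≤ e p ∧ (e p : ℝ) ≤ (1 + κ s) * r s) ∧
      ∀ k : ℕ, 0 < k → Real.log k ≤ 2 ^ D * y s → (k.divisors.card : ℝ) ≤ Δ) :
    (T.card : ℝ) ≤ Real.exp ((∑ s ∈ fr, 2 ^ (D + 1) * y s +
      ∑ s ∈ frᶜ, (XX q (r s) (κ s) (2 ^ D * y s) (2 ^ (D + 1) * lam) + 2 ^ D * y s +
        2 ^ D * Real.log Δ)) / 2 ^ (D + 1)) := by
  classical
  have h1 := count_slots D hι q hq l slot side e y lam hlam0 hlam T Hv hT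
  have hW : (0 : ℝ) < 2 ^ (D + 1) := by positivity
  have hΔ0 : 0 < Δ := by linarith
  set E : ι → ℝ := fun s => (energy (Lt q (2 ^ (D + 1) * lam)) (fun z => cu q (Ex e z))
    (slotSet q slot (y s) s) (2 ^ D) : ℝ) with hE
  have hE0 : ∀ s, 0 ≤ E s := fun s => Nat.cast_nonneg _
  have hfr : ∀ s, s ∈ fr → E s ≤ Real.exp (2 ^ (D + 1) * y s) := by
    intro s _
    have h2 := energy_trivial (Lt q (2 ^ (D + 1) * lam)) (fun z => cu q (Ex e z))
      (slotSet q slot (y s) s) (2 ^ D)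
    have h3 : E s ≤ ((slotSet q slot (y s) s).card : ℝ) ^ (2 * 2 ^ D) := by
      simp only [hE]
      exact_mod_cast h2
    refine h3.trans ?_
    refine (pow_le_pow_left₀ (Nat.cast_nonneg _) (slotSet_card_le q slot (y s) s) _).trans ?_
    rw [← Real.exp_nat_mul]
    apply le_of_eq
    congr 1
    push_cast
    ring
  have hcs : ∀ s, s ∉ fr → E s ≤ Real.exp (XX q (r s) (κ s) (2 ^ D * y s) (2 ^ (D + 1) * lam) +
      2 ^ D * y s + 2 ^ D * Real.log Δ) := by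
    intro s hs
    obtain ⟨c1, c2, c3, c4, c5, c6, c7, c8, c9⟩ := hc s hs
    have h2 := energy_le q (r s) e (κ s) (y s) (2 ^ (D + 1) * lam) Δ (2 ^ D) hq c1 c2 c3
      (by push_cast; exact c4) (by positivity) (by push_cast; exact c5) (by push_cast; exact c6)
      (by push_cast; exact c7) h5 (slotSet q slot (y s) s) (by
        intro z hz
        obtain ⟨g1, g2, g3, g4⟩ := mem_slotSet_facts hz
        exact ⟨g1, g2, fun p hp => c8 p (g3 p hp), g4⟩) (by push_cast; exact c9)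
    rw [show ((2 ^ D : ℕ) : ℝ) = 2 ^ D by push_cast; rfl] at h2
    have h2' : E s ≤ Real.exp (XX q (r s) (κ s) (2 ^ D * y s) (2 ^ (D + 1) * lam)) *
        ((slotSet q slot (y s) s).card : ℝ) ^ (2 ^ D) * Δ ^ (2 ^ D) := h2
    refine h2'.trans ?_
    have h3 : ((slotSet q slot (y s) s).card : ℝ) ^ (2 ^ D) ≤ Real.exp (2 ^ D * y s) := by
      refine (pow_le_pow_left₀ (Nat.cast_nonneg _) (slotSet_card_le q slot (y s) s) _).trans ?_
      rw [← Real.exp_nat_mul]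
      apply le_of_eq
      congr 1
      push_cast
      ring
    have h4 : Δ ^ (2 ^ D) = Real.exp (2 ^ D * Real.log Δ) := by
      conv_lhs => rw [← Real.exp_log hΔ0]
      rw [← Real.exp_nat_mul]
      congr 1
      push_cast
      ring
    rw [h4, Real.exp_add _ (2 ^ D * Real.log Δ), Real.exp_add _ (2 ^ D * y s)]
    exact mul_le_mul_of_nonneg_right (mul_le_mul_of_nonneg_left h3 (Real.exp_pos _).le)
      (Real.exp_pos _).le
  have h6 : (T.card : ℝ) ^ (2 ^ (D + 1)) ≤ Real.exp (∑ s ∈ fr, 2 ^ (D + 1) * y s +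
      ∑ s ∈ frᶜ, (XX q (r s) (κ s) (2 ^ D * y s) (2 ^ (D + 1) * lam) + 2 ^ D * y s +
        2 ^ D * Real.log Δ)) := by
    refine h1.trans ?_
    rw [Real.exp_add, Real.exp_sum, Real.exp_sum]
    rw [← Finset.prod_mul_prod_compl fr E]
    apply mul_le_mul
    · exact Finset.prod_le_prod (fun s _ => hE0 s) (fun s hs => hfr s hs)
    · exact Finset.prod_le_prod (fun s _ => hE0 s) (fun s hs => hcs s (Finset.mem_compl.mp hs))
    · exact Finset.prod_nonneg (fun s _ => hE0 s)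
    · exact Finset.prod_nonneg (fun s _ => (Real.exp_pos _).le)
  by_contra hcon
  push Not at hcon
  have h7 := pow_lt_pow_left₀ hcon (Real.exp_pos _).le (n := 2 ^ (D + 1)) (by positivity)
  rw [← Real.exp_nat_mul] at h7
  have h8 : ((2 ^ (D + 1) : ℕ) : ℝ) * ((∑ s ∈ fr, 2 ^ (D + 1) * y s +
      ∑ s ∈ frᶜ, (XX q (r s) (κ s) (2 ^ D * y s) (2 ^ (D + 1) * lam) + 2 ^ D * y s +
        2 ^ D * Real.log Δ)) / 2 ^ (D + 1)) = ∑ s ∈ fr, 2 ^ (D + 1) * y s +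
      ∑ s ∈ frᶜ, (XX q (r s) (κ s) (2 ^ D * y s) (2 ^ (D + 1) * lam) + 2 ^ D * y s +
        2 ^ D * Real.log Δ) := by
    push_cast
    field_simp
  rw [h8] at h7
  linarith

end Pool.Agent.Lib.Pabc14
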