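import Pool.Agent.Lib.Pabc14.AttrLemmas
import Pool.Agent.Lib.Pabc14.CountBound

/-!
# The count with fixed attributes
-/

open Finset

namespace Pool.Agent.Lib.Pabc14

open Pool.Agent.Lib.Pabc2 Pool.Agent.Lib.Pabc1 Pool.Agent.Lib.Pabc8

/-- The hypothesis on a triple: the attributes are fixed. -/
structure Attr (P : Par) (Kp : ℕ) (x H v η : ℝ) (q : ℕ) (l : Fin 3)
    (σ : ℕ → Fin (P.w + 1) × Bool) (ω : ℕ → Bool × ℕ) (θ : Slot P.w → ℕ) (t : ℕ × ℕ) : Prop where
  isT : IsT t
  tw_le : tw t ≤ x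
  ht_ge : H ≤ ht t
  ht_le : ht t ≤ 2 * H
  dvd : q ∣ comp t l
  wt_le : tw t - wt t l ≤ 2 * v * x
  typ : ∀ p ∈ tpr P (H / x) t l,
    ω p = (decide (lab t p = lM l), ty (P.m0 * Kp) P.a1 (H / x) (ex t p))
  mid : ∑ p ∈ (tpr P (H / x) t l).filter
    (fun p => (ω p).2 < P.m0 * Kp * (P.a1 - P.a2)), Real.log (p : ℝ) ≤ η * x
  wgt : ∀ s, θ s = ⌊P.Θ * Ws P Kp (H / x) σ ω l t s / x⌋₊
  small : ∀ s : Slot P.w, ∀ g, s.2 = some (g, false) → P.w * Ws P Kp (H / x) σ ω l t s ≤ 2 * x

/-- The free slots. -/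
def fre (w : ℕ) : Finset (Slot w) := Finset.univ.filter (fun s => s.2 = none)

/-- The weight of the free slots. -/
theorem free_weight {P : Par} {δ η : ℝ} (hP : P.Good δ η) {Kp : ℕ} (hKp : 0 < Kp) {x H v : ℝ}
    (hx : 0 < x) (hH : 0 < H) {q : ℕ} {l : Fin 3} {σ : ℕ → Fin (P.w + 1) × Bool}
    {ω : ℕ → Bool × ℕ} {θ : Slot P.w → ℕ} {t : ℕ × ℕ} (hA : Attr P Kp x H v η q l σ ω θ t) :
    ∑ s ∈ fre P.w, Ws P Kp (H / x) σ ω l t s ≤ 2 * η * x := by
  classical
  have hh : 0 < H / x := by positivity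
  have hm : 0 < P.m0 := hP.hm
  have hK0 : 0 < P.m0 * Kp := Nat.mul_pos hm hKp
  set A := (tpr P (H / x) t l).filter (fun p => (ω p).2 < P.m0 * Kp * (P.a1 - P.a2)) with hA'
  set B := (tpr P (H / x) t l).filter (fun p => H / x * Real.exp P.a3 ≤ ex t p) with hB
  have h1 : ∑ s ∈ fre P.w, Ws P Kp (H / x) σ ω l t s =
      ∑ p ∈ (tpr P (H / x) t l).filter (fun p => (slt P Kp σ ω p).2 = none),
        Real.log (p : ℝ) := by
    unfold fre Ws
    rw [← Finset.sum_biUnion]
    · apply Finset.sum_congr _ (fun _ _ => rfl)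
      ext p
      simp only [Finset.mem_biUnion, Finset.mem_filter, Finset.mem_univ, true_and]
      constructor
      · rintro ⟨s, hs, hp, rfl⟩
        exact ⟨hp, hs⟩
      · rintro ⟨hp, hs⟩
        exact ⟨slt P Kp σ ω p, hs, hp, rfl⟩
    · intro s _ s' _ hss
      rw [Function.onFun, Finset.disjoint_left]
      intro p hp hp'
      rw [Finset.mem_filter] at hp hp'
      exact hss (hp.2.symm.trans hp'.2)
  have h2 : (tpr P (H / x) t l).filter (fun p => (slt P Kp σ ω p).2 = none) ⊆ A ∪ B := by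
    intro p hp
    rw [Finset.mem_filter] at hp
    obtain ⟨hp1, hp2⟩ := hp
    rw [Finset.mem_union, hA', hB, Finset.mem_filter, Finset.mem_filter]
    unfold slt at hp2
    simp only at hp2
    split_ifs at hp2 with hc
    rcases lt_or_ge (ω p).2 (P.m0 * Kp * (P.a1 - P.a2)) with h | h
    · left; exact ⟨hp1, h⟩
    · right
      refine ⟨hp1, ?_⟩
      have h3 : P.m0 * Kp * (P.a1 + P.a3) ≤ (ω p).2 := by
        by_contra hcon
        push Not at hcon
        exact hc ⟨h, hcon⟩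
      have h4 := hA.typ p hp1
      rw [h4] at h3
      simp only at h3
      have h5 := (mul_le_ty_iff hK0 hh (Finset.mem_filter.mp hp1).2).mp h3
      rwa [Nat.cast_add, add_sub_cancel_left] at h5
  have h3 : ∑ p ∈ B, Real.log (p : ℝ) ≤ η * x := by
    have g1 : H / x * Real.exp P.a3 * ∑ p ∈ B, Real.log (p : ℝ) ≤ 4 * H := by
      rw [Finset.mul_sum]
      calc ∑ p ∈ B, H / x * Real.exp P.a3 * Real.log (p : ℝ)
          ≤ ∑ p ∈ B, (ex t p : ℝ) * Real.log p :=
            Finset.sum_le_sum (fun p hp => mul_le_mul_of_nonneg_right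
              (Finset.mem_filter.mp hp).2 (Real.log_natCast_nonneg p))
        _ ≤ ∑ p ∈ oprimes t l, (ex t p : ℝ) * Real.log p :=
            Finset.sum_le_sum_of_subset_of_nonneg
              ((Finset.filter_subset _ _).trans (tpr_subset _ _ _ _))
              (fun p _ _ => mul_nonneg (Nat.cast_nonneg _) (Real.log_natCast_nonneg p))
        _ ≤ 2 * ht t := oprimes_mass hA.isT l
        _ ≤ 4 * H := by
            have := hA.ht_le
            linarith
    have g2 := hP.c6
    have g3 : 0 ≤ ∑ p ∈ B, Real.log (p : ℝ) :=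
      Finset.sum_nonneg (fun p _ => Real.log_natCast_nonneg p)
    set S := ∑ p ∈ B, Real.log (p : ℝ) with hS
    have g4 : Real.exp P.a3 * S ≤ 4 * x := by
      have e1 : H / x * Real.exp P.a3 * S = H * (Real.exp P.a3 * S) / x := by ring
      rw [e1, div_le_iff₀ hx] at g1
      have e2 : H * (Real.exp P.a3 * S) ≤ H * (4 * x) := by linarith
      exact le_of_mul_le_mul_left e2 hH
    have g5 : S = Real.exp (-(P.a3 : ℝ)) * (Real.exp P.a3 * S) := by
      rw [← mul_assoc, ← Real.exp_add, neg_add_cancel, Real.exp_zero, one_mul]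
    rw [g5]
    calc Real.exp (-(P.a3 : ℝ)) * (Real.exp P.a3 * S) ≤ Real.exp (-(P.a3 : ℝ)) * (4 * x) :=
          mul_le_mul_of_nonneg_left g4 (Real.exp_pos _).le
      _ = 4 * Real.exp (-(P.a3 : ℝ)) * x := by ring
      _ ≤ η * x := mul_le_mul_of_nonneg_right g2 hx.le
  rw [h1]
  have h4 : ∑ p ∈ (tpr P (H / x) t l).filter (fun p => (slt P Kp σ ω p).2 = none),
      Real.log (p : ℝ) ≤ ∑ p ∈ A ∪ B, Real.log (p : ℝ) :=
    Finset.sum_le_sum_of_subset_of_nonneg h2 (fun p _ _ => Real.log_natCast_nonneg p)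
  have h5 := Finset.sum_union_inter (s₁ := A) (s₂ := B) (f := fun p : ℕ => Real.log (p : ℝ))
  have h6 : 0 ≤ ∑ p ∈ A ∩ B, Real.log (p : ℝ) :=
    Finset.sum_nonneg (fun p _ => Real.log_natCast_nonneg p)
  have h7 := hA.mid
  linarith

theorem count_attr (P : Par) {δ η : ℝ} (hδ : 0 < δ) (hη : 0 < η) (hη1 : η ≤ 1)
    (hP : P.Good δ η) (Kp : ℕ) (x H ρ v Δ : ℝ) (hx : 0 < x)
    (hKp : 4 ≤ Real.exp (-(P.a1 : ℝ)) * (P.m0 * Kp)) (hxΘ : (P.Θ : ℝ) * P.m0 ≤ x)
    (hH1 : 7680 * P.w * x ≤ δ * H) (hH2 : P.m0 * Real.exp P.a2 * x ≤ H) (hH3 : 1000 ≤ δ * H)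
    (hρ : 0 ≤ ρ) (hΔ1 : 1 ≤ Δ)
    (hΔ : ∀ k : ℕ, 0 < k → Real.log k ≤ 8 * P.w * x → (k.divisors.card : ℝ) ≤ Δ)
    (hΔ2 : 4 * P.w * Real.log Δ ≤ η * x) (q : ℕ) (hq : 0 < q) (hq1 : δ * H ≤ Real.log q)
    (hq2 : Real.log ((∏ p ∈ q.primeFactors, p : ℕ) : ℝ) ≤ ρ * x) (l : Fin 3)
    (σ : ℕ → Fin (P.w + 1) × Bool) (ω : ℕ → Bool × ℕ) (θ : Slot P.w → ℕ)
    (hσ1 : ∀ i < P.m0 * (P.a2 + P.a3), ∀ j < P.m0 * (P.a2 + P.a3), σ i = σ j →
      (σ i).2 = true → i = j)
    (hσ2 : ∀ i < P.m0 * (P.a2 + P.a3), ∀ j < P.m0 * (P.a2 + P.a3), σ i = σ j →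
      (σ i).2 = false → (P.w : ℝ) * ((j : ℝ) - i + 1) ≤ 2 * (P.m0 * (P.a2 + P.a3)))
    (T : Finset (ℕ × ℕ)) (hT : ∀ t ∈ T, Attr P Kp x H v η q l σ ω θ t) :
    (T.card : ℝ) ≤ Real.exp ((v + ρ + 12 * η) * x) := by
  classical
  rcases T.eq_empty_or_nonempty with hTe | ⟨t0, ht0⟩
  · rw [hTe, Finset.card_empty, Nat.cast_zero]
    exact (Real.exp_pos _).le
  have hm : (1 : ℝ) ≤ P.m0 := by exact_mod_cast hP.hm
  have hm0 : (0 : ℝ) < P.m0 := by linarith
  have hw2 : (2 : ℝ) ≤ P.w := by exact_mod_cast hP.hw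
  have hw0 : (0 : ℝ) < P.w := by linarith
  have hΘw : (P.w : ℝ) ≤ P.Θ := by exact_mod_cast hP.hΘ
  have hΘ0 : (0 : ℝ) < P.Θ := by linarith
  have hKp0 : 0 < Kp := by
    by_contra hcon
    have : Kp = 0 := by omega
    rw [this] at hKp
    simp only [Nat.cast_zero, mul_zero] at hKp
    linarith
  have hH0 : 0 < H := by
    have : 0 < δ * H := by linarith
    by_contra hcon
    push Not at hcon
    nlinarith
  set h := H / x with hh
  have hh0 : 0 < h := by positivity
  have hHh : H = h * x := by rw [hh]; field_simp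
  have hh2 : P.m0 * Real.exp P.a2 ≤ h := by
    rw [hh, le_div_iff₀ hx]
    exact hH2
  have ha2 : (1 : ℝ) ≤ Real.exp P.a2 := Real.one_le_exp (Nat.cast_nonneg _)
  have hh1 : 1 ≤ h := by
    have : 1 * 1 ≤ (P.m0 : ℝ) * Real.exp P.a2 := mul_le_mul hm ha2 (by norm_num) hm0.le
    linarith
  have h5 : 1000 ≤ Real.log q := by linarith
  obtain ⟨im, him⟩ := exists_im (P.m0 * (P.a2 + P.a3)) σ
  have hWD : (2 : ℝ) ^ P.D = 4 * P.w := by exact_mod_cast hP.hD
  have hWD1 : (2 : ℝ) ^ (P.D + 1) = 8 * P.w := by rw [pow_succ, hWD]; ring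
  set e : ℕ → ℕ := fun p => e0 (P.m0 * Kp) P.a1 h (ω p).2 with he
  set y : Slot P.w → ℝ := fun s => ((θ s : ℝ) + 1) / P.Θ * x with hy
  set lam : ℝ := 2 * Real.exp (-(P.a1 : ℝ)) * H with hlam
  have hlam0 : 0 ≤ lam := by positivity
  have hK0 : 0 < P.m0 * Kp := Nat.mul_pos hP.hm hKp0
  -- the weights
  have hWy : ∀ t ∈ T, ∀ s, Ws P Kp h σ ω l t s ≤ y s := by
    intro t ht' s
    have h1 := (hT t ht').wgt s
    have h2 : P.Θ * Ws P Kp h σ ω l t s / x < (θ s : ℝ) + 1 := by
      rw [h1]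
      exact Nat.lt_floor_add_one _
    simp only [hy]
    rw [div_lt_iff₀ hx] at h2
    rw [div_mul_eq_mul_div, le_div_iff₀ hΘ0]
    linarith
  have hyW : ∀ t ∈ T, ∀ s, y s ≤ Ws P Kp h σ ω l t s + x / P.Θ := by
    intro t ht' s
    have h1 := (hT t ht').wgt s
    have h2 : (θ s : ℝ) ≤ P.Θ * Ws P Kp h σ ω l t s / x := by
      rw [h1]
      apply Nat.floor_le
      have := Ws_nonneg P Kp h σ ω l t s
      positivity
    simp only [hy]
    rw [le_div_iff₀ hx] at h2
    rw [div_mul_eq_mul_div, div_le_iff₀ hΘ0]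
    have h3 : x / P.Θ * P.Θ = x := div_mul_cancel₀ _ hΘ0.ne'
    linarith
  have hy0 : ∀ s, x / P.Θ ≤ y s := by
    intro s
    simp only [hy]
    rw [div_mul_eq_mul_div]
    apply div_le_div_of_nonneg_right _ hΘ0.le
    have : (0 : ℝ) ≤ θ s := Nat.cast_nonneg _
    nlinarith
  have hxΘ1 : (P.m0 : ℝ) ≤ x / P.Θ := by
    rw [le_div_iff₀ hΘ0]
    linarith
  have hypos : ∀ s, 0 < y s := fun s => by
    have := hy0 s
    linarith
  -- sums of the weights
  have hcard : (Fintype.card (Slot P.w) : ℝ) = 4 * P.w + 6 := by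
    rw [card_slot]
    push_cast
    ring
  have hc5 : (4 * (P.w : ℝ) + 6) * (x / P.Θ) ≤ η * x := by
    have := mul_le_mul_of_nonneg_right hP.c5 hx.le
    calc (4 * (P.w : ℝ) + 6) * (x / P.Θ) = (4 * (P.w : ℝ) + 6) / P.Θ * x := by ring
      _ ≤ η * x := this
  have hA0 := hT t0 ht0
  have hsumW : ∑ s, y s ≤ (tw t0 - wt t0 l) + η * x := by
    calc ∑ s, y s ≤ ∑ s, (Ws P Kp h σ ω l t0 s + x / P.Θ) :=
          Finset.sum_le_sum (fun s _ => hyW t0 ht0 s)
      _ = ∑ p ∈ tpr P h t0 l, Real.log (p : ℝ) + (4 * P.w + 6) * (x / P.Θ) := by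
          rw [Finset.sum_add_distrib, sum_Ws, Finset.sum_const, nsmul_eq_mul, Finset.card_univ,
            hcard]
      _ ≤ (tw t0 - wt t0 l) + η * x := by
          have g1 : ∑ p ∈ tpr P h t0 l, Real.log (p : ℝ) ≤ ∑ p ∈ oprimes t0 l, Real.log (p : ℝ) :=
            Finset.sum_le_sum_of_subset_of_nonneg (tpr_subset _ _ _ _)
              (fun p _ _ => Real.log_natCast_nonneg p)
          rw [oprimes_weight] at g1
          linarith
  have hsum1 : ∑ s, y s ≤ (2 * v + η) * x := by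
    have := hA0.wt_le
    linarith
  have hsum2 : ∑ s, y s ≤ 2 * x := by
    have g1 := hA0.tw_le
    have g2 := wt_nonneg t0 l
    have g3 : η * x ≤ 1 * x := mul_le_mul_of_nonneg_right hη1 hx.le
    linarith
  have hyle : ∀ s, y s ≤ 2 * x := fun s =>
    (Finset.single_le_sum (f := y) (fun s _ => (hypos s).le) (Finset.mem_univ s)).trans hsum2
  have hfree : ∑ s ∈ fre P.w, y s ≤ 3 * η * x := by
    have g1 := free_weight hP hKp0 hx hH0 hA0
    rw [← hh] at g1
    calc ∑ s ∈ fre P.w, y s ≤ ∑ s ∈ fre P.w, (Ws P Kp h σ ω l t0 s + x / P.Θ) :=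
          Finset.sum_le_sum (fun s _ => hyW t0 ht0 s)
      _ = ∑ s ∈ fre P.w, Ws P Kp h σ ω l t0 s + (fre P.w).card * (x / P.Θ) := by
          rw [Finset.sum_add_distrib, Finset.sum_const, nsmul_eq_mul]
      _ ≤ 2 * η * x + (4 * P.w + 6) * (x / P.Θ) := by
          apply add_le_add g1
          apply mul_le_mul_of_nonneg_right _ (by positivity)
          rw [← hcard]
          exact_mod_cast Finset.card_le_univ _
      _ ≤ 3 * η * x := by linarith
  -- the constants
  have hE3 := Real.exp_pos (P.a3 : ℝ)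
  set E : ℝ := 48 * (P.a2 + P.a3) / P.w + 24 * P.w / P.m0 with hE
  have hE0 : 0 ≤ E := by positivity
  have hc1 : 147456 * Real.exp P.a3 * (2 * E) ≤ η * δ := by
    refine le_trans (le_of_eq ?_) hP.c1
    rw [hE]
    ring
  have hc2 := hP.c2
  have hE1 := Real.exp_pos (-(P.a1 : ℝ))
  have hηδ : η * δ ≤ δ := by
    have := mul_le_mul_of_nonneg_right hη1 hδ.le
    linarith
  set Λ : ℝ := 2 ^ (P.D + 1) * lam with hΛ
  have hΛe : Λ = 16 * P.w * Real.exp (-(P.a1 : ℝ)) * H := by
    rw [hΛ, hWD1, hlam]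
    ring
  have hΛ0 : 0 ≤ Λ := by rw [hΛe]; positivity
  have hΛ1 : 147456 * Λ ≤ 2 * (η * δ) * H := by
    rw [hΛe]
    have := mul_le_mul_of_nonneg_right hc2 hH0.le
    nlinarith
  -- the constrained slots
  have hkap : ∀ u, 1 / (P.m0 : ℝ) ≤ kap P u ∧ kap P u ≤ η := by
    intro u
    have g1 := hP.c4
    have g2 : 0 ≤ 4 * ((P.a2 : ℝ) + P.a3) / P.w := by positivity
    have g3 : 1 / (P.m0 : ℝ) ≤ 3 / P.m0 := div_le_div_of_nonneg_right (by norm_num) hm0.le
    unfold kap
    split_ifs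
    · exact ⟨g3, by linarith⟩
    · exact ⟨by linarith, by linarith⟩
  have hkE : ∀ s : Slot P.w, ∀ u, s.2 = some u → kap P u * (4 * P.w * y s) ≤ E * x := by
    intro s u hs
    have hE' : E * x = 48 * (P.a2 + P.a3) / P.w * x + 24 * P.w / P.m0 * x := by rw [hE]; ring
    unfold kap
    split_ifs with hu
    · have g1 := mul_le_mul_of_nonneg_left (hyle s) (show 0 ≤ 3 / (P.m0 : ℝ) * (4 * P.w) by positivity)
      have g2 : 0 ≤ 48 * ((P.a2 : ℝ) + P.a3) / P.w * x := by positivity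
      have g3 : 3 / (P.m0 : ℝ) * (4 * P.w) * (2 * x) = 24 * P.w / P.m0 * x := by ring
      rw [hE']
      linarith
    · have hu' : u.2 = false := by simpa using hu
      have g0 : s.2 = some (u.1, false) := by
        rw [hs, ← hu']
      have g1 := hA0.small s u.1 g0
      rw [← hh] at g1
      have g2 := hyW t0 ht0 s
      have g3 : P.w * (x / P.Θ) ≤ x := by
        calc (P.w : ℝ) * (x / P.Θ) ≤ P.Θ * (x / P.Θ) :=
              mul_le_mul_of_nonneg_right hΘw (by positivity)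
          _ = x := by field_simp
      have g4 : P.w * y s ≤ 3 * x := by
        have := mul_le_mul_of_nonneg_left g2 hw0.le
        linarith
      have g5 := mul_le_mul_of_nonneg_left g4
        (show 0 ≤ (4 * ((P.a2 : ℝ) + P.a3) / P.w + 1 / P.m0) * 4 by positivity)
      have g6 : 12 / (P.m0 : ℝ) * x ≤ 24 * P.w / P.m0 * x := by
        apply mul_le_mul_of_nonneg_right _ hx.le
        apply div_le_div_of_nonneg_right _ hm0.le
        linarith
      rw [hE']
      have g7 : (4 * ((P.a2 : ℝ) + P.a3) / P.w + 1 / P.m0) * 4 * (3 * x) =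
          48 * (P.a2 + P.a3) / P.w * x + 12 / P.m0 * x := by ring
      linarith
  have hrlow : ∀ u, h * Real.exp (-(P.a2 : ℝ)) ≤ rr P Kp h im u := fun u =>
    rr_low hP hKp0 hh0.le im u
  have hrup : ∀ u, (rr P Kp h im u : ℝ) ≤ 2 * h * Real.exp P.a3 := fun u =>
    rr_upper hP hKp0 hh1 im u (him u).1
  have hrpos : ∀ u, (0 : ℝ) < rr P Kp h im u := fun u =>
    lt_of_lt_of_le (by positivity) (hrlow u)
  -- the functions on the slots
  set us : Slot P.w → Fin (P.w + 1) × Bool := fun s => s.2.getD (0, true) with hus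
  have hus1 : ∀ s, s ∉ fre P.w → s.2 = some (us s) := by
    intro s hs
    unfold fre at hs
    simp only [Finset.mem_filter, Finset.mem_univ, true_and] at hs
    obtain ⟨u, hu⟩ := Option.ne_none_iff_exists'.mp hs
    simp only [hus, hu, Option.getD_some]
  have hkry : ∀ s, s ∉ fre P.w →
      kap P (us s) * rr P Kp h im (us s) * (4 * P.w * y s) ≤ 2 * Real.exp P.a3 * E * H := by
    intro s hs
    have g1 := hkE s (us s) (hus1 s hs)
    have g2 := hrup (us s)
    calc kap P (us s) * rr P Kp h im (us s) * (4 * P.w * y s) =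
        rr P Kp h im (us s) * (kap P (us s) * (4 * P.w * y s)) := by ring
      _ ≤ (2 * h * Real.exp P.a3) * (E * x) := by
          apply mul_le_mul g2 g1 _ (by positivity)
          have := (hypos s).le
          have g3 := (hkap (us s)).1
          have g4 : 0 < 1 / (P.m0 : ℝ) := by positivity
          have g5 : 0 ≤ kap P (us s) := by linarith
          positivity
      _ = 2 * Real.exp P.a3 * E * H := by rw [hHh]; ring
  have key := count_bound P.D (by
      rw [card_slot, pow_succ, hP.hD]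
      have := hP.hw
      omega) q hq l (slt P Kp σ ω) (fun s => s.1) e y lam hlam0 (by
      have g1 : 2 * lam = 4 * Real.exp (-(P.a1 : ℝ)) * H := by rw [hlam]; ring
      rw [g1]
      have g2 : 1179648 * (P.w : ℝ) * Real.exp (-(P.a1 : ℝ)) * H ≤ η * δ * H :=
        mul_le_mul_of_nonneg_right hc2 hH0.le
      have g3 : η * δ * H ≤ δ * H := mul_le_mul_of_nonneg_right hηδ hH0.le
      have g4 : 0 < Real.exp (-(P.a1 : ℝ)) * H := by positivity
      nlinarith) T (fun t => tpr P h t l) (by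
      intro t ht'
      have hA := hT t ht'
      have hbase : ∀ p ∈ tpr P h t l, h * Real.exp (-(P.a1 : ℝ)) ≤ ex t p := fun p hp =>
        (Finset.mem_filter.mp hp).2
      have hep : ∀ p ∈ tpr P h t l, e p = e0 (P.m0 * Kp) P.a1 h (ty (P.m0 * Kp) P.a1 h (ex t p)) :=
        fun p hp => by
          simp only [he]
          rw [hA.typ p hp]
      refine ⟨hA.isT, hA.dvd, tpr_subset _ _ _ _, ?_, ?_, ?_, ?_⟩
      · intro p hp
        rw [hep p hp]
        exact e0_ty_le hK0 hh0 (hbase p hp)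
      · intro p hp
        show (slt P Kp σ ω p).1 = true ↔ _
        unfold slt
        simp only
        rw [hA.typ p hp]
        simp only [decide_eq_true_eq]
      · apply mass_ok P hx hH0 hKp hA.isT hA.tw_le hA.ht_le
        intro p hp
        rw [← hh] at hp
        rw [hep p hp]
        exact sub_e0_ty_le hK0 hh0 (hbase p hp)
      · intro s
        exact hWy t ht' s) (fre P.w) (fun s => rr P Kp h im (us s)) (fun s => kap P (us s)) Δ hΔ1 h5
    (by
      intro s hs
      rw [← hΛ, hWD]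
      have hk := hkap (us s)
      have hk0 : 0 < 1 / (P.m0 : ℝ) := by positivity
      have hyy := hypos s
      have hr := hrpos (us s)
      have hy1 := hy0 s
      have hy2 := hyle s
      have g1 : (P.m0 : ℝ) ≤ 4 * P.w * y s := by
        have : y s ≤ 4 * P.w * y s := by nlinarith
        linarith
      refine ⟨by linarith, by linarith, ?_, by linarith, ?_, ?_, ?_, ?_, ?_⟩
      · exact_mod_cast hr
      · have : 4 * (P.w : ℝ) * y s ≤ 4 * P.w * (2 * x) :=
          mul_le_mul_of_nonneg_left hy2 (by positivity)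
        linarith
      · have g2 := hkry s hs
        have g3 : 147456 * (2 * Real.exp P.a3 * E * H) ≤ η * δ * H := by
          have := mul_le_mul_of_nonneg_right hc1 hH0.le
          linarith
        have g4 : η * δ * H ≤ δ * H := mul_le_mul_of_nonneg_right hηδ hH0.le
        have g5 : 0 < δ * H := by positivity
        linarith
      · have g2 : 1 ≤ kap P (us s) * (4 * P.w * y s) := by
          calc (1 : ℝ) = 1 / P.m0 * P.m0 := by field_simp
            _ ≤ kap P (us s) * (4 * P.w * y s) := mul_le_mul hk.1 g1 hm0.le (by linarith)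
        have g3 := mul_le_mul_of_nonneg_left g2 hr.le
        nlinarith
      · intro p hp
        simp only [he]
        have hpe : slt P Kp σ ω p = (s.1, some (us s)) := by
          rw [hp, ← hus1 s hs]
        exact exps_ok hP hη1 hKp0 hh2 σ ω hσ1 hσ2 im him s.1 (us s) p hpe
      · intro k hk1 hk2
        apply hΔ k hk1
        have : 4 * (P.w : ℝ) * y s ≤ 4 * P.w * (2 * x) :=
          mul_le_mul_of_nonneg_left hy2 (by positivity)
        linarith)
  refine key.trans ?_
  rw [Real.exp_le_exp, ← hΛ, hWD1, hWD]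
  rw [div_le_iff₀ (by positivity)]
  -- the bound for `XX`
  have hlq : 0 < Real.log q := by linarith
  have hXX : ∀ s ∈ (fre P.w)ᶜ, XX q (rr P Kp h im (us s)) (kap P (us s)) (4 * P.w * y s) Λ ≤
      5 * η * (4 * P.w * y s) + ρ * x + η * x := by
    intro s hs
    rw [Finset.mem_compl] at hs
    unfold XX
    have hyy := hypos s
    have hB0 : 0 ≤ 4 * P.w * y s := by positivity
    have g1 := hkry s hs
    have g2 : 147456 * (kap P (us s) * rr P Kp h im (us s) * (4 * P.w * y s) + Λ) ≤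
        3 * (η * δ) * H := by
      have g3 : 147456 * (2 * Real.exp P.a3 * E * H) ≤ η * δ * H := by
        have := mul_le_mul_of_nonneg_right hc1 hH0.le
        linarith
      linarith
    have g3 : 147456 * (kap P (us s) * rr P Kp h im (us s) * (4 * P.w * y s) + Λ) *
        (4 * P.w * y s) / Real.log q ≤ 3 * η * (4 * P.w * y s) := by
      rw [div_le_iff₀ hlq]
      calc 147456 * (kap P (us s) * rr P Kp h im (us s) * (4 * P.w * y s) + Λ) *
          (4 * P.w * y s) ≤ 3 * (η * δ) * H * (4 * P.w * y s) :=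
            mul_le_mul_of_nonneg_right g2 hB0
        _ = 3 * η * (4 * P.w * y s) * (δ * H) := by ring
        _ ≤ 3 * η * (4 * P.w * y s) * Real.log q :=
            mul_le_mul_of_nonneg_left hq1 (by positivity)
    have g4 : kap P (us s) * (4 * P.w * y s) ≤ η * (4 * P.w * y s) :=
      mul_le_mul_of_nonneg_right (hkap (us s)).2 hB0
    have g5 : 2 * (Λ / rr P Kp h im (us s)) ≤ η * x := by
      have g6 := hrlow (us s)
      have g7 : Λ / rr P Kp h im (us s) ≤ Λ / (h * Real.exp (-(P.a2 : ℝ))) :=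
        div_le_div_of_nonneg_left hΛ0 (by positivity) g6
      have g8 : Λ / (h * Real.exp (-(P.a2 : ℝ))) =
          16 * P.w * Real.exp ((P.a2 : ℝ) - P.a1) * x := by
        rw [hΛe, div_eq_iff (by positivity), hHh]
        have : Real.exp ((P.a2 : ℝ) - P.a1) * Real.exp (-(P.a2 : ℝ)) =
            Real.exp (-(P.a1 : ℝ)) := by
          rw [← Real.exp_add]
          congr 1
          ring
        rw [← this]
        ring
      have g9 := mul_le_mul_of_nonneg_right hP.c3 hx.le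
      linarith
    linarith
  have hsplit : ∑ s ∈ (fre P.w)ᶜ, (XX q (rr P Kp h im (us s)) (kap P (us s)) (4 * P.w * y s) Λ +
      4 * P.w * y s + 4 * P.w * Real.log Δ) ≤
      (5 * η + 1) * (4 * P.w * ∑ s, y s) + (8 * P.w) * (ρ * x + η * x + η * x) := by
    have hη0 : 0 ≤ ρ * x + η * x + η * x := by positivity
    calc ∑ s ∈ (fre P.w)ᶜ, (XX q (rr P Kp h im (us s)) (kap P (us s)) (4 * P.w * y s) Λ +
          4 * P.w * y s + 4 * P.w * Real.log Δ)
        ≤ ∑ s ∈ (fre P.w)ᶜ, ((5 * η + 1) * (4 * P.w * y s) + (ρ * x + η * x + η * x)) := by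
          apply Finset.sum_le_sum
          intro s hs
          have := hXX s hs
          linarith
      _ = (5 * η + 1) * (4 * P.w * ∑ s ∈ (fre P.w)ᶜ, y s) +
            ((fre P.w)ᶜ.card : ℝ) * (ρ * x + η * x + η * x) := by
          rw [Finset.sum_add_distrib, Finset.sum_const, nsmul_eq_mul, Finset.mul_sum,
            Finset.mul_sum]
      _ ≤ (5 * η + 1) * (4 * P.w * ∑ s, y s) + (8 * P.w) * (ρ * x + η * x + η * x) := by
          apply add_le_add
          · apply mul_le_mul_of_nonneg_left _ (by positivity)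
            apply mul_le_mul_of_nonneg_left _ (by positivity)
            exact Finset.sum_le_sum_of_subset_of_nonneg (Finset.subset_univ _)
              (fun s _ _ => (hypos s).le)
          · apply mul_le_mul_of_nonneg_right _ hη0
            have g1 : ((fre P.w)ᶜ.card : ℝ) ≤ 4 * P.w + 6 := by
              rw [← hcard]
              exact_mod_cast Finset.card_le_univ _
            linarith
  have hfr2 : ∑ s ∈ fre P.w, 8 * P.w * y s ≤ 8 * P.w * (3 * η * x) := by
    rw [← Finset.mul_sum]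
    exact mul_le_mul_of_nonneg_left hfree (by positivity)
  have hs1 : 4 * P.w * ∑ s, y s ≤ 4 * P.w * ((2 * v + η) * x) :=
    mul_le_mul_of_nonneg_left hsum1 (by positivity)
  have hs2 : 5 * η * (4 * P.w * ∑ s, y s) ≤ 5 * η * (4 * P.w * (2 * x)) :=
    mul_le_mul_of_nonneg_left (mul_le_mul_of_nonneg_left hsum2 (by positivity)) (by positivity)
  have hfin : 0 ≤ P.w * (η * x) := by positivity
  linarith

end Pool.Agent.Lib.Pabc14
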