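import Pool.Agent.Lib.Pabc14.CountDet
import Pool.Agent.Lib.Pabc11.Final
import Pool.Agent.Lib.KeZhao.Divisor

/-!
# The count for one scale, for large radicals
-/

open Finset Filter Topology

namespace Pool.Agent.Lib.Pabc14

open Pool.Agent.Lib.Pabc2 Pool.Agent.Lib.Pabc1 Pool.Agent.Lib.Pabc8

/-- Good parameters exist. -/
theorem exists_par (δ η : ℝ) (hδ : 0 < δ) (hη : 0 < η) (a2 : ℕ) :
    ∃ P : Par, P.a2 = a2 ∧ P.Good δ η := by
  have hηδ : 0 < η * δ := by positivity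
  -- `a3`
  obtain ⟨n3, hn3⟩ := exists_nat_gt (4 / η)
  set a3 := n3 + 1 with ha3
  have h6 : 4 * Real.exp (-(a3 : ℝ)) ≤ η := by
    have g1 : (a3 : ℝ) + 1 ≤ Real.exp a3 := Real.add_one_le_exp _
    have g2 : 4 / η ≤ Real.exp a3 := by
      rw [ha3] at g1 ⊢
      push_cast at g1 ⊢
      linarith
    rw [Real.exp_neg, ← div_eq_mul_inv, div_le_iff₀ (Real.exp_pos _)]
    rw [div_le_iff₀ hη] at g2
    linarith
  -- `w`
  obtain ⟨j, hj⟩ := exists_nat_gt (2 * (147456 * Real.exp a3 * (96 * (a2 + a3))) / (η * δ) +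
    8 * (a2 + a3) / η + 2)
  set w := 2 ^ j with hw
  have hjw : (j : ℝ) ≤ w := by
    have : j < 2 ^ j := Nat.lt_two_pow_self
    exact_mod_cast this.le
  have hw0 : (0 : ℝ) < w := by rw [hw]; positivity
  have hA1 : 0 ≤ 2 * (147456 * Real.exp a3 * (96 * ((a2 : ℝ) + a3))) / (η * δ) := by positivity
  have hA2 : 0 ≤ 8 * ((a2 : ℝ) + a3) / η := by positivity
  have hw1 : 2 * (147456 * Real.exp a3 * (96 * ((a2 : ℝ) + a3))) ≤ η * δ * w := by
    have : 2 * (147456 * Real.exp a3 * (96 * ((a2 : ℝ) + a3))) / (η * δ) ≤ w := by linarith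
    rw [div_le_iff₀ hηδ] at this
    linarith
  have hw2 : 8 * ((a2 : ℝ) + a3) ≤ η * w := by
    have : 8 * ((a2 : ℝ) + a3) / η ≤ w := by linarith
    rw [div_le_iff₀ hη] at this
    linarith
  have hw3 : 2 ≤ w := by
    have : (2 : ℝ) ≤ w := by linarith
    exact_mod_cast this
  -- `m0`
  obtain ⟨m, hm⟩ := exists_nat_gt (2 * (147456 * Real.exp a3 * (48 * w)) / (η * δ) + 6 / η + 1)
  have hB1 : 0 ≤ 2 * (147456 * Real.exp a3 * (48 * (w : ℝ))) / (η * δ) := by positivity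
  have hB2 : 0 < 6 / η := by positivity
  have hm0 : (0 : ℝ) < m := by linarith
  have hm1 : 2 * (147456 * Real.exp a3 * (48 * (w : ℝ))) ≤ η * δ * m := by
    have : 2 * (147456 * Real.exp a3 * (48 * (w : ℝ))) / (η * δ) ≤ m := by linarith
    rw [div_le_iff₀ hηδ] at this
    linarith
  have hm2 : 6 ≤ η * m := by
    have : 6 / η ≤ m := by linarith
    rw [div_le_iff₀ hη] at this
    linarith
  -- `a1`
  obtain ⟨n1, hn1⟩ := exists_nat_gt (1179648 * w / (η * δ) + 32 * w / η)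
  have hC1 : 0 ≤ 1179648 * (w : ℝ) / (η * δ) := by positivity
  have hC2 : 0 ≤ 32 * (w : ℝ) / η := by positivity
  have hn1e : (n1 : ℝ) ≤ Real.exp n1 := by
    have := Real.add_one_le_exp (n1 : ℝ)
    linarith
  have ha2 : 1179648 * (w : ℝ) * Real.exp (-((a2 + n1 : ℕ) : ℝ)) ≤ η * δ := by
    have g1 : 1179648 * (w : ℝ) / (η * δ) ≤ Real.exp ((a2 + n1 : ℕ) : ℝ) := by
      have : Real.exp (n1 : ℝ) ≤ Real.exp ((a2 + n1 : ℕ) : ℝ) := by
        rw [Real.exp_le_exp]
        push_cast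
        have : (0 : ℝ) ≤ a2 := Nat.cast_nonneg _
        linarith
      linarith
    rw [Real.exp_neg, ← div_eq_mul_inv, div_le_iff₀ (Real.exp_pos _)]
    rw [div_le_iff₀ hηδ] at g1
    linarith
  have ha3' : 32 * (w : ℝ) * Real.exp ((a2 : ℝ) - ((a2 + n1 : ℕ) : ℝ)) ≤ η := by
    have e1 : (a2 : ℝ) - ((a2 + n1 : ℕ) : ℝ) = -(n1 : ℝ) := by push_cast; ring
    have g1 : 32 * (w : ℝ) / η ≤ Real.exp (n1 : ℝ) := by linarith
    rw [e1, Real.exp_neg, ← div_eq_mul_inv, div_le_iff₀ (Real.exp_pos _)]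
    rw [div_le_iff₀ hη] at g1
    linarith
  -- `Θ`
  obtain ⟨th, hth⟩ := exists_nat_gt ((4 * (w : ℝ) + 6) / η)
  have hth0 : 0 ≤ (4 * (w : ℝ) + 6) / η := by positivity
  refine ⟨⟨a2 + n1, a2, a3, w, m, j + 2, w + th⟩, rfl, ⟨?_, hw3, ?_, Nat.le_add_right _ _,
    Nat.le_add_left _ _, Nat.le_add_right _ _, ?_, ha2, ha3', ?_, ?_, h6⟩⟩
  · simp only [hw]
    rw [pow_add]
    ring
  · have : (0 : ℝ) < m := hm0
    exact_mod_cast this
  · simp only
    have e1 : 147456 * Real.exp a3 * (96 * ((a2 : ℝ) + a3) / w + 48 * w / m) =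
        (147456 * Real.exp a3 * (96 * ((a2 : ℝ) + a3))) / w +
          (147456 * Real.exp a3 * (48 * (w : ℝ))) / m := by ring
    rw [e1]
    have g1 : (147456 * Real.exp a3 * (96 * ((a2 : ℝ) + a3))) / w ≤ η * δ / 2 := by
      rw [div_le_iff₀ hw0]
      linarith
    have g2 : (147456 * Real.exp a3 * (48 * (w : ℝ))) / m ≤ η * δ / 2 := by
      rw [div_le_iff₀ hm0]
      linarith
    linarith
  · simp only
    have g1 : 4 * ((a2 : ℝ) + a3) / w ≤ η / 2 := by
      rw [div_le_iff₀ hw0]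
      linarith
    have g2 : 3 / (m : ℝ) ≤ η / 2 := by
      rw [div_le_iff₀ hm0]
      linarith
    linarith
  · simp only
    push_cast
    have g1 : 0 < (w : ℝ) + th := by
      have : (0 : ℝ) ≤ th := Nat.cast_nonneg _
      linarith
    rw [div_le_iff₀ g1]
    have g2 : (4 * (w : ℝ) + 6) / η ≤ (w : ℝ) + th := by linarith
    rw [div_le_iff₀ hη] at g2
    linarith

/-- The constant of the height. -/
noncomputable def K0 (P : Par) (δ : ℝ) : ℝ := 7680 * P.w / δ + P.m0 * Real.exp P.a2 + 1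

/-- The analytic facts which hold for large `x`. -/
theorem ev_par (P : Par) {δ η : ℝ} (hδ : 0 < δ) (hη : 0 < η) (hP : P.Good δ η) (A C : ℝ)
    (hA : 0 < A) :
    ∀ᶠ x : ℝ in atTop, 1 ≤ x ∧ 4 ≤ Real.exp (-(P.a1 : ℝ)) * (P.m0 * ⌈x ^ (η / 6)⌉₊) ∧
      (P.Θ : ℝ) * P.m0 ≤ x ∧ 1000 ≤ δ * x ∧ A ≤ Real.exp (η * x) ∧ C ≤ η * x ∧
      2 * ((⌊((P.m0 * ⌈x ^ (η / 6)⌉₊ : ℕ) : ℝ) * (Real.log (6 * x) + P.a1)⌋₊ + 1 : ℕ) : ℝ) ≤
        x ^ (η / 3) := by
  have hm : (1 : ℝ) ≤ P.m0 := by exact_mod_cast hP.hm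
  have hm0 : (0 : ℝ) < P.m0 := by linarith
  have t1 : Tendsto (fun x : ℝ => x ^ (η / 6)) atTop atTop := tendsto_rpow_atTop (by positivity)
  have t2 : Tendsto (fun x : ℝ => x ^ (η / 12)) atTop atTop := tendsto_rpow_atTop (by positivity)
  have hlog : ∀ᶠ x : ℝ in atTop, Real.log x ≤ x ^ (η / 12) := by
    have h1 := (isLittleO_log_rpow_atTop (show 0 < η / 12 by positivity)).bound
      (show (0 : ℝ) < 1 by norm_num)
    filter_upwards [h1, eventually_ge_atTop 1] with x hx hx1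
    rw [Real.norm_of_nonneg (Real.log_nonneg hx1), Real.norm_of_nonneg (by positivity),
      one_mul] at hx
    exact hx
  have t3 : Tendsto (fun x : ℝ => η * x) atTop atTop := tendsto_id.const_mul_atTop hη
  have t4 : Tendsto (fun x : ℝ => δ * x) atTop atTop := tendsto_id.const_mul_atTop hδ
  have t5 : Tendsto (fun x : ℝ => Real.exp (η * x)) atTop atTop := Real.tendsto_exp_atTop.comp t3
  filter_upwards [eventually_ge_atTop 1, t1.eventually_ge_atTop (4 * Real.exp P.a1),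
    eventually_ge_atTop ((P.Θ : ℝ) * P.m0), t4.eventually_ge_atTop 1000,
    t5.eventually_ge_atTop A, t3.eventually_ge_atTop C, hlog,
    t2.eventually_ge_atTop (4 * P.m0 * (1 + Real.log 6 + P.a1) + 2)] with x h1 h2 h3 h4 h5 h6 h7 h8
  refine ⟨h1, ?_, h3, h4, h5, h6, ?_⟩
  · have g1 : x ^ (η / 6) ≤ (⌈x ^ (η / 6)⌉₊ : ℝ) := Nat.le_ceil _
    have g2 : (⌈x ^ (η / 6)⌉₊ : ℝ) ≤ P.m0 * ⌈x ^ (η / 6)⌉₊ := by
      have : (0 : ℝ) ≤ (⌈x ^ (η / 6)⌉₊ : ℝ) := Nat.cast_nonneg _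
      nlinarith
    have g3 : 4 * Real.exp P.a1 ≤ P.m0 * ⌈x ^ (η / 6)⌉₊ := by linarith
    have g4 := mul_le_mul_of_nonneg_left g3 (Real.exp_pos (-(P.a1 : ℝ))).le
    have g5 : Real.exp (-(P.a1 : ℝ)) * (4 * Real.exp P.a1) = 4 := by
      have : Real.exp (-(P.a1 : ℝ)) * Real.exp P.a1 = 1 := by
        rw [← Real.exp_add, neg_add_cancel, Real.exp_zero]
      linarith
    linarith
  · have hx0 : 0 < x := by linarith
    have hx6 : 1 ≤ x ^ (η / 6) := Real.one_le_rpow h1 (by positivity)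
    have g1 : (⌈x ^ (η / 6)⌉₊ : ℝ) ≤ 2 * x ^ (η / 6) := by
      have := (Nat.ceil_lt_add_one (show 0 ≤ x ^ (η / 6) by positivity)).le
      linarith
    have g2 : Real.log (6 * x) = Real.log 6 + Real.log x := Real.log_mul (by norm_num) hx0.ne'
    have hl6 : 0 ≤ Real.log 6 := Real.log_nonneg (by norm_num)
    have hlx : 0 ≤ Real.log x := Real.log_nonneg h1
    have hx12 : 1 ≤ x ^ (η / 12) := Real.one_le_rpow h1 (by positivity)
    have g3 : Real.log (6 * x) + P.a1 ≤ (1 + Real.log 6 + P.a1) * x ^ (η / 12) := by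
      rw [g2]
      have e1 : Real.log 6 * 1 ≤ Real.log 6 * x ^ (η / 12) := mul_le_mul_of_nonneg_left hx12 hl6
      have e2 : (P.a1 : ℝ) * 1 ≤ P.a1 * x ^ (η / 12) :=
        mul_le_mul_of_nonneg_left hx12 (Nat.cast_nonneg _)
      linarith
    have g4 : ((P.m0 * ⌈x ^ (η / 6)⌉₊ : ℕ) : ℝ) * (Real.log (6 * x) + P.a1) ≤
        (P.m0 * (2 * x ^ (η / 6))) * ((1 + Real.log 6 + P.a1) * x ^ (η / 12)) := by
      push_cast
      apply mul_le_mul
      · exact mul_le_mul_of_nonneg_left g1 hm0.le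
      · exact g3
      · rw [g2]
        positivity
      · positivity
    have g5 : (⌊((P.m0 * ⌈x ^ (η / 6)⌉₊ : ℕ) : ℝ) * (Real.log (6 * x) + P.a1)⌋₊ : ℝ) ≤
        ((P.m0 * ⌈x ^ (η / 6)⌉₊ : ℕ) : ℝ) * (Real.log (6 * x) + P.a1) := by
      apply Nat.floor_le
      rw [g2]
      positivity
    have g6 : x ^ (η / 3) = x ^ (η / 6) * x ^ (η / 12) * x ^ (η / 12) := by
      rw [← Real.rpow_add hx0, ← Real.rpow_add hx0]
      congr 1
      ring
    push_cast at g5 ⊢
    rw [g6]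
    have g7 : 1 ≤ x ^ (η / 6) * x ^ (η / 12) := by nlinarith
    have g8 : x ^ (η / 6) * x ^ (η / 12) * (4 * P.m0 * (1 + Real.log 6 + P.a1) + 2) ≤
        x ^ (η / 6) * x ^ (η / 12) * x ^ (η / 12) :=
      mul_le_mul_of_nonneg_left h8 (by positivity)
    push_cast at g4
    nlinarith

theorem count_par (P : Par) {δ η : ℝ} (hδ : 0 < δ) (hη : 0 < η) (hη1 : η ≤ 1)
    (hP : P.Good δ η) :
    ∀ᶠ n : ℕ in atTop, ∀ (H ρ v : ℝ) (q : ℕ) (l : Fin 3) (T : Finset (ℕ × ℕ)),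
      K0 P δ * Real.log n ≤ H → 0 ≤ ρ → 0 < q → δ * H ≤ Real.log q →
      Real.log ((∏ p ∈ q.primeFactors, p : ℕ) : ℝ) ≤ ρ * Real.log n →
      (∀ t ∈ T, rd t ≤ n ∧ Base P (Real.log n) H v η q l t) →
      (T.card : ℝ) ≤ Real.exp ((v + ρ + 14 * η) * Real.log n) := by
  classical
  have hm : (1 : ℝ) ≤ P.m0 := by exact_mod_cast hP.hm
  have hw2 : (2 : ℝ) ≤ P.w := by exact_mod_cast hP.hw
  have hw0 : (0 : ℝ) < P.w := by linarith
  set ε : ℝ := η / (64 * P.w ^ 2) with hε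
  have hε0 : 0 < ε := by positivity
  obtain ⟨C, hC1, hC⟩ := Pool.Agent.KeZhao.divisor_bound ε hε0
  have hlog : Tendsto (fun n : ℕ => Real.log (n : ℝ)) atTop atTop :=
    Real.tendsto_log_atTop.comp tendsto_natCast_atTop_atTop
  have hnat : (0 : ℝ) < nattr P + 1 := by positivity
  filter_upwards [hlog.eventually (ev_par P hδ hη hP (nattr P + 1) (8 * P.w * Real.log C) hnat),
    hlog.eventually_gt_atTop 1, Pabc11.ev_card, eventually_ge_atTop 1] with n h1 hx1 hcard hn1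
    H ρ v q l T hH hρ hq hq1 hq2 hT
  obtain ⟨g1, g2, g3, g4, g5, g6, g7⟩ := h1
  set x := Real.log (n : ℝ) with hx
  have hx0 : 0 < x := by linarith
  have hn0 : (0 : ℝ) < n := by exact_mod_cast hn1
  have hlC : 0 ≤ Real.log C := Real.log_nonneg hC1
  set Kp := ⌈x ^ (η / 6)⌉₊ with hKp
  set F := ⌊((P.m0 * Kp : ℕ) : ℝ) * (Real.log (6 * x) + P.a1)⌋₊ + 1 with hF
  set N := ⌊3 * (x / Real.log x)⌋₊ with hN
  set Δ : ℝ := C * Real.exp (ε * (8 * P.w * x)) with hΔ
  have hΔ1 : 1 ≤ Δ := by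
    rw [hΔ]
    have : 1 ≤ Real.exp (ε * (8 * P.w * x)) := Real.one_le_exp (by positivity)
    nlinarith
  have hlogΔ : Real.log Δ = Real.log C + ε * (8 * P.w * x) := by
    rw [hΔ, Real.log_mul (by linarith) (Real.exp_pos _).ne', Real.log_exp]
  have hK0 : K0 P δ * x = 7680 * P.w / δ * x + P.m0 * Real.exp P.a2 * x + x := by
    unfold K0
    ring
  have hHx : x ≤ H ∧ 7680 * P.w / δ * x ≤ H ∧ P.m0 * Real.exp P.a2 * x ≤ H := by
    have e1 : 0 ≤ 7680 * P.w / δ * x := by positivity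
    have e2 : 0 ≤ P.m0 * Real.exp P.a2 * x := by positivity
    refine ⟨by linarith, by linarith, by linarith⟩
  have hmain := count_det P hδ hη hη1 hP Kp N F x H ρ v Δ hx0 g2 g3 (by
      have := mul_le_mul_of_nonneg_left hHx.2.1 hδ.le
      have e1 : δ * (7680 * P.w / δ * x) = 7680 * P.w * x := by field_simp
      linarith) hHx.2.2 (by
      have := mul_le_mul_of_nonneg_left hHx.1 hδ.le
      linarith) hρ hΔ1 (by
      intro k hk hk2
      refine (hC k hk).trans ?_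
      rw [hΔ]
      apply mul_le_mul_of_nonneg_left _ (by linarith)
      have hk0 : (0 : ℝ) < k := by exact_mod_cast hk
      rw [Real.rpow_def_of_pos hk0, Real.exp_le_exp, mul_comm]
      exact mul_le_mul_of_nonneg_left hk2 hε0.le) (by
      rw [hlogΔ]
      have e1 : 4 * P.w * (ε * (8 * P.w * x)) = η * x / 2 := by
        rw [hε]
        field_simp
        ring
      nlinarith) (by
      rw [hF]
      push_cast
      have := Nat.lt_floor_add_one (((P.m0 * Kp : ℕ) : ℝ) * (Real.log (6 * x) + P.a1))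
      push_cast at this
      exact this) q hq hq1 hq2 l T (by
      intro t ht'
      obtain ⟨hrd, hB⟩ := hT t ht'
      refine ⟨hB, ?_⟩
      apply Nat.le_floor
      have hsub : tpr P (H / x) t l ⊆ (Pabc2.N t).primeFactors := by
        intro p hp
        exact (Finset.mem_filter.mp (tpr_subset _ _ _ _ hp)).1
      apply hcard
      · intro p hp
        exact (Nat.prime_of_mem_primeFactors (hsub hp)).two_le
      · have e1 : ∏ p ∈ tpr P (H / x) t l, p ≤ rd t := by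
          unfold rd
          apply Finset.prod_le_prod_of_subset_of_one_le' hsub
          intro p hp _
          exact (Nat.prime_of_mem_primeFactors hp).one_lt.le
        have e2 := e1.trans hrd
        rw [← Nat.cast_prod]
        exact_mod_cast e2)
  refine hmain.trans ?_
  have hlx : 0 < Real.log x := Real.log_pos hx1
  have e1 : (2 * F : ℝ) ^ N ≤ Real.exp (η * x) := by
    calc (2 * F : ℝ) ^ N ≤ (x ^ (η / 3)) ^ N := pow_le_pow_left₀ (by positivity) g7 N
      _ = Real.exp (Real.log x * (η / 3) * N) := by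
          rw [Real.rpow_def_of_pos hx0, ← Real.exp_nat_mul]
          congr 1
          ring
      _ ≤ Real.exp (η * x) := by
          rw [Real.exp_le_exp]
          have h3 : (N : ℝ) ≤ 3 * (x / Real.log x) := Nat.floor_le (by positivity)
          calc Real.log x * (η / 3) * N ≤ Real.log x * (η / 3) * (3 * (x / Real.log x)) :=
                mul_le_mul_of_nonneg_left h3 (by positivity)
            _ = η * x := by field_simp
  have e2 : (nattr P : ℝ) ≤ Real.exp (η * x) := by linarith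
  calc (2 * F : ℝ) ^ N * nattr P * Real.exp ((v + ρ + 12 * η) * x)
      ≤ Real.exp (η * x) * Real.exp (η * x) * Real.exp ((v + ρ + 12 * η) * x) := by
        apply mul_le_mul_of_nonneg_right _ (Real.exp_pos _).le
        exact mul_le_mul e1 e2 (Nat.cast_nonneg _) (Real.exp_pos _).le
    _ = Real.exp ((v + ρ + 14 * η) * x) := by
        rw [← Real.exp_add, ← Real.exp_add]
        congr 1
        ring

end Pool.Agent.Lib.Pabc14
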