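import Pool.Agent.Lib.Pabc14.Light
import Pool.Agent.Lib.Pabc1.SClass
import Pool.Agent.Lib.Pabc8.PolyR

/-!
# The relation of a triple in terms of fixed exponents

`P = comp t (lM l)`, `Q = comp t (lZ l)`, `A_P = ∏ p ∈ Hv, lab = lM l, p ^ e p`, `P = A_P * F_P` with
`F_P = ∏ p ∈ Hv, lab = lM l, p ^ (ex t p - e p) * ∏ p ∉ Hv, lab = lM l, p ^ ex t p` (`comp_eq`), the same for `Q`;
`log F_P, log F_Q ≤ lam` by `hlam`. `comp_rel3` (labels `lM l, lZ l, l`): `q ∣ P - sg3 l * Q`, `sg3 l = ± 1`, so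
`sgn * A_P / A_Q = F_Q / F_P` in the units of `ZMod q`; everything is coprime to `comp t l`.

`rel_inj`: `F_Q / F_P` is the same for `t` and `t'`; `light_unique` gives `F_Q F_P' = F_Q' F_P` (the products are
at most `exp (2 lam) < q`), hence `Q P' = Q' P`, and `P = P'`, `Q = Q'` because both pairs are coprime;
`comp_inj` (Pabc8.PolyR).
-/

open Finset

namespace Pool.Agent.Lib.Pabc14

open Pool.Agent.Lib.Pabc2 Pool.Agent.Lib.Pabc1

/-- The primes whose label is not `l`. -/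
def oprimes (t : ℕ × ℕ) (l : Fin 3) : Finset ℕ := (N t).primeFactors.filter (fun p => lab t p ≠ l)

/-- The product of the chosen prime powers of label `l'`. -/
def apart (t : ℕ × ℕ) (l' : Fin 3) (Hv : Finset ℕ) (e : ℕ → ℕ) : ℕ :=
  ∏ p ∈ Hv.filter (fun p => lab t p = l'), p ^ e p

/-- The sign. -/
def sgu (q : ℕ) (l : Fin 3) : (ZMod q)ˣ := if l = 2 then -1 else 1

namespace Rel

/-- The remaining exponent. -/
def w (t : ℕ × ℕ) (Hv : Finset ℕ) (e : ℕ → ℕ) (p : ℕ) : ℕ :=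
  ex t p - (if p ∈ Hv then e p else 0)

/-- The complementary factor. -/
def F (t : ℕ × ℕ) (l' : Fin 3) (Hv : Finset ℕ) (e : ℕ → ℕ) : ℕ :=
  ∏ p ∈ (N t).primeFactors.filter (fun p => lab t p = l'), p ^ w t Hv e p

theorem mem_oprimes {t : ℕ × ℕ} {l : Fin 3} {p : ℕ} :
    p ∈ oprimes t l ↔ p ∈ (N t).primeFactors ∧ lab t p ≠ l := by
  unfold oprimes
  rw [Finset.mem_filter]

theorem prime_coprime {t : ℕ × ℕ} {l : Fin 3} {q p : ℕ} (hI : IsT t) (hq : q ∣ comp t l)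
    (hp : p ∈ (N t).primeFactors) (hl : lab t p ≠ l) : p.Coprime q := by
  have hpr := Nat.prime_of_mem_primeFactors hp
  rw [Nat.Prime.coprime_iff_not_dvd hpr]
  intro hd
  exact hl (lab_of_dvd hI hpr (hd.trans hq))

theorem apart_eq {t : ℕ × ℕ} {l' : Fin 3} {Hv : Finset ℕ} {e : ℕ → ℕ}
    (hH : Hv ⊆ (N t).primeFactors) : apart t l' Hv e =
      ∏ p ∈ (N t).primeFactors.filter (fun p => lab t p = l'), p ^ (if p ∈ Hv then e p else 0) := by
  unfold apart
  have h1 : Hv.filter (fun p => lab t p = l') ⊆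
      (N t).primeFactors.filter (fun p => lab t p = l') := Finset.filter_subset_filter _ hH
  rw [← Finset.prod_subset h1]
  · apply Finset.prod_congr rfl
    intro p hp
    rw [if_pos (Finset.mem_filter.1 hp).1]
  · intro p hp hp'
    have : p ∉ Hv := fun h => hp' (Finset.mem_filter.2 ⟨h, (Finset.mem_filter.1 hp).2⟩)
    rw [if_neg this, pow_zero]

theorem comp_split {t : ℕ × ℕ} {l' : Fin 3} {Hv : Finset ℕ} {e : ℕ → ℕ} (hI : IsT t)
    (hH : Hv ⊆ (N t).primeFactors) (he : ∀ p ∈ Hv, e p ≤ ex t p) :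
    comp t l' = apart t l' Hv e * F t l' Hv e := by
  rw [comp_eq hI l', apart_eq hH, F, ← Finset.prod_mul_distrib]
  apply Finset.prod_congr rfl
  intro p _
  rw [← pow_add]
  congr 1
  unfold w
  split_ifs with h
  · have := he p h
    omega
  · omega

theorem F_pos {t : ℕ × ℕ} {l' : Fin 3} {Hv : Finset ℕ} {e : ℕ → ℕ} : 0 < F t l' Hv e := by
  unfold F
  apply Finset.prod_pos
  intro p hp
  exact pow_pos (Nat.prime_of_mem_primeFactors (Finset.mem_filter.1 hp).1).pos _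

theorem F_coprime {t : ℕ × ℕ} {l l' : Fin 3} {q : ℕ} {Hv : Finset ℕ} {e : ℕ → ℕ}
    (hI : IsT t) (hq : q ∣ comp t l) (hl : l' ≠ l) : (F t l' Hv e).Coprime q := by
  unfold F
  apply Nat.Coprime.prod_left
  intro p hp
  rw [Finset.mem_filter] at hp
  apply Nat.Coprime.pow_left
  exact prime_coprime hI hq hp.1 (by rw [hp.2]; exact hl)

theorem log_F_le {t : ℕ × ℕ} {l l' : Fin 3} {Hv : Finset ℕ} {e : ℕ → ℕ} {lam : ℝ}
    (hl : l' ≠ l) (hH : Hv ⊆ oprimes t l)
    (he : ∀ p ∈ Hv, e p ≤ ex t p)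
    (hlam : ∑ p ∈ oprimes t l \ Hv, (ex t p : ℝ) * Real.log p +
      ∑ p ∈ Hv, ((ex t p : ℝ) - e p) * Real.log p ≤ lam) :
    Real.log (F t l' Hv e : ℝ) ≤ lam := by
  have hlog : Real.log (F t l' Hv e : ℝ) =
      ∑ p ∈ (N t).primeFactors.filter (fun p => lab t p = l'), (w t Hv e p : ℝ) * Real.log p := by
    unfold F
    push_cast
    rw [Real.log_prod (fun p hp => by
      rw [Finset.mem_filter] at hp
      have : (0 : ℝ) < p := by exact_mod_cast (Nat.prime_of_mem_primeFactors hp.1).pos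
      positivity)]
    apply Finset.sum_congr rfl
    intro p _
    rw [Real.log_pow]
  have hsub : (N t).primeFactors.filter (fun p => lab t p = l') ⊆ oprimes t l := by
    intro p hp
    rw [Finset.mem_filter] at hp
    rw [mem_oprimes]
    exact ⟨hp.1, by rw [hp.2]; exact hl⟩
  have h1 : ∑ p ∈ (N t).primeFactors.filter (fun p => lab t p = l'),
      (w t Hv e p : ℝ) * Real.log p ≤ ∑ p ∈ oprimes t l, (w t Hv e p : ℝ) * Real.log p := by
    apply Finset.sum_le_sum_of_subset_of_nonneg hsub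
    intro p _ _
    exact mul_nonneg (Nat.cast_nonneg _) (Real.log_natCast_nonneg p)
  have h2 : ∑ p ∈ oprimes t l, (w t Hv e p : ℝ) * Real.log p =
      ∑ p ∈ oprimes t l \ Hv, (ex t p : ℝ) * Real.log p +
      ∑ p ∈ Hv, ((ex t p : ℝ) - e p) * Real.log p := by
    rw [← Finset.sum_sdiff hH]
    congr 1
    · apply Finset.sum_congr rfl
      intro p hp
      rw [Finset.mem_sdiff] at hp
      unfold w
      rw [if_neg hp.2, Nat.sub_zero]
    · apply Finset.sum_congr rfl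
      intro p hp
      unfold w
      rw [if_pos hp, Nat.cast_sub (he p hp)]
  rw [hlog]
  exact h1.trans (h2.le.trans hlam)

theorem cop {t : ℕ × ℕ} (hI : IsT t) {l1 l2 : Fin 3} (h : l1 ≠ l2) :
    (comp t l1).Coprime (comp t l2) := by
  by_contra hc
  obtain ⟨p, hp, h1, h2⟩ := Nat.Prime.not_coprime_iff_dvd.1 hc
  exact h ((lab_of_dvd hI hp h1).symm.trans (lab_of_dvd hI hp h2))

theorem sub_primes {t : ℕ × ℕ} {l : Fin 3} {Hv : Finset ℕ} (hH : Hv ⊆ oprimes t l) :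
    Hv ⊆ (N t).primeFactors := fun _ hp => (mem_oprimes.1 (hH hp)).1

end Rel

theorem apart_coprime {t : ℕ × ℕ} {l l' : Fin 3} {q : ℕ} {Hv : Finset ℕ} {e : ℕ → ℕ}
    (hI : IsT t) (hq : q ∣ comp t l) (hH : Hv ⊆ oprimes t l) : (apart t l' Hv e).Coprime q := by
  unfold apart
  apply Nat.Coprime.prod_left
  intro p hp
  rw [Finset.mem_filter] at hp
  apply Nat.Coprime.pow_left
  have h := Rel.mem_oprimes.1 (hH hp.1)
  exact Rel.prime_coprime hI hq h.1 h.2

namespace Rel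

theorem sgu_val (q : ℕ) (l : Fin 3) : ((sgu q l : (ZMod q)ˣ) : ZMod q) = ((sg3 l : ℤ) : ZMod q) := by
  unfold sgu sg3
  split_ifs <;> simp

theorem key {t : ℕ × ℕ} {l : Fin 3} {q : ℕ} {Hv : Finset ℕ} {e : ℕ → ℕ}
    (hI : IsT t) (hq : q ∣ comp t l) (hH : Hv ⊆ oprimes t l)
    (he : ∀ p ∈ Hv, e p ≤ ex t p) :
    sgu q l * (cu q (apart t (lM l) Hv e) * (cu q (apart t (lZ l) Hv e))⁻¹) *
      cu q (F t (lM l) Hv e) = cu q (F t (lZ l) Hv e) := by
  obtain ⟨hM, hZ, hMZ⟩ := labels l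
  have hH' := sub_primes hH
  have cA := apart_coprime (l' := lM l) (e := e) hI hq hH
  have cB := apart_coprime (l' := lZ l) (e := e) hI hq hH
  have cF := F_coprime (Hv := Hv) (e := e) hI hq hM
  have cG := F_coprime (Hv := Hv) (e := e) hI hq hZ
  have hd : (q : ℤ) ∣ (comp t (lM l) : ℤ) - sg3 l * (comp t (lZ l) : ℤ) :=
    (Int.natCast_dvd_natCast.2 hq).trans (comp_rel3 hMZ hM hZ)
  have hz : ((comp t (lM l) : ℕ) : ZMod q) = ((sg3 l : ℤ) : ZMod q) * ((comp t (lZ l) : ℕ) : ZMod q) := by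
    have h := (ZMod.intCast_zmod_eq_zero_iff_dvd _ _).2 hd
    push_cast at h
    exact sub_eq_zero.1 h
  rw [comp_split (e := e) hI hH' he, comp_split (l' := lZ l) (e := e) hI hH' he] at hz
  push_cast at hz
  have hs2 : ((sg3 l : ℤ) : ZMod q) * ((sg3 l : ℤ) : ZMod q) = 1 := by
    rw [← Int.cast_mul, sg3_sq, Int.cast_one]
  have h1 : sgu q l * cu q (apart t (lM l) Hv e) * cu q (F t (lM l) Hv e) =
      cu q (F t (lZ l) Hv e) * cu q (apart t (lZ l) Hv e) := by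
    apply Units.ext
    push_cast
    rw [cu_val cA, cu_val cF, cu_val cG, cu_val cB, sgu_val, mul_assoc, hz]
    linear_combination ((apart t (lZ l) Hv e : ZMod q) * (F t (lZ l) Hv e : ZMod q)) * hs2
  calc _ = sgu q l * cu q (apart t (lM l) Hv e) * cu q (F t (lM l) Hv e) *
        (cu q (apart t (lZ l) Hv e))⁻¹ := by
        rw [mul_comm (cu q (apart t (lM l) Hv e)) _, ← mul_assoc, mul_assoc, mul_assoc, mul_assoc,
          mul_comm]
        simp only [mul_assoc, mul_comm, mul_left_comm]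
    _ = _ := by rw [h1, mul_inv_cancel_right]

end Rel

theorem rel_light {t : ℕ × ℕ} {l : Fin 3} {q : ℕ} {Hv : Finset ℕ} {e : ℕ → ℕ} {lam : ℝ}
    (hI : IsT t) (hq0 : 0 < q) (hq : q ∣ comp t l) (hH : Hv ⊆ oprimes t l)
    (he : ∀ p ∈ Hv, e p ≤ ex t p)
    (hlam : ∑ p ∈ oprimes t l \ Hv, (ex t p : ℝ) * Real.log p +
      ∑ p ∈ Hv, ((ex t p : ℝ) - e p) * Real.log p ≤ lam) :
    sgu q l * (cu q (apart t (lM l) Hv e) * (cu q (apart t (lZ l) Hv e))⁻¹) ∈ Lt q lam := by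
  obtain ⟨hM, hZ, _⟩ := labels l
  exact ⟨Rel.F t (lZ l) Hv e, Rel.F t (lM l) Hv e, Rel.F_pos, Rel.F_pos,
    Rel.F_coprime hI hq hZ, Rel.F_coprime hI hq hM, Rel.log_F_le hZ hH he hlam,
    Rel.log_F_le hM hH he hlam, Rel.key hI hq hH he⟩

theorem rel_inj {t t' : ℕ × ℕ} {l : Fin 3} {q : ℕ} {Hv Hv' : Finset ℕ} {e : ℕ → ℕ} {lam : ℝ}
    (hI : IsT t) (hI' : IsT t') (hq0 : 0 < q) (hq : q ∣ comp t l) (hq' : q ∣ comp t' l)
    (hH : Hv ⊆ oprimes t l) (hH' : Hv' ⊆ oprimes t' l)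
    (he : ∀ p ∈ Hv, e p ≤ ex t p) (he' : ∀ p ∈ Hv', e p ≤ ex t' p)
    (hlam : ∑ p ∈ oprimes t l \ Hv, (ex t p : ℝ) * Real.log p +
      ∑ p ∈ Hv, ((ex t p : ℝ) - e p) * Real.log p ≤ lam)
    (hlam' : ∑ p ∈ oprimes t' l \ Hv', (ex t' p : ℝ) * Real.log p +
      ∑ p ∈ Hv', ((ex t' p : ℝ) - e p) * Real.log p ≤ lam) (h2 : 2 * lam < Real.log q)
    (hM : apart t (lM l) Hv e = apart t' (lM l) Hv' e)
    (hZ : apart t (lZ l) Hv e = apart t' (lZ l) Hv' e) : t = t' := by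
  obtain ⟨nM, nZ, nMZ⟩ := labels l
  have k := Rel.key hI hq hH he
  have k' := Rel.key hI' hq' hH' he'
  rw [← hM, ← hZ] at k'
  have cF := Rel.F_coprime (Hv := Hv) (e := e) hI hq nM
  have cG := Rel.F_coprime (Hv := Hv) (e := e) hI hq nZ
  have cF' := Rel.F_coprime (Hv := Hv') (e := e) hI' hq' nM
  have cG' := Rel.F_coprime (Hv := Hv') (e := e) hI' hq' nZ
  have hsmall : ∀ a b : ℕ, 0 < a → 0 < b → Real.log a ≤ lam → Real.log b ≤ lam → a * b < q := by
    intro a b ha hb hla hlb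
    have ha' : (0 : ℝ) < a := by exact_mod_cast ha
    have hb' : (0 : ℝ) < b := by exact_mod_cast hb
    have hq' : (0 : ℝ) < q := by exact_mod_cast hq0
    have h3 : Real.log ((a : ℝ) * b) < Real.log q := by
      rw [Real.log_mul ha'.ne' hb'.ne']
      linarith
    have h4 := (Real.log_lt_log_iff (mul_pos ha' hb') hq').1 h3
    exact_mod_cast h4
  have hx := light_unique cF cG cF' cG' (by rw [← k, ← k', mul_inv_cancel_right, mul_inv_cancel_right])
    (hsmall _ _ Rel.F_pos Rel.F_pos (Rel.log_F_le nZ hH he hlam) (Rel.log_F_le nM hH' he' hlam'))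
    (hsmall _ _ Rel.F_pos Rel.F_pos (Rel.log_F_le nZ hH' he' hlam') (Rel.log_F_le nM hH he hlam))
  have sM := Rel.comp_split (l' := lM l) (e := e) hI (Rel.sub_primes hH) he
  have sZ := Rel.comp_split (l' := lZ l) (e := e) hI (Rel.sub_primes hH) he
  have sM' := Rel.comp_split (l' := lM l) (e := e) hI' (Rel.sub_primes hH') he'
  have sZ' := Rel.comp_split (l' := lZ l) (e := e) hI' (Rel.sub_primes hH') he'
  rw [← hM] at sM'
  rw [← hZ] at sZ'
  have hcross : comp t (lZ l) * comp t' (lM l) = comp t' (lZ l) * comp t (lM l) := by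
    rw [sM, sZ, sM', sZ']
    calc _ = apart t (lZ l) Hv e * apart t (lM l) Hv e *
          (Rel.F t (lZ l) Hv e * Rel.F t' (lM l) Hv' e) := by ring
      _ = _ := by rw [hx]; ring
  have c1 := Rel.cop hI nMZ
  have c2 := Rel.cop hI' nMZ
  have d1 : comp t (lM l) ∣ comp t' (lM l) := by
    apply c1.dvd_of_dvd_mul_left
    exact ⟨comp t' (lZ l), by rw [hcross]; ring⟩
  have d2 : comp t' (lM l) ∣ comp t (lM l) := by
    apply c2.dvd_of_dvd_mul_left
    exact ⟨comp t (lZ l), by rw [← hcross]; ring⟩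
  have e1 : comp t (lM l) = comp t' (lM l) := Nat.dvd_antisymm d1 d2
  have e2 : comp t (lZ l) = comp t' (lZ l) := by
    rw [← e1] at hcross
    exact Nat.eq_of_mul_eq_mul_right (comp_pos hI _) hcross
  exact Pabc8.comp_inj nMZ (Prod.ext e1 e2)

end Pool.Agent.Lib.Pabc14
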