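import Pool.Agent.Lib.Pabc14.Holder
import Pool.Agent.Lib.Pabc14.Ex
import Pool.Agent.Lib.Pabc14.Relation

/-!
# The count in terms of the energies of the slots

`z t s = ∏ p ∈ Hv t, slot p = s, p`. It lies in `slotSet q slot (y s) s` (its prime factors are the primes of
the product; `log (z t s) ≤ y s`; the primes of `Hv t` do not divide `q ∣ comp t l`). `g s z = cu q (Ex e z)` if
`side s`, and its inverse otherwise. `∏ s, g s (z t s) = cu q (apart t (lM l) (Hv t) e) / cu q (apart t (lZ l) (Hv t) e)`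
(`Ex_primes`, `cu_prod`; a prime of `Hv t` with label `≠ lM l` has label `lZ l`, `labels`; group the primes by their
slots, `Finset.prod_fiberwise`). `t ↦ z t` is injective on `T` by `rel_inj` (the two `apart`s are
determined by `z t`). `tree_bound` with `L j = Lt q (2 ^ j * lam)`, `σ = sgu q l` and `T.image z`;
`energy_inv` for the slots with `side s = false`.
-/

open Finset

namespace Pool.Agent.Lib.Pabc14

open Pool.Agent.Lib.Pabc2 Pool.Agent.Lib.Pabc1

open Classical in
/-- The possible products of the primes of one slot. -/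
noncomputable def slotSet {ι : Type*} (q : ℕ) (slot : ℕ → ι) (y : ℝ) (s : ι) : Finset ℕ :=
  (Finset.Icc 1 ⌊Real.exp y⌋₊).filter (fun z => z.Coprime q ∧ ∀ p ∈ z.primeFactors, slot p = s)

/-- The product of the primes of one slot. -/
def csZ {ι : Type*} [DecidableEq ι] (slot : ℕ → ι) (H : Finset ℕ) (s : ι) : ℕ :=
  ∏ p ∈ H.filter (fun p => slot p = s), p

theorem csZ_primeFactors {ι : Type*} [DecidableEq ι] (slot : ℕ → ι) {H : Finset ℕ}
    (hH : ∀ p ∈ H, p.Prime) (s : ι) :
    (csZ slot H s).primeFactors = H.filter (fun p => slot p = s) := by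
  unfold csZ
  exact Nat.primeFactors_prod (fun p hp => hH p (Finset.mem_filter.mp hp).1)

theorem csZ_pos {ι : Type*} [DecidableEq ι] (slot : ℕ → ι) {H : Finset ℕ}
    (hH : ∀ p ∈ H, p.Prime) (s : ι) : 0 < csZ slot H s := by
  unfold csZ
  exact Finset.prod_pos (fun p hp => (hH p (Finset.mem_filter.mp hp).1).pos)

theorem csZ_coprime {ι : Type*} [DecidableEq ι] (slot : ℕ → ι) {H : Finset ℕ} {q : ℕ}
    (hq : ∀ p ∈ H, p.Coprime q) (s : ι) : (csZ slot H s).Coprime q := by
  unfold csZ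
  exact Nat.Coprime.prod_left (fun p hp => hq p (Finset.mem_filter.mp hp).1)

theorem csZ_log {ι : Type*} [DecidableEq ι] (slot : ℕ → ι) {H : Finset ℕ}
    (hH : ∀ p ∈ H, p.Prime) (s : ι) :
    Real.log (csZ slot H s) = ∑ p ∈ H.filter (fun p => slot p = s), Real.log (p : ℝ) := by
  unfold csZ
  push_cast
  apply Real.log_prod
  intro p hp
  exact Nat.cast_ne_zero.mpr (hH p (Finset.mem_filter.mp hp).1).ne_zero

theorem mem_slotSet {ι : Type*} {q : ℕ} {slot : ℕ → ι} {y : ℝ} {s : ι} {z : ℕ} :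
    z ∈ slotSet q slot y s ↔ (1 ≤ z ∧ z ≤ ⌊Real.exp y⌋₊) ∧ z.Coprime q ∧
      ∀ p ∈ z.primeFactors, slot p = s := by
  classical
  simp only [slotSet, Finset.mem_filter, Finset.mem_Icc]

theorem csZ_mem {ι : Type*} [DecidableEq ι] (slot : ℕ → ι) {H : Finset ℕ} {q : ℕ} {y : ℝ}
    (hH : ∀ p ∈ H, p.Prime) (hq : ∀ p ∈ H, p.Coprime q) (s : ι)
    (hy : ∑ p ∈ H.filter (fun p => slot p = s), Real.log (p : ℝ) ≤ y) :
    csZ slot H s ∈ slotSet q slot y s := by
  refine mem_slotSet.mpr ⟨⟨csZ_pos slot hH s, ?_⟩, csZ_coprime slot hq s, ?_⟩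
  · apply Nat.le_floor
    have h0 : (0 : ℝ) < (csZ slot H s : ℝ) := by exact_mod_cast csZ_pos slot hH s
    rw [← Real.log_le_iff_le_exp h0, csZ_log slot hH s]
    exact hy
  · intro p hp
    rw [csZ_primeFactors slot hH s, Finset.mem_filter] at hp
    exact hp.2

theorem csZ_inj {ι : Type*} [DecidableEq ι] (slot : ℕ → ι) {H H' : Finset ℕ}
    (hH : ∀ p ∈ H, p.Prime) (hH' : ∀ p ∈ H', p.Prime) (h : ∀ s, csZ slot H s = csZ slot H' s) :
    H = H' := by
  have key : ∀ s, H.filter (fun p => slot p = s) = H'.filter (fun p => slot p = s) := by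
    intro s
    rw [← csZ_primeFactors slot hH s, ← csZ_primeFactors slot hH' s, h s]
  ext p
  have h1 := congrArg (fun S : Finset ℕ => p ∈ S) (key (slot p))
  simpa using h1

/-- The value attached to an element of a slot. -/
noncomputable def csG {ι : Type*} (q : ℕ) (side : ι → Bool) (e : ℕ → ℕ) (s : ι) (z : ℕ) :
    (ZMod q)ˣ :=
  if side s = true then cu q (Ex e z) else (cu q (Ex e z))⁻¹

theorem csG_csZ {ι : Type*} [DecidableEq ι] (q : ℕ) (slot : ℕ → ι) (side : ι → Bool) (e : ℕ → ℕ)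
    {H : Finset ℕ} (hH : ∀ p ∈ H, p.Prime) (hq : ∀ p ∈ H, p.Coprime q) (s : ι) :
    csG q side e s (csZ slot H s) = ∏ p ∈ H.filter (fun p => slot p = s),
      (if side (slot p) = true then cu q (p ^ e p) else (cu q (p ^ e p))⁻¹) := by
  have h1 : cu q (Ex e (csZ slot H s)) =
      ∏ p ∈ H.filter (fun p => slot p = s), cu q (p ^ e p) := by
    unfold csZ
    rw [Ex_primes e _ (fun p hp => hH p (Finset.mem_filter.mp hp).1), cu_prod]
    intro p hp
    exact Nat.Coprime.pow_left _ (hq p (Finset.mem_filter.mp hp).1)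
  unfold csG
  rw [h1]
  by_cases hs : side s = true
  · rw [if_pos hs]
    apply Finset.prod_congr rfl
    intro p hp
    rw [(Finset.mem_filter.mp hp).2, if_pos hs]
  · rw [if_neg hs, ← Finset.prod_inv_distrib]
    apply Finset.prod_congr rfl
    intro p hp
    rw [(Finset.mem_filter.mp hp).2, if_neg hs]

theorem cs_third_label (l a : Fin 3) (h1 : a ≠ l) (h2 : a ≠ lM l) : a = lZ l := by
  revert l a
  decide

theorem cs_filter_lZ {t : ℕ × ℕ} {l : Fin 3} {H : Finset ℕ} (hH : ∀ p ∈ H, lab t p ≠ l) :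
    H.filter (fun p => ¬ lab t p = lM l) = H.filter (fun p => lab t p = lZ l) := by
  apply Finset.filter_congr
  intro p hp
  constructor
  · intro h
    exact cs_third_label l _ (hH p hp) h
  · intro h h2
    exact (labels l).2.2 (h2.symm.trans h)

theorem cs_prod_csG {ι : Type*} [Fintype ι] [DecidableEq ι] (q : ℕ) (slot : ℕ → ι) (side : ι → Bool)
    (e : ℕ → ℕ) {t : ℕ × ℕ} {l : Fin 3} {H : Finset ℕ} (hH : ∀ p ∈ H, p.Prime)
    (hq : ∀ p ∈ H, p.Coprime q) (hl : ∀ p ∈ H, lab t p ≠ l)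
    (hs : ∀ p ∈ H, (side (slot p) = true ↔ lab t p = lM l)) :
    ∏ s, csG q side e s (csZ slot H s) =
      cu q (apart t (lM l) H e) * (cu q (apart t (lZ l) H e))⁻¹ := by
  have h1 : ∏ s, csG q side e s (csZ slot H s) = ∏ p ∈ H,
      (if side (slot p) = true then cu q (p ^ e p) else (cu q (p ^ e p))⁻¹) := by
    rw [← Finset.prod_fiberwise H slot]
    apply Finset.prod_congr rfl
    intro s _
    exact csG_csZ q slot side e hH hq s
  rw [h1, ← Finset.prod_filter_mul_prod_filter_not H (fun p => lab t p = lM l), cs_filter_lZ hl]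
  congr 1
  · unfold apart
    rw [cu_prod _ _ (fun p hp => Nat.Coprime.pow_left _ (hq p (Finset.mem_filter.mp hp).1))]
    apply Finset.prod_congr rfl
    intro p hp
    rw [Finset.mem_filter] at hp
    rw [if_pos ((hs p hp.1).mpr hp.2)]
  · unfold apart
    rw [cu_prod _ _ (fun p hp => Nat.Coprime.pow_left _ (hq p (Finset.mem_filter.mp hp).1)),
      ← Finset.prod_inv_distrib]
    apply Finset.prod_congr rfl
    intro p hp
    rw [Finset.mem_filter] at hp
    have h2 : ¬ side (slot p) = true := by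
      intro h3
      exact (labels l).2.2 (((hs p hp.1).mp h3).symm.trans hp.2)
    rw [if_neg h2]

theorem count_slots {ι : Type*} [Fintype ι] [DecidableEq ι] (D : ℕ)
    (hι : Fintype.card ι ≤ 2 ^ (D + 1)) (q : ℕ) (hq : 0 < q) (l : Fin 3) (slot : ℕ → ι)
    (side : ι → Bool) (e : ℕ → ℕ) (y : ι → ℝ) (lam : ℝ) (hlam0 : 0 ≤ lam)
    (hlam : 2 * lam < Real.log q) (T : Finset (ℕ × ℕ)) (Hv : ℕ × ℕ → Finset ℕ)
    (hT : ∀ t ∈ T, IsT t ∧ q ∣ comp t l ∧ Hv t ⊆ oprimes t l ∧ (∀ p ∈ Hv t, e p ≤ ex t p) ∧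
      (∀ p ∈ Hv t, (side (slot p) = true ↔ lab t p = lM l)) ∧
      ∑ p ∈ oprimes t l \ Hv t, (ex t p : ℝ) * Real.log p +
        ∑ p ∈ Hv t, ((ex t p : ℝ) - e p) * Real.log p ≤ lam ∧
      ∀ s, ∑ p ∈ (Hv t).filter (fun p => slot p = s), Real.log (p : ℝ) ≤ y s) :
    (T.card : ℝ) ^ (2 ^ (D + 1)) ≤
      ∏ s, (energy (Lt q (2 ^ (D + 1) * lam)) (fun z => cu q (Ex e z)) (slotSet q slot (y s) s)
        (2 ^ D) : ℝ) := by
  classical
  have hprime : ∀ t ∈ T, ∀ p ∈ Hv t, p.Prime := by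
    intro t ht p hp
    have h1 := (hT t ht).2.2.1 hp
    unfold oprimes at h1
    exact Nat.prime_of_mem_primeFactors (Finset.mem_filter.mp h1).1
  have hlab : ∀ t ∈ T, ∀ p ∈ Hv t, lab t p ≠ l := by
    intro t ht p hp
    have h1 := (hT t ht).2.2.1 hp
    unfold oprimes at h1
    exact (Finset.mem_filter.mp h1).2
  have hcop : ∀ t ∈ T, ∀ p ∈ Hv t, p.Coprime q := by
    intro t ht p hp
    rw [(hprime t ht p hp).coprime_iff_not_dvd]
    intro hd
    exact hlab t ht p hp (lab_of_dvd (hT t ht).1 (hprime t ht p hp) (hd.trans (hT t ht).2.1))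
  have hinj : Set.InjOn (fun t => csZ slot (Hv t)) (T : Set (ℕ × ℕ)) := by
    intro t ht t' ht' heq
    rw [Finset.mem_coe] at ht ht'
    have hHH : Hv t = Hv t' :=
      csZ_inj slot (hprime t ht) (hprime t' ht') (fun s => congrFun heq s)
    obtain ⟨a1, a2, a3, a4, a5, a6, a7⟩ := hT t ht
    obtain ⟨b1, b2, b3, b4, b5, b6, b7⟩ := hT t' ht'
    have hM : (Hv t).filter (fun p => lab t p = lM l) =
        (Hv t').filter (fun p => lab t' p = lM l) := by
      rw [← hHH]
      apply Finset.filter_congr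
      intro p hp
      rw [← a5 p hp, ← b5 p (hHH ▸ hp)]
    have hZ : (Hv t).filter (fun p => lab t p = lZ l) =
        (Hv t').filter (fun p => lab t' p = lZ l) := by
      rw [← cs_filter_lZ (hlab t ht), ← cs_filter_lZ (hlab t' ht'), ← hHH]
      apply Finset.filter_congr
      intro p hp
      rw [← a5 p hp, ← b5 p (hHH ▸ hp)]
    refine rel_inj a1 b1 hq a2 b2 a3 b3 a4 b4 a6 b6 hlam ?_ ?_
    · unfold apart
      rw [hM]
    · unfold apart
      rw [hZ]
  have hcard : (T.image (fun t => csZ slot (Hv t))).card = T.card :=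
    Finset.card_image_of_injOn hinj
  have hmain := tree_bound (fun j => Lt q (2 ^ j * lam)) (by
    intro j a ha b hb
    have h1 := Lt_mul_inv ha hb
    have h2 : (2 : ℝ) ^ j * lam + 2 ^ j * lam = 2 ^ (j + 1) * lam := by ring
    rw [h2] at h1
    exact h1) D hι (fun s => slotSet q slot (y s) s) (csG q side e) (sgu q l)
    (T.image (fun t => csZ slot (Hv t))) (by
      intro z hz
      obtain ⟨t, ht, rfl⟩ := Finset.mem_image.mp hz
      obtain ⟨a1, a2, a3, a4, a5, a6, a7⟩ := hT t ht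
      refine ⟨fun s => csZ_mem slot (hprime t ht) (hcop t ht) s (a7 s), ?_⟩
      have h1 := rel_light (e := e) a1 hq a2 a3 a4 a6
      rw [← cs_prod_csG q slot side e (hprime t ht) (hcop t ht) (hlab t ht) a5] at h1
      show sgu q l * ∏ s, csG q side e s (csZ slot (Hv t) s) ∈ Lt q (2 ^ 0 * lam)
      rw [pow_zero, one_mul]
      exact h1)
  rw [hcard] at hmain
  refine hmain.trans (le_of_eq ?_)
  apply Finset.prod_congr rfl
  intro s _
  congr 1
  by_cases hs : side s = true
  · have h1 : csG q side e s = fun z => cu q (Ex e z) := by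
      funext z
      unfold csG
      rw [if_pos hs]
    rw [h1]
  · have h1 : csG q side e s = fun z => (cu q (Ex e z))⁻¹ := by
      funext z
      unfold csG
      rw [if_neg hs]
    rw [h1]
    exact energy_inv _ (fun z => cu q (Ex e z)) _ _

end Pool.Agent.Lib.Pabc14
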