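import Mathlib

/-!
# Geometric cells for the exponents

`ty K a h e = ⌊K (log (e / h) + a)⌋₊` is the cell of the exponent `e ≥ h exp (-a)`, and
`e0 K a h f = ⌈h exp (f / K - a)⌉₊` the smallest integer of the cell `f`. With `f = ty K a h e`:
`h exp (f / K - a) ≤ e < h exp ((f + 1) / K - a)`, so `h exp (f / K - a) > e exp (-1/K) ≥ e (1 - 1/K)`.
-/

namespace Pool.Agent.Lib.Pabc14

/-- The cell of an exponent. -/
noncomputable def ty (K a : ℕ) (h : ℝ) (e : ℕ) : ℕ := ⌊(K : ℝ) * (Real.log ((e : ℝ) / h) + a)⌋₊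

/-- The smallest integer of a cell. -/
noncomputable def e0 (K a : ℕ) (h : ℝ) (f : ℕ) : ℕ := ⌈h * Real.exp ((f : ℝ) / K - a)⌉₊

private theorem expo_log {a e : ℕ} {h : ℝ} (hh : 0 < h) (he : h * Real.exp (-(a : ℝ)) ≤ e) :
    0 < (e : ℝ) ∧ 0 ≤ Real.log ((e : ℝ) / h) + a := by
  have h1 : 0 < h * Real.exp (-(a : ℝ)) := by positivity
  have h2 : 0 < (e : ℝ) := lt_of_lt_of_le h1 he
  refine ⟨h2, ?_⟩
  have h3 : Real.exp (-(a : ℝ)) ≤ (e : ℝ) / h := by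
    rw [le_div_iff₀ hh, mul_comm]
    exact he
  have h4 := (Real.le_log_iff_exp_le (div_pos h2 hh)).2 h3
  linarith

theorem ty_le {K a e : ℕ} {h : ℝ} (hh : 0 < h) (he : h * Real.exp (-(a : ℝ)) ≤ e) :
    (ty K a h e : ℝ) ≤ K * (Real.log ((e : ℝ) / h) + a) :=
  Nat.floor_le (mul_nonneg (Nat.cast_nonneg _) (expo_log hh he).2)

theorem e0_ty_le {K a e : ℕ} {h : ℝ} (hK : 0 < K) (hh : 0 < h) (he : h * Real.exp (-(a : ℝ)) ≤ e) :
    e0 K a h (ty K a h e) ≤ e := by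
  obtain ⟨he0, -⟩ := expo_log hh he
  have hK' : (0 : ℝ) < K := Nat.cast_pos.2 hK
  unfold e0
  rw [Nat.ceil_le]
  have h1 := ty_le (K := K) hh he
  have h2 : (ty K a h e : ℝ) / K - a ≤ Real.log ((e : ℝ) / h) := by
    have : (ty K a h e : ℝ) / K ≤ Real.log ((e : ℝ) / h) + a := by
      rw [div_le_iff₀ hK', mul_comm]
      exact h1
    linarith
  have h3 : Real.exp ((ty K a h e : ℝ) / K - a) ≤ (e : ℝ) / h := by
    rw [← Real.exp_log (div_pos he0 hh)]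
    exact Real.exp_le_exp.2 h2
  calc h * Real.exp ((ty K a h e : ℝ) / K - a) ≤ h * ((e : ℝ) / h) :=
        mul_le_mul_of_nonneg_left h3 hh.le
    _ = e := by field_simp

theorem le_e0 {K a : ℕ} {h : ℝ} (f : ℕ) : h * Real.exp ((f : ℝ) / K - a) ≤ e0 K a h f :=
  Nat.le_ceil _

theorem sub_e0_ty_le {K a e : ℕ} {h : ℝ} (hK : 0 < K) (hh : 0 < h)
    (he : h * Real.exp (-(a : ℝ)) ≤ e) : (e : ℝ) - e0 K a h (ty K a h e) ≤ e / K := by
  obtain ⟨he0, -⟩ := expo_log hh he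
  have hK' : (0 : ℝ) < K := Nat.cast_pos.2 hK
  have h1 : (K : ℝ) * (Real.log ((e : ℝ) / h) + a) < (ty K a h e : ℝ) + 1 := Nat.lt_floor_add_one _
  have h2 : Real.log ((e : ℝ) / h) + a < ((ty K a h e : ℝ) + 1) / K := by
    rw [lt_div_iff₀ hK', mul_comm]
    exact h1
  have h3 : Real.log ((e : ℝ) / h) + -(1 / (K : ℝ)) ≤ (ty K a h e : ℝ) / K - a := by
    have : ((ty K a h e : ℝ) + 1) / K = (ty K a h e : ℝ) / K + 1 / K := add_div _ _ _
    linarith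
  have h4 : (e : ℝ) * (1 - 1 / (K : ℝ)) ≤ h * Real.exp ((ty K a h e : ℝ) / K - a) := by
    have h5 : (e : ℝ) / h * Real.exp (-(1 / (K : ℝ))) ≤ Real.exp ((ty K a h e : ℝ) / K - a) := by
      calc (e : ℝ) / h * Real.exp (-(1 / (K : ℝ))) =
          Real.exp (Real.log ((e : ℝ) / h) + -(1 / (K : ℝ))) := by
            rw [Real.exp_add, Real.exp_log (div_pos he0 hh)]
        _ ≤ _ := Real.exp_le_exp.2 h3
    have h6 : 1 - 1 / (K : ℝ) ≤ Real.exp (-(1 / (K : ℝ))) := by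
      have := Real.add_one_le_exp (-(1 / (K : ℝ)))
      linarith
    calc (e : ℝ) * (1 - 1 / (K : ℝ)) ≤ (e : ℝ) * Real.exp (-(1 / (K : ℝ))) :=
          mul_le_mul_of_nonneg_left h6 he0.le
      _ = h * ((e : ℝ) / h * Real.exp (-(1 / (K : ℝ)))) := by field_simp
      _ ≤ _ := mul_le_mul_of_nonneg_left h5 hh.le
  have h7 := le_e0 (K := K) (a := a) (h := h) (ty K a h e)
  have h8 : (e : ℝ) * (1 - 1 / (K : ℝ)) = e - e / K := by ring
  linarith

theorem e0_mono {K a : ℕ} {h : ℝ} (hh : 0 ≤ h) {f g : ℕ} (hfg : f ≤ g) : e0 K a h f ≤ e0 K a h g := by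
  unfold e0
  apply Nat.ceil_mono
  apply mul_le_mul_of_nonneg_left _ hh
  rw [Real.exp_le_exp]
  have h1 : (f : ℝ) / K ≤ (g : ℝ) / K :=
    div_le_div_of_nonneg_right (Nat.cast_le.2 hfg) (Nat.cast_nonneg _)
  linarith

theorem e0_le {K a : ℕ} {h : ℝ} (hK : 0 < K) (hh : 0 < h) {f g : ℕ} :
    (e0 K a h f : ℝ) ≤ Real.exp (((f : ℝ) - g) / K) * e0 K a h g + 1 := by
  have _ := hK
  have h1 : (e0 K a h f : ℝ) < h * Real.exp ((f : ℝ) / K - a) + 1 :=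
    Nat.ceil_lt_add_one (by positivity)
  have h2 := le_e0 (K := K) (a := a) (h := h) g
  have h3 : h * Real.exp ((f : ℝ) / K - a) =
      Real.exp (((f : ℝ) - g) / K) * (h * Real.exp ((g : ℝ) / K - a)) := by
    rw [mul_left_comm, ← Real.exp_add]
    congr 2
    rw [sub_div]
    ring
  have h4 := mul_le_mul_of_nonneg_left h2 (Real.exp_pos (((f : ℝ) - g) / K)).le
  linarith

/-- Comparison with a multiple of `K`: `K b ≤ ty e` iff `h exp (b - a) ≤ e`. -/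
theorem mul_le_ty_iff {K a b e : ℕ} {h : ℝ} (hK : 0 < K) (hh : 0 < h)
    (he : h * Real.exp (-(a : ℝ)) ≤ e) :
    K * b ≤ ty K a h e ↔ h * Real.exp ((b : ℝ) - a) ≤ e := by
  obtain ⟨he0, hl⟩ := expo_log hh he
  have hK' : (0 : ℝ) < K := Nat.cast_pos.2 hK
  unfold ty
  rw [Nat.le_floor_iff (mul_nonneg hK'.le hl)]
  push_cast
  rw [mul_le_mul_iff_right₀ hK']
  rw [← sub_le_iff_le_add, Real.le_log_iff_exp_le (div_pos he0 hh), le_div_iff₀ hh, mul_comm]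

end Pool.Agent.Lib.Pabc14
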