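import Mathlib

/-!
# A Cauchy-Schwarz tree for an approximate subgroup

`L j` is an increasing chain of approximate subgroups: `a, b ∈ L j → a * b⁻¹ ∈ L (j + 1)`.

Proof of `tree_bound`. Work in `MonoidAlgebra ℕ G` (commutative). `F s = ∑ z ∈ U s, of (g s z)`,
`inv F` = push forward along `a ↦ a⁻¹` (a ring homomorphism), `ell A F = ∑ a ∈ F.support ∩ A, F a`.

(a) Cauchy-Schwarz (`cs_pair`, `ell_cs`);
(b) symmetric elements (`ell_tree`), induction on `D`;
(c) `tree_bound`.
-/

open Finset

namespace Pool.Agent.Lib.Pabc14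

open Classical in
/-- The number of pairs of `W`-tuples of elements of `U` with quotient of products in `A`. -/
noncomputable def energy {G : Type*} [CommGroup G] (A : Set G) (g : ℕ → G) (U : Finset ℕ)
    (W : ℕ) : ℕ :=
  (((Fintype.piFinset (fun _ : Fin W => U)) ×ˢ (Fintype.piFinset (fun _ : Fin W => U))).filter
    (fun z => (∏ i, g (z.1 i)) * (∏ i, g (z.2 i))⁻¹ ∈ A)).card

/-- Inverting `g` does not change the energy (exchange the two tuples). -/
theorem energy_inv {G : Type*} [CommGroup G] (A : Set G) (g : ℕ → G) (U : Finset ℕ) (W : ℕ) :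
    energy A (fun z => (g z)⁻¹) U W = energy A g U W := by
  classical
  unfold energy
  refine Finset.card_bij' (fun z _ => (z.2, z.1)) (fun z _ => (z.2, z.1)) ?_ ?_ ?_ ?_
  · intro z hz
    simp only [mem_filter, mem_product] at hz ⊢
    refine ⟨⟨hz.1.2, hz.1.1⟩, ?_⟩
    have := hz.2
    rw [Finset.prod_inv_distrib, Finset.prod_inv_distrib, inv_inv, mul_comm] at this
    exact this
  · intro z hz
    simp only [mem_filter, mem_product] at hz ⊢
    refine ⟨⟨hz.1.2, hz.1.1⟩, ?_⟩
    rw [Finset.prod_inv_distrib, Finset.prod_inv_distrib, inv_inv, mul_comm]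
    exact hz.2
  · intro z _
    rfl
  · intro z _
    rfl

/-- the Cauchy-Schwarz inequality for a relation -/
theorem cs_pair {α β : Type*} (S : Finset α) (S' : Finset β) (w : α → ℝ) (w' : β → ℝ)
    (hw : ∀ a, 0 ≤ w a) (hw' : ∀ b, 0 ≤ w' b) (R : α → β → Prop) (E : α → α → Prop)
    (E' : β → β → Prop) [∀ a b, Decidable (R a b)] [∀ a b, Decidable (E a b)]
    [∀ a b, Decidable (E' a b)]
    (h1 : ∀ a a' b, R a b → R a' b → E a a') (h2 : ∀ a b b', R a b → R a b' → E' b b') :
    (∑ a ∈ S, ∑ b ∈ S', if R a b then w a * w' b else 0) ^ 2 ≤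
      (∑ a ∈ S, ∑ a' ∈ S, if E a a' then w a * w a' else 0) *
        (∑ b ∈ S', ∑ b' ∈ S', if E' b b' then w' b * w' b' else 0) := by
  set d : α → ℝ := fun a => ∑ b ∈ S', if R a b then w' b else 0 with hd
  set d' : β → ℝ := fun b => ∑ a ∈ S, if R a b then w a else 0 with hd'
  have hd0 : ∀ a, 0 ≤ d a := fun a => Finset.sum_nonneg fun b _ => by
    split_ifs
    · exact hw' b
    · exact le_rfl
  have hd0' : ∀ b, 0 ≤ d' b := fun b => Finset.sum_nonneg fun a _ => by
    split_ifs
    · exact hw a
    · exact le_rfl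
  have hdle : ∀ a, ∀ b ∈ S', R a b → w' b ≤ d a := by
    intro a b hb hR
    have := Finset.single_le_sum (f := fun b => if R a b then w' b else 0) (fun b _ => by
      show (0 : ℝ) ≤ if R a b then w' b else 0
      split_ifs
      · exact hw' b
      · exact le_rfl) hb
    simp only [hR, if_true] at this
    exact this
  have hdle' : ∀ b, ∀ a ∈ S, R a b → w a ≤ d' b := by
    intro b a ha hR
    have := Finset.single_le_sum (f := fun a => if R a b then w a else 0) (fun a _ => by
      show (0 : ℝ) ≤ if R a b then w a else 0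
      split_ifs
      · exact hw a
      · exact le_rfl) ha
    simp only [hR, if_true] at this
    exact this
  have key := Finset.sum_sq_le_sum_mul_sum_of_sq_le_mul (S ×ˢ S')
    (r := fun p => if R p.1 p.2 then w p.1 * w' p.2 else 0)
    (f := fun p => if R p.1 p.2 then w p.1 * w' p.2 * (d' p.2 / d p.1) else 0)
    (g := fun p => if R p.1 p.2 then w p.1 * w' p.2 * (d p.1 / d' p.2) else 0)
    (fun p _ => by
      show (0 : ℝ) ≤ if R p.1 p.2 then w p.1 * w' p.2 * (d' p.2 / d p.1) else 0
      split_ifs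
      · exact mul_nonneg (mul_nonneg (hw _) (hw' _)) (div_nonneg (hd0' _) (hd0 _))
      · exact le_rfl)
    (fun p _ => by
      show (0 : ℝ) ≤ if R p.1 p.2 then w p.1 * w' p.2 * (d p.1 / d' p.2) else 0
      split_ifs
      · exact mul_nonneg (mul_nonneg (hw _) (hw' _)) (div_nonneg (hd0 _) (hd0' _))
      · exact le_rfl)
    (fun p hp => by
      rw [mem_product] at hp
      refine le_of_eq ?_
      show (if R p.1 p.2 then w p.1 * w' p.2 else 0) ^ 2 =
        (if R p.1 p.2 then w p.1 * w' p.2 * (d' p.2 / d p.1) else 0) *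
        (if R p.1 p.2 then w p.1 * w' p.2 * (d p.1 / d' p.2) else 0)
      by_cases hR : R p.1 p.2
      · simp only [hR, if_true]
        by_cases h0 : w p.1 * w' p.2 = 0
        · rw [h0]; ring
        · have hwp : 0 < w p.1 := lt_of_le_of_ne (hw _) (fun h => h0 (by rw [← h, zero_mul]))
          have hwp' : 0 < w' p.2 := lt_of_le_of_ne (hw' _) (fun h => h0 (by rw [← h, mul_zero]))
          have e1 : 0 < d p.1 := lt_of_lt_of_le hwp' (hdle _ _ hp.2 hR)
          have e2 : 0 < d' p.2 := lt_of_lt_of_le hwp (hdle' _ _ hp.1 hR)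
          field_simp
      · simp [hR])
  rw [Finset.sum_product, Finset.sum_product, Finset.sum_product] at key
  refine key.trans (mul_le_mul ?_ ?_ ?_ ?_)
  · refine Finset.sum_le_sum fun a _ => ?_
    have e1 : ∀ b ∈ S', (if R a b then w a * w' b * (d' b / d a) else 0) ≤
        (w a * (∑ a' ∈ S, if E a a' then w a' else 0) / d a) * (if R a b then w' b else 0) := by
      intro b _
      by_cases hR : R a b
      · simp only [hR, if_true]
        have e2 : d' b ≤ ∑ a' ∈ S, if E a a' then w a' else 0 := by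
          refine Finset.sum_le_sum fun a' _ => ?_
          by_cases hR' : R a' b
          · simp [hR', h1 a a' b hR hR']
          · simp only [hR', if_false]
            split_ifs
            · exact hw a'
            · exact le_rfl
        have e3 : d' b / d a ≤ (∑ a' ∈ S, if E a a' then w a' else 0) / d a :=
          div_le_div_of_nonneg_right e2 (hd0 a)
        have e4 : 0 ≤ w a * w' b := mul_nonneg (hw _) (hw' _)
        calc w a * w' b * (d' b / d a) ≤
            w a * w' b * ((∑ a' ∈ S, if E a a' then w a' else 0) / d a) :=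
              mul_le_mul_of_nonneg_left e3 e4
          _ = _ := by ring
      · simp [hR]
    refine (Finset.sum_le_sum e1).trans ?_
    rw [← Finset.mul_sum]
    have e5 : 0 ≤ ∑ a' ∈ S, if E a a' then w a' else 0 := Finset.sum_nonneg fun a' _ => by
      split_ifs
      · exact hw a'
      · exact le_rfl
    have e6 : ∑ a' ∈ S, (if E a a' then w a * w a' else 0) =
        w a * ∑ a' ∈ S, if E a a' then w a' else 0 := by
      rw [Finset.mul_sum]
      refine Finset.sum_congr rfl fun a' _ => ?_
      split_ifs <;> simp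
    rw [e6]
    show (w a * (∑ a' ∈ S, if E a a' then w a' else 0) / d a) * d a ≤ _
    by_cases h0 : d a = 0
    · rw [h0, mul_zero]
      exact mul_nonneg (hw a) e5
    · rw [div_mul_cancel₀ _ h0]
  · rw [Finset.sum_comm]
    refine Finset.sum_le_sum fun b _ => ?_
    have e1 : ∀ a ∈ S, (if R a b then w a * w' b * (d a / d' b) else 0) ≤
        (w' b * (∑ b' ∈ S', if E' b b' then w' b' else 0) / d' b) * (if R a b then w a else 0) := by
      intro a _
      by_cases hR : R a b
      · simp only [hR, if_true]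
        have e2 : d a ≤ ∑ b' ∈ S', if E' b b' then w' b' else 0 := by
          refine Finset.sum_le_sum fun b' _ => ?_
          by_cases hR' : R a b'
          · simp [hR', h2 a b b' hR hR']
          · simp only [hR', if_false]
            split_ifs
            · exact hw' b'
            · exact le_rfl
        have e3 : d a / d' b ≤ (∑ b' ∈ S', if E' b b' then w' b' else 0) / d' b :=
          div_le_div_of_nonneg_right e2 (hd0' b)
        have e4 : 0 ≤ w a * w' b := mul_nonneg (hw _) (hw' _)
        calc w a * w' b * (d a / d' b) ≤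
            w a * w' b * ((∑ b' ∈ S', if E' b b' then w' b' else 0) / d' b) :=
              mul_le_mul_of_nonneg_left e3 e4
          _ = _ := by ring
      · simp [hR]
    refine (Finset.sum_le_sum e1).trans ?_
    rw [← Finset.mul_sum]
    have e5 : 0 ≤ ∑ b' ∈ S', if E' b b' then w' b' else 0 := Finset.sum_nonneg fun b' _ => by
      split_ifs
      · exact hw' b'
      · exact le_rfl
    have e6 : ∑ b' ∈ S', (if E' b b' then w' b * w' b' else 0) =
        w' b * ∑ b' ∈ S', if E' b b' then w' b' else 0 := by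
      rw [Finset.mul_sum]
      refine Finset.sum_congr rfl fun b' _ => ?_
      split_ifs <;> simp
    rw [e6]
    show (w' b * (∑ b' ∈ S', if E' b b' then w' b' else 0) / d' b) * d' b ≤ _
    by_cases h0 : d' b = 0
    · rw [h0, mul_zero]
      exact mul_nonneg (hw' b) e5
    · rw [div_mul_cancel₀ _ h0]
  · refine Finset.sum_nonneg fun a _ => Finset.sum_nonneg fun b _ => ?_
    show (0 : ℝ) ≤ if R a b then w a * w' b * (d a / d' b) else 0
    split_ifs
    · exact mul_nonneg (mul_nonneg (hw _) (hw' _)) (div_nonneg (hd0 _) (hd0' _))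
    · exact le_rfl
  · refine Finset.sum_nonneg fun a _ => Finset.sum_nonneg fun a' _ => ?_
    split_ifs
    · exact mul_nonneg (hw _) (hw _)
    · exact le_rfl

section Alg

variable {G : Type*} [CommGroup G]

open Classical in
/-- the mass of an element of the group algebra on a set -/
noncomputable def ell (A : Set G) : MonoidAlgebra ℕ G →+ ℕ where
  toFun F := F.coeff.sum fun a m => if a ∈ A then m else 0
  map_zero' := Finsupp.sum_zero_index
  map_add' F H := by
    show Finsupp.sum (F.coeff + H.coeff) (fun a m => if a ∈ A then m else 0) = _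
    apply Finsupp.sum_add_index'
    · intro a; simp
    · intro a m n; split_ifs <;> simp

open Classical in
theorem ell_single (A : Set G) (a : G) (m : ℕ) :
    ell A (MonoidAlgebra.single a m) = if a ∈ A then m else 0 := by
  show Finsupp.sum (MonoidAlgebra.coeff (MonoidAlgebra.single a m))
    (fun a m => if a ∈ A then m else 0) = _
  rw [MonoidAlgebra.coeff_single, Finsupp.sum_single_index]
  simp

open Classical in
theorem ell_of (A : Set G) (a : G) :
    ell A (MonoidAlgebra.of ℕ G a) = if a ∈ A then 1 else 0 := by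
  rw [MonoidAlgebra.of_apply, ell_single]

/-- push forward along the inversion -/
noncomputable def minv : MonoidAlgebra ℕ G →+* MonoidAlgebra ℕ G :=
  MonoidAlgebra.mapDomainRingHom ℕ (invMonoidHom : G →* G)

theorem minv_single (a : G) (m : ℕ) :
    minv (MonoidAlgebra.single a m) = MonoidAlgebra.single a⁻¹ m := by
  show MonoidAlgebra.mapDomain _ _ = _
  rw [MonoidAlgebra.mapDomain_single]
  rfl

theorem minv_of (a : G) :
    minv (MonoidAlgebra.of ℕ G a) = MonoidAlgebra.of ℕ G a⁻¹ := by
  rw [MonoidAlgebra.of_apply, minv_single, MonoidAlgebra.of_apply]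

theorem minv_minv (F : MonoidAlgebra ℕ G) : minv (minv F) = F := by
  induction F using MonoidAlgebra.induction_linear with
  | zero => simp
  | add f g hf hg => rw [map_add, map_add, hf, hg]
  | single a m => rw [minv_single, minv_single, inv_inv]

open Classical in
theorem ell_mul (A : Set G) (σ : G) (F H : MonoidAlgebra ℕ G) :
    ell A (MonoidAlgebra.of ℕ G σ * (F * H)) =
      F.coeff.sum fun a m => H.coeff.sum fun b n => if σ * (a * b) ∈ A then m * n else 0 := by
  induction F using MonoidAlgebra.induction_linear with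
  | zero => simp
  | add f g hf hg =>
    rw [add_mul, mul_add, map_add, hf, hg]
    symm
    show Finsupp.sum (f.coeff + g.coeff) _ = _
    apply Finsupp.sum_add_index'
    · intro a
      simp
    · intro a m n
      rw [← Finsupp.sum_add]
      refine Finsupp.sum_congr fun b _ => ?_
      split_ifs <;> simp [add_mul]
  | single a m =>
    rw [MonoidAlgebra.coeff_single, Finsupp.sum_single_index (by simp)]
    induction H using MonoidAlgebra.induction_linear with
    | zero => simp
    | add f g hf hg =>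
      rw [mul_add, mul_add, map_add, hf, hg]
      symm
      show Finsupp.sum (f.coeff + g.coeff) _ = _
      apply Finsupp.sum_add_index'
      · intro a
        simp
      · intro a m n
        split_ifs <;> simp [mul_add]
    | single b n =>
      rw [MonoidAlgebra.coeff_single, Finsupp.sum_single_index (by simp),
        MonoidAlgebra.of_apply, MonoidAlgebra.single_mul_single, MonoidAlgebra.single_mul_single,
        ell_single, one_mul]

open Classical in
theorem ell_mul_inv (A : Set G) (F : MonoidAlgebra ℕ G) :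
    ell A (F * minv F) =
      F.coeff.sum fun a m => F.coeff.sum fun b n => if a * b⁻¹ ∈ A then m * n else 0 := by
  have key : ∀ H : MonoidAlgebra ℕ G, ell A (F * minv H) =
      F.coeff.sum fun a m => H.coeff.sum fun b n => if a * b⁻¹ ∈ A then m * n else 0 := by
    intro H
    induction F using MonoidAlgebra.induction_linear with
    | zero => simp
    | add f g hf hg =>
      rw [add_mul, map_add, hf, hg]
      symm
      show Finsupp.sum (f.coeff + g.coeff) _ = _
      apply Finsupp.sum_add_index'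
      · intro a
        simp
      · intro a m n
        rw [← Finsupp.sum_add]
        refine Finsupp.sum_congr fun b _ => ?_
        split_ifs <;> simp [add_mul]
    | single a m =>
      rw [MonoidAlgebra.coeff_single, Finsupp.sum_single_index (by simp)]
      induction H using MonoidAlgebra.induction_linear with
      | zero => simp
      | add f g hf hg =>
        rw [map_add, mul_add, map_add, hf, hg]
        symm
        show Finsupp.sum (f.coeff + g.coeff) _ = _
        apply Finsupp.sum_add_index'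
        · intro a
          simp
        · intro a m n
          split_ifs <;> simp [mul_add]
      | single b n =>
        rw [MonoidAlgebra.coeff_single, Finsupp.sum_single_index (by simp),
          minv_single, MonoidAlgebra.single_mul_single, ell_single]
  exact key F

theorem ell_cs (A A' : Set G) (h : ∀ a ∈ A, ∀ b ∈ A, a * b⁻¹ ∈ A') (σ : G)
    (F H : MonoidAlgebra ℕ G) :
    ((ell A (MonoidAlgebra.of ℕ G σ * (F * H)) : ℕ) : ℝ) ^ 2 ≤
      (ell A' (F * minv F) : ℝ) * (ell A' (H * minv H) : ℝ) := by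
  classical
  have := cs_pair F.coeff.support H.coeff.support (fun a => (F.coeff a : ℝ))
    (fun b => (H.coeff b : ℝ)) (fun a => Nat.cast_nonneg _) (fun b => Nat.cast_nonneg _)
    (fun a b => σ * (a * b) ∈ A) (fun a a' => a * a'⁻¹ ∈ A') (fun b b' => b * b'⁻¹ ∈ A')
    (fun a a' b h1 h2 => by
      have := h _ h1 _ h2
      have e : σ * (a * b) * (σ * (a' * b))⁻¹ = a * a'⁻¹ := by
        rw [mul_inv, mul_inv]
        calc σ * (a * b) * (σ⁻¹ * (a'⁻¹ * b⁻¹)) = (σ * σ⁻¹) * (b * b⁻¹) * (a * a'⁻¹) := by
              simp only [mul_assoc, mul_comm, mul_left_comm]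
          _ = a * a'⁻¹ := by rw [mul_inv_cancel, mul_inv_cancel, one_mul, one_mul]
      rwa [e] at this)
    (fun a b b' h1 h2 => by
      have := h _ h1 _ h2
      have e : σ * (a * b) * (σ * (a * b'))⁻¹ = b * b'⁻¹ := by
        rw [mul_inv, mul_inv]
        calc σ * (a * b) * (σ⁻¹ * (a⁻¹ * b'⁻¹)) = (σ * σ⁻¹) * (a * a⁻¹) * (b * b'⁻¹) := by
              simp only [mul_assoc, mul_left_comm]
          _ = b * b'⁻¹ := by rw [mul_inv_cancel, mul_inv_cancel, one_mul, one_mul]
      rwa [e] at this)
  rw [ell_mul, ell_mul_inv, ell_mul_inv]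
  simp only [Finsupp.sum]
  push_cast
  convert this using 2

theorem split_card {ι : Type*} [DecidableEq ι] (D : ℕ) (I : Finset ι)
    (hI : I.card ≤ 2 ^ (D + 1)) :
    ∃ I1 I2 : Finset ι, Disjoint I1 I2 ∧ I1 ∪ I2 = I ∧ I1.card ≤ 2 ^ D ∧ I2.card ≤ 2 ^ D := by
  obtain ⟨I1, h1, h2⟩ := Finset.exists_subset_card_eq
    (show min I.card (2 ^ D) ≤ I.card from min_le_left _ _)
  refine ⟨I1, I \ I1, Finset.disjoint_sdiff, Finset.union_sdiff_of_subset h1, ?_, ?_⟩
  · rw [h2]; exact min_le_right _ _
  · rw [Finset.card_sdiff_of_subset h1, h2]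
    rw [pow_succ] at hI
    omega

theorem ell_tree (L : ℕ → Set G) (hL : ∀ j, ∀ a ∈ L j, ∀ b ∈ L j, a * b⁻¹ ∈ L (j + 1))
    {ι : Type*} [DecidableEq ι] (D : ℕ) : ∀ (j : ℕ) (I : Finset ι) (_ : I.card ≤ 2 ^ D)
    (F : ι → MonoidAlgebra ℕ G) (_ : ∀ s ∈ I, minv (F s) = F s),
    ((ell (L j) (∏ s ∈ I, F s) : ℕ) : ℝ) ^ (2 ^ D) ≤
      ∏ s ∈ I, ((ell (L (j + D)) ((F s) ^ (2 ^ D)) : ℕ) : ℝ) := by
  induction D with
  | zero =>
    intro j I hI F hF
    rw [pow_zero] at hI
    simp only [pow_zero, pow_one, add_zero]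
    rcases Finset.card_le_one_iff_subsingleton.mp hI |>.eq_empty_or_singleton with h | ⟨a, h⟩
    · have h' : I = ∅ := by exact_mod_cast h
      rw [h', Finset.prod_empty, Finset.prod_empty]
      have := ell_of (L j) (1 : G)
      rw [map_one] at this
      rw [this]
      split_ifs <;> simp
    · have h' : I = {a} := by
        apply Finset.coe_injective
        rw [h]; simp
      rw [h', Finset.prod_singleton, Finset.prod_singleton]
  | succ D ih =>
    intro j I hI F hF
    obtain ⟨I1, I2, hd, hu, h1, h2⟩ := split_card D I hI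
    have hF1 : ∀ s ∈ I1, minv (F s) = F s := fun s hs =>
      hF s (hu ▸ Finset.mem_union_left _ hs)
    have hF2 : ∀ s ∈ I2, minv (F s) = F s := fun s hs =>
      hF s (hu ▸ Finset.mem_union_right _ hs)
    have half : ∀ I' : Finset ι, I'.card ≤ 2 ^ D → (∀ s ∈ I', minv (F s) = F s) →
        ((ell (L (j + 1)) ((∏ s ∈ I', F s) * minv (∏ s ∈ I', F s)) : ℕ) : ℝ) ^ (2 ^ D) ≤
          ∏ s ∈ I', ((ell (L (j + (D + 1))) ((F s) ^ (2 ^ (D + 1))) : ℕ) : ℝ) := by
      intro I' hI' hF'
      have e1 : (∏ s ∈ I', F s) * minv (∏ s ∈ I', F s) = ∏ s ∈ I', (F s) ^ 2 := by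
        rw [map_prod, Finset.prod_congr rfl hF', ← Finset.prod_mul_distrib]
        exact Finset.prod_congr rfl fun s _ => (sq _).symm
      rw [e1]
      refine (ih (j + 1) I' hI' (fun s => (F s) ^ 2) (fun s hs => by
        show minv ((F s) ^ 2) = (F s) ^ 2
        rw [map_pow, hF' s hs])).trans (le_of_eq ?_)
      refine Finset.prod_congr rfl fun s _ => ?_
      have e2 : j + 1 + D = j + (D + 1) := by ring
      rw [← pow_mul, e2, pow_succ' 2 D]
    have hcs := ell_cs (L j) (L (j + 1)) (hL j) 1 (∏ s ∈ I1, F s) (∏ s ∈ I2, F s)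
    rw [map_one, one_mul, ← Finset.prod_union hd, hu] at hcs
    calc ((ell (L j) (∏ s ∈ I, F s) : ℕ) : ℝ) ^ (2 ^ (D + 1))
        = (((ell (L j) (∏ s ∈ I, F s) : ℕ) : ℝ) ^ 2) ^ (2 ^ D) := by
          rw [← pow_mul, pow_succ' 2 D]
      _ ≤ _ := pow_le_pow_left₀ (by positivity) hcs _
      _ = _ := mul_pow _ _ _
      _ ≤ _ := mul_le_mul (half I1 h1 hF1) (half I2 h2 hF2) (by positivity)
          (Finset.prod_nonneg fun s _ => by positivity)
      _ = _ := by rw [← Finset.prod_union hd, hu]

theorem prod_sum_of {ι : Type*} [Fintype ι] [DecidableEq ι] (U : ι → Finset ℕ)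
    (g : ι → ℕ → G) :
    ∏ s, (∑ z ∈ U s, MonoidAlgebra.of ℕ G (g s z)) =
      ∑ z ∈ Fintype.piFinset U, MonoidAlgebra.of ℕ G (∏ s, g s (z s)) := by
  rw [Finset.prod_univ_sum]
  refine Finset.sum_congr rfl fun z _ => ?_
  rw [map_prod]

theorem energy_eq_ell (A : Set G) (g : ℕ → G) (U : Finset ℕ) (W : ℕ) :
    energy A g U W = ell A (((∑ z ∈ U, MonoidAlgebra.of ℕ G (g z)) *
      minv (∑ z ∈ U, MonoidAlgebra.of ℕ G (g z))) ^ W) := by
  classical
  have e1 : (∑ z ∈ U, MonoidAlgebra.of ℕ G (g z)) ^ W =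
      ∑ z ∈ Fintype.piFinset (fun _ : Fin W => U), MonoidAlgebra.of ℕ G (∏ i, g (z i)) := by
    rw [← prod_sum_of (fun _ : Fin W => U) (fun _ => g)]
    simp
  rw [mul_pow, ← map_pow, e1, map_sum, Finset.sum_mul_sum, map_sum]
  simp only [map_sum, minv_of, ← map_mul, ell_of]
  unfold energy
  rw [Finset.card_filter, Finset.sum_product]

end Alg

theorem tree_bound {G : Type*} [CommGroup G] (L : ℕ → Set G)
    (hL : ∀ j, ∀ a ∈ L j, ∀ b ∈ L j, a * b⁻¹ ∈ L (j + 1)) (D : ℕ) {ι : Type*} [Fintype ι]
    [DecidableEq ι] (hι : Fintype.card ι ≤ 2 ^ (D + 1)) (U : ι → Finset ℕ) (g : ι → ℕ → G)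
    (σ : G) (T : Finset (ι → ℕ))
    (hT : ∀ z ∈ T, (∀ s, z s ∈ U s) ∧ σ * ∏ s, g s (z s) ∈ L 0) :
    (T.card : ℝ) ^ (2 ^ (D + 1)) ≤ ∏ s, (energy (L (D + 1)) (g s) (U s) (2 ^ D) : ℝ) := by
  classical
  set F : ι → MonoidAlgebra ℕ G := fun s => ∑ z ∈ U s, MonoidAlgebra.of ℕ G (g s z) with hF
  have hT1 : T.card ≤ ell (L 0) (MonoidAlgebra.of ℕ G σ * ∏ s, F s) := by
    have e1 : MonoidAlgebra.of ℕ G σ * ∏ s, F s =
        ∑ z ∈ Fintype.piFinset U, MonoidAlgebra.of ℕ G (σ * ∏ s, g s (z s)) := by
      rw [hF, prod_sum_of, Finset.mul_sum]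
      refine Finset.sum_congr rfl fun z _ => ?_
      rw [map_mul]
    rw [e1, map_sum]
    simp only [ell_of]
    rw [← Finset.card_filter]
    refine Finset.card_le_card fun z hz => ?_
    rw [Finset.mem_filter, Fintype.mem_piFinset]
    exact hT z hz
  obtain ⟨I1, I2, hd, hu, h1, h2⟩ := split_card D (Finset.univ : Finset ι)
    (by rw [Finset.card_univ]; exact hι)
  have half : ∀ I' : Finset ι, I'.card ≤ 2 ^ D →
      ((ell (L 1) ((∏ s ∈ I', F s) * minv (∏ s ∈ I', F s)) : ℕ) : ℝ) ^ (2 ^ D) ≤
        ∏ s ∈ I', (energy (L (D + 1)) (g s) (U s) (2 ^ D) : ℝ) := by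
    intro I' hI'
    rw [map_prod, ← Finset.prod_mul_distrib]
    refine (ell_tree L hL D 1 I' hI' (fun s => F s * minv (F s)) (fun s _ => by
      show minv (F s * minv (F s)) = F s * minv (F s)
      rw [map_mul, minv_minv, mul_comm])).trans (le_of_eq ?_)
    refine Finset.prod_congr rfl fun s _ => ?_
    rw [energy_eq_ell, add_comm 1 D]
  have hcs := ell_cs (L 0) (L 1) (hL 0) σ (∏ s ∈ I1, F s) (∏ s ∈ I2, F s)
  rw [← Finset.prod_union hd, hu] at hcs
  calc (T.card : ℝ) ^ (2 ^ (D + 1)) = ((T.card : ℝ) ^ 2) ^ (2 ^ D) := by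
        rw [← pow_mul, pow_succ' 2 D]
    _ ≤ (((ell (L 0) (MonoidAlgebra.of ℕ G σ * ∏ s, F s) : ℕ) : ℝ) ^ 2) ^ (2 ^ D) := by
        have : (T.card : ℝ) ≤ ((ell (L 0) (MonoidAlgebra.of ℕ G σ * ∏ s, F s) : ℕ) : ℝ) := by
          exact_mod_cast hT1
        gcongr
    _ ≤ _ := pow_le_pow_left₀ (by positivity) hcs _
    _ = _ := mul_pow _ _ _
    _ ≤ _ := mul_le_mul (half I1 h1) (half I2 h2) (by positivity)
          (Finset.prod_nonneg fun s _ => by positivity)
    _ = _ := by rw [← Finset.prod_union hd, hu]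

end Pool.Agent.Lib.Pabc14
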