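import Mathlib

/-!
# Light fractions modulo `q`

`cu q m` is the unit `m` of `ZMod q` (`1` if `m` is not coprime to `q`). `Lt q lam` is the set of the units
`u / v` with positive integers `u, v` coprime to `q` of logarithm at most `lam`.

`light_unique`: the hypothesis gives `F2 * F1' ≡ F2' * F1` modulo `q`, and both products are smaller
than `q`.
-/

open Finset

namespace Pool.Agent.Lib.Pabc14

open Classical in
/-- The unit of `ZMod q` given by a natural number. -/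
noncomputable def cu (q m : ℕ) : (ZMod q)ˣ :=
  if h : m.Coprime q then ZMod.unitOfCoprime m h else 1

theorem cu_val {q m : ℕ} (h : m.Coprime q) : ((cu q m : (ZMod q)ˣ) : ZMod q) = (m : ZMod q) := by
  unfold cu
  rw [dif_pos h, ZMod.coe_unitOfCoprime]

theorem cu_one (q : ℕ) : cu q 1 = 1 := by
  apply Units.ext
  rw [cu_val (Nat.coprime_one_left q), Nat.cast_one, Units.val_one]

theorem cu_mul {q m k : ℕ} (hm : m.Coprime q) (hk : k.Coprime q) :
    cu q (m * k) = cu q m * cu q k := by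
  apply Units.ext
  rw [Units.val_mul, cu_val hm, cu_val hk, cu_val (Nat.Coprime.mul_left hm hk), Nat.cast_mul]

theorem cu_prod {q : ℕ} {ι : Type*} (s : Finset ι) (f : ι → ℕ) (hf : ∀ i ∈ s, (f i).Coprime q) :
    cu q (∏ i ∈ s, f i) = ∏ i ∈ s, cu q (f i) := by
  classical
  induction s using Finset.induction_on with
  | empty => rw [Finset.prod_empty, Finset.prod_empty, cu_one]
  | insert a s ha ih =>
    have h1 : (∏ i ∈ s, f i).Coprime q :=
      Nat.Coprime.prod_left fun i hi => hf i (Finset.mem_insert_of_mem hi)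
    rw [Finset.prod_insert ha, Finset.prod_insert ha, cu_mul (hf a (Finset.mem_insert_self a s)) h1,
      ih fun i hi => hf i (Finset.mem_insert_of_mem hi)]

theorem cu_eq_iff {q m k : ℕ} (hm : m.Coprime q) (hk : k.Coprime q) :
    cu q m = cu q k ↔ (q : ℤ) ∣ (m : ℤ) - k := by
  rw [Units.ext_iff, cu_val hm, cu_val hk, eq_comm]
  have h := ZMod.intCast_eq_intCast_iff_dvd_sub (k : ℤ) (m : ℤ) q
  rw [← h, Int.cast_natCast, Int.cast_natCast]

/-- The light fractions. -/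
def Lt (q : ℕ) (lam : ℝ) : Set (ZMod q)ˣ :=
  {g | ∃ u v : ℕ, 0 < u ∧ 0 < v ∧ u.Coprime q ∧ v.Coprime q ∧ Real.log u ≤ lam ∧
    Real.log v ≤ lam ∧ g * cu q v = cu q u}

theorem Lt_mono {q : ℕ} {lam mu : ℝ} (h : lam ≤ mu) : Lt q lam ⊆ Lt q mu := by
  rintro g ⟨u, v, hu, hv, cu', cv, lu, lv, e⟩
  exact ⟨u, v, hu, hv, cu', cv, lu.trans h, lv.trans h, e⟩

theorem Lt_mul_inv {q : ℕ} {lam mu : ℝ} {a b : (ZMod q)ˣ} (ha : a ∈ Lt q lam)
    (hb : b ∈ Lt q mu) : a * b⁻¹ ∈ Lt q (lam + mu) := by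
  obtain ⟨u, v, hu, hv, cu1, cv1, lu, lv, e⟩ := ha
  obtain ⟨u', v', hu', hv', cu2, cv2, lu', lv', e'⟩ := hb
  refine ⟨u * v', v * u', Nat.mul_pos hu hv', Nat.mul_pos hv hu', Nat.Coprime.mul_left cu1 cv2,
    Nat.Coprime.mul_left cv1 cu2, ?_, ?_, ?_⟩
  · rw [Nat.cast_mul, Real.log_mul (by positivity) (by positivity)]
    linarith
  · rw [Nat.cast_mul, Real.log_mul (by positivity) (by positivity)]
    linarith
  · rw [cu_mul cu1 cv2, cu_mul cv1 cu2, ← e, ← e']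
    rw [show a * b⁻¹ * (cu q v * (b * cu q v')) = a * cu q v * cu q v' * (b⁻¹ * b) by
      simp only [mul_assoc, mul_left_comm, mul_comm], inv_mul_cancel, mul_one]

theorem of_ratio {q m k : ℕ} {lam : ℝ} (hm : m.Coprime q) (hk : k.Coprime q)
    (h : cu q m * (cu q k)⁻¹ ∈ Lt q lam) :
    ∃ u v : ℕ, 0 < u ∧ 0 < v ∧ u.Coprime q ∧ v.Coprime q ∧ Real.log u ≤ lam ∧
      Real.log v ≤ lam ∧ (q : ℤ) ∣ (m : ℤ) * v - k * u := by
  obtain ⟨u, v, hu, hv, cu1, cv1, lu, lv, e⟩ := h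
  refine ⟨u, v, hu, hv, cu1, cv1, lu, lv, ?_⟩
  have h1 : cu q (m * v) = cu q (k * u) := by
    rw [cu_mul hm cv1, cu_mul hk cu1, ← e]
    rw [show cu q k * (cu q m * (cu q k)⁻¹ * cu q v) = cu q m * cu q v * ((cu q k)⁻¹ * cu q k) by
      simp only [mul_assoc, mul_left_comm, mul_comm], inv_mul_cancel, mul_one]
  have h2 := (cu_eq_iff (Nat.Coprime.mul_left hm cv1) (Nat.Coprime.mul_left hk cu1)).1 h1
  rwa [Nat.cast_mul, Nat.cast_mul] at h2

theorem light_unique {q F1 F2 F1' F2' : ℕ} (h1 : F1.Coprime q) (h2 : F2.Coprime q)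
    (h1' : F1'.Coprime q) (h2' : F2'.Coprime q)
    (h : cu q F2 * (cu q F1)⁻¹ = cu q F2' * (cu q F1')⁻¹) (hs : F2 * F1' < q)
    (hs' : F2' * F1 < q) : F2 * F1' = F2' * F1 := by
  have e1 : cu q (F2 * F1') = cu q (F2' * F1) := by
    rw [cu_mul h2 h1', cu_mul h2' h1]
    have h3 : cu q F2 * (cu q F1)⁻¹ * (cu q F1 * cu q F1') =
        cu q F2' * (cu q F1')⁻¹ * (cu q F1 * cu q F1') := by rw [h]
    rw [show cu q F2 * (cu q F1)⁻¹ * (cu q F1 * cu q F1') =
      cu q F2 * cu q F1' * ((cu q F1)⁻¹ * cu q F1) by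
        simp only [mul_assoc, mul_left_comm, mul_comm], inv_mul_cancel, mul_one,
      show cu q F2' * (cu q F1')⁻¹ * (cu q F1 * cu q F1') =
      cu q F2' * cu q F1 * ((cu q F1')⁻¹ * cu q F1') by
        simp only [mul_assoc, mul_left_comm, mul_comm], inv_mul_cancel, mul_one] at h3
    exact h3
  have h4 := (cu_eq_iff (Nat.Coprime.mul_left h2 h1') (Nat.Coprime.mul_left h2' h1)).1 e1
  have h5 : ((F2 * F1' : ℕ) : ℤ) - ((F2' * F1 : ℕ) : ℤ) = 0 := by
    apply Int.eq_zero_of_abs_lt_dvd h4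
    rw [abs_lt]
    constructor <;> omega
  omega

end Pool.Agent.Lib.Pabc14
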