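import Pool.Agent.Lib.Pabc14.Relation
import Pool.Agent.Lib.Pabc14.Expo
import Pool.Agent.Lib.Pabc8.CoverR

/-!
# Parameters, typed primes, slots
-/

open Finset

namespace Pool.Agent.Lib.Pabc14

open Pool.Agent.Lib.Pabc2 Pool.Agent.Lib.Pabc1 Pool.Agent.Lib.Pabc8

/-- The parameters of the count. -/
structure Par where
  /-- light threshold -/
  a1 : ℕ
  /-- middle threshold -/
  a2 : ℕ
  /-- top threshold -/
  a3 : ℕ
  /-- number of groups -/
  w : ℕ
  /-- coarse cells per unit -/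
  m0 : ℕ
  /-- depth of the tree -/
  D : ℕ
  /-- precision of the weights -/
  Θ : ℕ

/-- The conditions on the parameters. -/
structure Par.Good (P : Par) (δ η : ℝ) : Prop where
  hD : 2 ^ P.D = 4 * P.w
  hw : 2 ≤ P.w
  hm : 1 ≤ P.m0
  ha : P.a2 ≤ P.a1
  ha3 : 1 ≤ P.a3
  hΘ : P.w ≤ P.Θ
  c1 : 147456 * Real.exp P.a3 * (96 * (P.a2 + P.a3) / P.w + 48 * P.w / P.m0) ≤ η * δ
  c2 : 1179648 * P.w * Real.exp (-(P.a1 : ℝ)) ≤ η * δ
  c3 : 32 * P.w * Real.exp ((P.a2 : ℝ) - P.a1) ≤ η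
  c4 : 4 * (P.a2 + P.a3) / P.w + 3 / P.m0 ≤ η
  c5 : (4 * P.w + 6) / P.Θ ≤ η
  c6 : 4 * Real.exp (-(P.a3 : ℝ)) ≤ η

/-- The index set of the slots. -/
abbrev Slot (w : ℕ) : Type := Bool × Option (Fin (w + 1) × Bool)

theorem card_slot (w : ℕ) : Fintype.card (Slot w) = 4 * w + 6 := by
  simp only [Slot, Fintype.card_prod, Fintype.card_bool, Fintype.card_option, Fintype.card_fin]
  ring

/-- The typed primes. -/
noncomputable def tpr (P : Par) (h : ℝ) (t : ℕ × ℕ) (l : Fin 3) : Finset ℕ :=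
  (oprimes t l).filter (fun p => h * Real.exp (-(P.a1 : ℝ)) ≤ ex t p)

/-- The slot of a prime. -/
def slt (P : Par) (Kp : ℕ) (σ : ℕ → Fin (P.w + 1) × Bool) (ω : ℕ → Bool × ℕ) (p : ℕ) : Slot P.w :=
  ((ω p).1, if P.m0 * Kp * (P.a1 - P.a2) ≤ (ω p).2 ∧ (ω p).2 < P.m0 * Kp * (P.a1 + P.a3) then
    some (σ (((ω p).2 - P.m0 * Kp * (P.a1 - P.a2)) / Kp)) else none)

/-- The weight of a slot. -/
noncomputable def Ws (P : Par) (Kp : ℕ) (h : ℝ) (σ : ℕ → Fin (P.w + 1) × Bool) (ω : ℕ → Bool × ℕ)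
    (l : Fin 3) (t : ℕ × ℕ) (s : Slot P.w) : ℝ :=
  ∑ p ∈ (tpr P h t l).filter (fun p => slt P Kp σ ω p = s), Real.log (p : ℝ)

theorem Ws_nonneg (P : Par) (Kp : ℕ) (h : ℝ) (σ : ℕ → Fin (P.w + 1) × Bool) (ω : ℕ → Bool × ℕ)
    (l : Fin 3) (t : ℕ × ℕ) (s : Slot P.w) : 0 ≤ Ws P Kp h σ ω l t s :=
  Finset.sum_nonneg (fun p _ => Real.log_natCast_nonneg p)

theorem sum_Ws (P : Par) (Kp : ℕ) (h : ℝ) (σ : ℕ → Fin (P.w + 1) × Bool) (ω : ℕ → Bool × ℕ)
    (l : Fin 3) (t : ℕ × ℕ) : ∑ s, Ws P Kp h σ ω l t s = ∑ p ∈ tpr P h t l, Real.log (p : ℝ) :=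
  Finset.sum_fiberwise (tpr P h t l) (slt P Kp σ ω) (fun p : ℕ => Real.log (p : ℝ))

theorem tpr_subset (P : Par) (h : ℝ) (t : ℕ × ℕ) (l : Fin 3) : tpr P h t l ⊆ oprimes t l :=
  Finset.filter_subset _ _

/-- The weight of the primes of label `≠ l`. -/
theorem oprimes_weight (t : ℕ × ℕ) (l : Fin 3) :
    ∑ p ∈ oprimes t l, Real.log (p : ℝ) = tw t - wt t l := by
  unfold oprimes tw wt
  have h := Finset.sum_filter_add_sum_filter_not (N t).primeFactors (fun p => lab t p = l)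
    (fun p : ℕ => Real.log (p : ℝ))
  have h2 : ∑ p ∈ (N t).primeFactors.filter (fun p => lab t p ≠ l), Real.log (p : ℝ) =
      ∑ p ∈ (N t).primeFactors.filter (fun p => ¬ lab t p = l), Real.log (p : ℝ) := rfl
  rw [h2]
  linarith

/-- The mass of the primes of label `≠ l`. -/
theorem oprimes_mass {t : ℕ × ℕ} (hI : IsT t) (l : Fin 3) :
    ∑ p ∈ oprimes t l, (ex t p : ℝ) * Real.log p ≤ 2 * ht t := by
  classical
  obtain ⟨h1, h2, h3⟩ := labels l
  have h4 : oprimes t l = (N t).primeFactors.filter (fun p => lab t p = lM l) ∪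
      (N t).primeFactors.filter (fun p => lab t p = lZ l) := by
    unfold oprimes
    ext p
    simp only [Finset.mem_filter, Finset.mem_union]
    constructor
    · rintro ⟨g1, g2⟩
      have : lab t p = lM l ∨ lab t p = lZ l := by
        generalize lab t p = i at g2
        revert g2 i l
        decide
      rcases this with h | h
      · left; exact ⟨g1, h⟩
      · right; exact ⟨g1, h⟩
    · rintro (⟨g1, g2⟩ | ⟨g1, g2⟩)
      · exact ⟨g1, by rw [g2]; exact h1⟩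
      · exact ⟨g1, by rw [g2]; exact h2⟩
  have h5 : Disjoint ((N t).primeFactors.filter (fun p => lab t p = lM l))
      ((N t).primeFactors.filter (fun p => lab t p = lZ l)) := by
    rw [Finset.disjoint_left]
    intro p hp hq
    have g1 := (Finset.mem_filter.mp hp).2
    have g2 := (Finset.mem_filter.mp hq).2
    exact h3 (g1.symm.trans g2)
  rw [h4, Finset.sum_union h5, ← log_comp_eq hI, ← log_comp_eq hI]
  have g1 := log_comp_le hI (lM l)
  have g2 := log_comp_le hI (lZ l)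
  linarith

/-- The first index of every group. -/
theorem exists_im {β : Type*} (I : ℕ) (σ : ℕ → β) : ∃ im : β → ℕ, ∀ u, im u ≤ I ∧
    ∀ i < I, σ i = u → im u ≤ i ∧ im u < I ∧ σ (im u) = u := by
  classical
  refine ⟨fun u => if h : ∃ i, i < I ∧ σ i = u then Nat.find h else 0, fun u => ?_⟩
  by_cases h : ∃ i, i < I ∧ σ i = u
  · simp only [dif_pos h]
    have h1 := Nat.find_spec h
    refine ⟨h1.1.le, fun i hi hu => ⟨Nat.find_min' h ⟨hi, hu⟩, h1.1, h1.2⟩⟩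
  · simp only [dif_neg h]
    exact ⟨Nat.zero_le _, fun i hi hu => absurd ⟨i, hi, hu⟩ h⟩

/-- `exp z ≤ 1 + 2 z` for `0 ≤ z ≤ 1`. -/
theorem exp_le_two {z : ℝ} (h0 : 0 ≤ z) (h1 : z ≤ 1) : Real.exp z ≤ 1 + 2 * z := by
  have h2 := Real.abs_exp_sub_one_sub_id_le (x := z) (by rw [abs_of_nonneg h0]; exact h1)
  have h3 := (abs_le.mp h2).2
  nlinarith

theorem e0_upper {K a : ℕ} {h : ℝ} (hh : 0 < h) (f : ℕ) :
    (e0 K a h f : ℝ) ≤ h * Real.exp ((f : ℝ) / K - a) + 1 := by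
  unfold e0
  exact (Nat.ceil_lt_add_one (by positivity)).le

end Pool.Agent.Lib.Pabc14
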