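import Pool.Agent.Lib.Pabc14.CasesH
import Pool.Agent.Lib.AbcL.Large
import Pool.Agent.Lib.AbcL.Above

/-!
# The count of all tall triples
-/

open Finset Filter Topology

namespace Pool.Agent.Lib.Pabc14

open Pool.Agent.Lib.Pabc2 Pool.Agent.Lib.Pabc1 Pool.Agent.Lib.Pabc8 Pool.Agent.Lib.AbcL

/-- The triples of radical at most `n` and height at least `M0 log n`, if `M0` is large in terms
of `ε`: at most `n ^ (1/3 + ε)`. -/
theorem tall_count (HK : Pabc12.RootKStmt 3) (HI : RootInfStmt 3) (ε : ℝ) (hε : 0 < ε) :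
    ∃ M0 : ℝ, 1 ≤ M0 ∧ ∀ᶠ n : ℕ in atTop, ∀ T : Finset (ℕ × ℕ),
      (∀ t ∈ T, IsT t ∧ rd t ≤ n ∧ M0 * Real.log n ≤ ht t) →
      (T.card : ℝ) ≤ (n : ℝ) ^ (1 / 3 + ε) := by
  classical
  obtain ⟨e, he0, heε, he1⟩ : ∃ e : ℝ, 0 < e ∧ e ≤ ε ∧ e ≤ 1 :=
    ⟨min ε 1, by positivity, min_le_left _ _, min_le_right _ _⟩
  set s : ℝ := e / 16 with hs
  have hs0 : 0 < s := by positivity
  have hs1 : s ≤ 1 := by rw [hs]; linarith
  set k : ℕ := ⌈1 / s⌉₊ with hk
  have hk1 : 1 / s ≤ k := Nat.le_ceil _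
  have hk2 : (k : ℝ) ≤ 2 / s := by
    have h1 : (k : ℝ) < 1 / s + 1 := Nat.ceil_lt_add_one (by positivity)
    have h2 : 1 ≤ 1 / s := by rw [le_div_iff₀ hs0]; linarith
    have h3 : 2 / s = 1 / s + 1 / s := by ring
    linarith
  obtain ⟨cI, hcI, KI, hI⟩ := HI (e / 4) k (by positivity)
  have H : ∀ d : ℝ, ∃ c K : ℝ, 0 < d → d ≤ 1 → (0 < c ∧
      ∀ᶠ n : ℕ in atTop, ∀ T : Finset (ℕ × ℕ),
        (∀ t ∈ T, IsT t ∧ rd t ≤ n ∧ K * Real.log n ≤ ht t ∧ ht t ≤ (n : ℝ) ^ (3 : ℝ) ∧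
          HasK n d (1 / 3 + 2 * s) c k t) → (T.card : ℝ) ≤ (n : ℝ) ^ (1 / 3 + 2 * s + e / 4)) := by
    intro d
    by_cases hd : 0 < d ∧ d ≤ 1
    · obtain ⟨c, hc, K, hK⟩ := HK d (1 / 3 + 2 * s) (e / 4) k hd.1 hd.2 (by positivity)
        (by positivity)
      exact ⟨c, K, fun _ _ => ⟨hc, hK⟩⟩
    · exact ⟨0, 0, fun h1 h2 => absurd ⟨h1, h2⟩ hd⟩
  choose cf Kf hcK using H
  have hcf : ∀ d, 0 < d → d ≤ 1 → 0 < cf d := fun d h1 h2 => (hcK d h1 h2).1
  set η : ℕ → ℝ := scl s cI cf with hη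
  have hηpos : ∀ j, 0 < η j ∧ η j ≤ 1 / 4 := scl_pos hs0 hcI hcf hs1
  have hηsucc := fun j => scl_succ (s := s) (cI := cI) (cf := cf) j
  have hanti : Antitone η := antitone_nat_of_succ_le (fun j => by
    have h1 := (hηsucc j).1
    have h2 := (hηpos j).1
    simp only [hη] at h2 ⊢
    linarith)
  have hd : ∀ j, 0 < s * η j / 4 ∧ s * η j / 4 ≤ 1 := by
    intro j
    obtain ⟨h1, h2⟩ := hηpos j
    refine ⟨by positivity, ?_⟩
    have : s * η j ≤ 1 * (1 / 4) := mul_le_mul hs1 h2 h1.le (by norm_num)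
    linarith
  choose Kq hKq1 hKq using fun j => count_T3H (s * η j / 4) (2 * s) (1 / 3) (e / 4) (hd j).1
    (by positivity) (by positivity) (by linarith)
  set g : ℕ → ℝ := fun j => |Kf (s * η j / 4)| + Kq j with hg
  have hg0 : ∀ j, 0 ≤ g j := fun j => by
    have h1 := hKq1 j
    have h2 := abs_nonneg (Kf (s * η j / 4))
    simp only [hg]
    linarith
  set M0 : ℝ := 1 + |KI| + ∑ j ∈ Finset.range 4, g j with hM0
  have hsum0 : 0 ≤ ∑ j ∈ Finset.range 4, g j := Finset.sum_nonneg (fun j _ => hg0 j)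
  have hM01 : 1 ≤ M0 := by
    have := abs_nonneg KI
    linarith
  have hM0g : ∀ j, j < 4 → g j ≤ M0 := by
    intro j hj
    have h1 := Finset.single_le_sum (f := g) (fun j _ => hg0 j) (Finset.mem_range.mpr hj)
    have := abs_nonneg KI
    linarith
  have hM0I : KI ≤ M0 := by
    have := le_abs_self KI
    linarith
  have hM0K : ∀ j, j < 4 → Kf (s * η j / 4) ≤ M0 := by
    intro j hj
    refine le_trans ?_ (hM0g j hj)
    have h2 := hKq1 j
    have := le_abs_self (Kf (s * η j / 4))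
    simp only [hg]
    linarith
  have hM0d : ∀ j, j < 4 → Kq j ≤ M0 := by
    intro j hj
    refine le_trans ?_ (hM0g j hj)
    simp only [hg]
    have := abs_nonneg (Kf (s * η j / 4))
    linarith
  refine ⟨M0, hM01, ?_⟩
  have hT3 : ∀ᶠ n : ℕ in atTop, ∀ j ∈ Finset.range 4, ∀ T : Finset (ℕ × ℕ),
      (∀ t ∈ T, IsT t ∧ rd t ≤ n ∧ Kq j * Real.log n ≤ ht t ∧
        HasQ n (s * η j / 4) (2 * s) (1 / 3) t) →
      (T.card : ℝ) ≤ (n : ℝ) ^ (2 * (2 * s) + 1 / 3 + e / 4) :=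
    (Filter.eventually_all_finset _).mpr (fun j _ => hKq j)
  have hKall : ∀ᶠ n : ℕ in atTop, ∀ j ∈ Finset.range 4, ∀ T : Finset (ℕ × ℕ),
        (∀ t ∈ T, IsT t ∧ rd t ≤ n ∧ Kf (s * η j / 4) * Real.log n ≤ ht t ∧
          ht t ≤ (n : ℝ) ^ (3 : ℝ) ∧
          HasK n (s * η j / 4) (1 / 3 + 2 * s) (cf (s * η j / 4)) k t) →
        (T.card : ℝ) ≤ (n : ℝ) ^ (1 / 3 + 2 * s + e / 4) :=
    (Filter.eventually_all_finset _).mpr (fun j _ => (hcK _ (hd j).1 (hd j).2).2)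
  have hlim : Tendsto (fun n : ℕ => Real.log (n : ℝ)) atTop atTop :=
    Real.tendsto_log_atTop.comp tendsto_natCast_atTop_atTop
  have hlim2 : Tendsto (fun n : ℕ => (n : ℝ)) atTop atTop := tendsto_natCast_atTop_atTop
  have hbig : ∀ᶠ n : ℕ in atTop, (9 : ℝ) ≤ (n : ℝ) ^ (e / 2) :=
    ((tendsto_rpow_atTop (show 0 < e / 2 by positivity)).comp hlim2).eventually_ge_atTop _
  filter_upwards [hT3, hKall, hI, hlim.eventually (eventually_ge_atTop 200), height3, hbig,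
    eventually_ge_atTop 2] with n h1 h2 h3 h4 h5 h6 h7 T hT
  have hn1 : 1 ≤ n := by omega
  have hn1' : (1 : ℝ) ≤ n := by exact_mod_cast hn1
  have hn0 : (0 : ℝ) < n := by linarith
  have hl0 : 0 < Real.log (n : ℝ) := by linarith
  set T1 : ℕ → Finset (ℕ × ℕ) := fun j => T.filter
    (fun t => HasQ n (s * η j / 4) (2 * s) (1 / 3) t) with hT1
  set T2 : ℕ → Finset (ℕ × ℕ) := fun j => T.filter
    (fun t => HasK n (s * η j / 4) (1 / 3 + 2 * s) (cf (s * η j / 4)) k t) with hT2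
  set T3 := T.filter (fun t => HasInf cI k t) with hT3'
  have hcover : T ⊆ (Finset.range 4).biUnion T1 ∪ ((Finset.range 4).biUnion T2 ∪ T3) := by
    intro t ht'
    obtain ⟨hIt, hrd, hh1⟩ := hT t ht'
    have hht : 200 ≤ ht t := by
      have : 1 * Real.log (n : ℝ) ≤ M0 * Real.log n := mul_le_mul_of_nonneg_right hM01 hl0.le
      linarith
    obtain ⟨j, hj, hsc⟩ := scales 3 η hanti
      (fun l : Fin 3 => ∑ p ∈ sml t (s * Real.log n) l, u t p)
    have hj4 : j < 4 := hj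
    have hη1 := (hηpos j)
    have hη2 := (hηpos (j + 1))
    have hc := casesH hIt hht h7 hrd hs0 hs1 hη1.1 hη1.2 hη2.2 hk1 hk2 hsc
    rw [Finset.mem_union, Finset.mem_union, Finset.mem_biUnion, Finset.mem_biUnion]
    rcases hc with hc | hc | hc
    · left; exact ⟨j, Finset.mem_range.mpr hj4, Finset.mem_filter.mpr ⟨ht', hc⟩⟩
    · right; left
      exact ⟨j, Finset.mem_range.mpr hj4, Finset.mem_filter.mpr ⟨ht',
        hc.mono hn1 le_rfl le_rfl (hηsucc j).2.1⟩⟩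
    · right; right
      exact Finset.mem_filter.mpr ⟨ht', hc.mono (hηsucc j).2.2⟩
  have hht2 : ∀ t ∈ T, ht t ≤ (n : ℝ) ^ (3 : ℝ) := fun t ht' => h5 t (hT t ht').1 (hT t ht').2.1
  have c1 : ∀ j ∈ Finset.range 4, ((T1 j).card : ℝ) ≤ (n : ℝ) ^ (1 / 3 + e / 2) := by
    intro j hj
    refine (h1 j hj (T1 j) ?_).trans ?_
    · intro t ht'
      simp only [hT1] at ht'
      rw [Finset.mem_filter] at ht'
      obtain ⟨hIt, hrd, hh1⟩ := hT t ht'.1
      refine ⟨hIt, hrd, le_trans ?_ hh1, ht'.2⟩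
      exact mul_le_mul_of_nonneg_right (hM0d j (Finset.mem_range.mp hj)) hl0.le
    · apply Real.rpow_le_rpow_of_exponent_le hn1'
      rw [hs]
      linarith
  have c2 : ∀ j ∈ Finset.range 4, ((T2 j).card : ℝ) ≤ (n : ℝ) ^ (1 / 3 + e / 2) := by
    intro j hj
    refine (h2 j hj (T2 j) ?_).trans ?_
    · intro t ht'
      simp only [hT2] at ht'
      rw [Finset.mem_filter] at ht'
      obtain ⟨hIt, hrd, hh1⟩ := hT t ht'.1
      refine ⟨hIt, hrd, le_trans ?_ hh1, hht2 t ht'.1, ht'.2⟩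
      exact mul_le_mul_of_nonneg_right (hM0K j (Finset.mem_range.mp hj)) hl0.le
    · apply Real.rpow_le_rpow_of_exponent_le hn1'
      rw [hs]
      linarith
  have c3 : (T3.card : ℝ) ≤ (n : ℝ) ^ (1 / 3 + e / 2) := by
    refine (h3 T3 ?_).trans ?_
    · intro t ht'
      rw [hT3', Finset.mem_filter] at ht'
      obtain ⟨hIt, hrd, hh1⟩ := hT t ht'.1
      refine ⟨hIt, hrd, le_trans ?_ hh1, hht2 t ht'.1, ht'.2⟩
      exact mul_le_mul_of_nonneg_right hM0I hl0.le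
    · apply Real.rpow_le_rpow_of_exponent_le hn1'
      linarith
  have hB0 : 0 < (n : ℝ) ^ (1 / 3 + e / 2) := by positivity
  calc (T.card : ℝ) ≤ (((Finset.range 4).biUnion T1 ∪ ((Finset.range 4).biUnion T2 ∪ T3)).card : ℝ) := by
        exact_mod_cast Finset.card_le_card hcover
    _ ≤ (((Finset.range 4).biUnion T1).card : ℝ) +
          (((Finset.range 4).biUnion T2).card + T3.card) := by
        exact_mod_cast (Finset.card_union_le _ _).trans
          (Nat.add_le_add_left (Finset.card_union_le _ _) _)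
    _ ≤ ∑ j ∈ Finset.range 4, ((T1 j).card : ℝ) +
          (∑ j ∈ Finset.range 4, ((T2 j).card : ℝ) + T3.card) := by
        have g1 : (((Finset.range 4).biUnion T1).card : ℝ) ≤
            ∑ j ∈ Finset.range 4, ((T1 j).card : ℝ) := by
          exact_mod_cast Finset.card_biUnion_le
        have g2 : (((Finset.range 4).biUnion T2).card : ℝ) ≤
            ∑ j ∈ Finset.range 4, ((T2 j).card : ℝ) := by
          exact_mod_cast Finset.card_biUnion_le
        linarith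
    _ ≤ ∑ _j ∈ Finset.range 4, (n : ℝ) ^ (1 / 3 + e / 2) +
          (∑ _j ∈ Finset.range 4, (n : ℝ) ^ (1 / 3 + e / 2) + (n : ℝ) ^ (1 / 3 + e / 2)) := by
        have g1 := Finset.sum_le_sum c1
        have g2 := Finset.sum_le_sum c2
        linarith
    _ = 9 * (n : ℝ) ^ (1 / 3 + e / 2) := by
        rw [Finset.sum_const, nsmul_eq_mul, Finset.card_range]
        push_cast
        ring
    _ ≤ (n : ℝ) ^ (e / 2) * (n : ℝ) ^ (1 / 3 + e / 2) :=
        mul_le_mul_of_nonneg_right h6 hB0.le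
    _ = (n : ℝ) ^ (1 / 3 + e) := by
        rw [← Real.rpow_add hn0]
        congr 1
        ring
    _ ≤ (n : ℝ) ^ (1 / 3 + ε) := by
        apply Real.rpow_le_rpow_of_exponent_le hn1'
        linarith

end Pool.Agent.Lib.Pabc14
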